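import Pool.Agent.U762.GP.Win

/-! All long windows at almost all points. -/

set_option autoImplicit false

namespace Pool.Agent.U762.GP

open MeasureTheory Filter Topology Set
open Pool.Agent.W66 (TT tri)

/-- the mean square input -/
def KT4 : Prop := ∃ c0 Z0 : ℝ, 0 < c0 ∧ 1 ≤ Z0 ∧ ∀ Z lam h : ℝ, Z0 ≤ Z →
  h = Real.exp (-lam) → √Z ≤ lam → lam ≤ c0 * Z → ∀ N : ℕ, Real.exp (Z + 2) ≤ N →
  ∫ z in Z..(Z + 1), (TT h N z - 1) ^ 2 ≤ 1 / Z ^ 4

lemma l1_of_l2 {F : ℝ → ℝ} (hF : Continuous F) {Z : ℝ} (hZ : 0 < Z)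
    (h : ∫ z in Z..(Z + 1), (F z) ^ 2 ≤ 1 / Z ^ 4) : ∫ z in Z..(Z + 1), |F z| ≤ 1 / Z ^ 2 := by
  have h1 : ∫ z in Z..(Z + 1), |F z| ≤ ∫ z in Z..(Z + 1), (Z ^ 2 / 2 * (F z) ^ 2 + 1 / (2 * Z ^ 2)) := by
    apply intervalIntegral.integral_mono_on (by linarith) (hF.abs.intervalIntegrable _ _)
    · apply Continuous.intervalIntegrable
      fun_prop
    · intro x _
      have h2 : 0 ≤ (Z * |F x| - 1 / Z) ^ 2 := sq_nonneg _
      have h3 : (Z * |F x| - 1 / Z) ^ 2 = Z ^ 2 * (F x) ^ 2 - 2 * |F x| + 1 / Z ^ 2 := by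
        rw [← sq_abs (F x)]
        field_simp
        ring
      rw [h3] at h2
      have h4 : 1 / (2 * Z ^ 2) = (1 / Z ^ 2) / 2 := by ring
      rw [h4]
      linarith
  have h2 : ∫ z in Z..(Z + 1), (Z ^ 2 / 2 * (F z) ^ 2 + 1 / (2 * Z ^ 2)) =
      Z ^ 2 / 2 * (∫ z in Z..(Z + 1), (F z) ^ 2) + 1 / (2 * Z ^ 2) := by
    rw [intervalIntegral.integral_add, intervalIntegral.integral_const_mul,
      intervalIntegral.integral_const]
    · simp
    · apply Continuous.intervalIntegrable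
      fun_prop
    · exact intervalIntegrable_const
  rw [h2] at h1
  have h3 : Z ^ 2 / 2 * (∫ z in Z..(Z + 1), (F z) ^ 2) ≤ Z ^ 2 / 2 * (1 / Z ^ 4) :=
    mul_le_mul_of_nonneg_left h (by positivity)
  have h4 : Z ^ 2 / 2 * (1 / Z ^ 4) + 1 / (2 * Z ^ 2) = 1 / Z ^ 2 := by field_simp; norm_num
  linarith

/-- the mean of a window integral -/
lemma win_mean {F : ℝ → ℝ} (hF : Continuous F) (h0 : ∀ x, 0 ≤ F x) {Z p q : ℝ} (hp0 : 0 ≤ p)
    (hp : p ≤ 1) (hq0 : 0 ≤ q)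
    (hq : q ≤ 2) : ∫ y in Z..(Z + 1), ∫ t in (y - p)..(y + q), F t ≤
      (p + q) * ∫ t in (Z - 1)..(Z + 3), F t := by
  have e1 : ∀ y, ∫ t in (y - p)..(y + q), F t = ∫ u in (-p)..q, F (y + u) := by
    intro y
    rw [intervalIntegral.integral_comp_add_left F y]
    rw [sub_eq_add_neg]
  simp_rw [e1]
  have e2 : ∫ y in Z..(Z + 1), ∫ u in (-p)..q, F (y + u) =
      ∫ u in (-p)..q, ∫ y in Z..(Z + 1), F (y + u) := by
    apply intervalIntegral_intervalIntegral_swap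
    have hc : Continuous (Function.uncurry fun y u : ℝ => F (y + u)) := by
      apply hF.comp
      fun_prop
    have hcomp : IsCompact (uIcc Z (Z + 1) ×ˢ uIcc (-p) q) := isCompact_uIcc.prod isCompact_uIcc
    exact (hc.continuousOn.integrableOn_compact hcomp).mono_set
      (prod_mono uIoc_subset_uIcc uIoc_subset_uIcc)
  rw [e2]
  have h1 : ∀ u ∈ Icc (-p) q, ∫ y in Z..(Z + 1), F (y + u) ≤ ∫ t in (Z - 1)..(Z + 3), F t := by
    intro u hu
    rw [intervalIntegral.integral_comp_add_right F u]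
    apply intervalIntegral.integral_mono_interval (by linarith [hu.1]) (by linarith)
      (by linarith [hu.2])
    · exact Filter.Eventually.of_forall fun x => h0 x
    · exact hF.intervalIntegrable _ _
  have h2 : ∫ u in (-p)..q, ∫ y in Z..(Z + 1), F (y + u) ≤
      ∫ u in (-p)..q, ∫ t in (Z - 1)..(Z + 3), F t := by
    apply intervalIntegral.integral_mono_on (by linarith)
    · apply Continuous.intervalIntegrable
      exact intervalIntegral.continuous_parametric_intervalIntegral_of_continuous'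
        (f := fun u y => F (y + u)) (by
          have : (Function.uncurry fun u y : ℝ => F (y + u)) = fun p : ℝ × ℝ => F (p.2 + p.1) := rfl
          rw [this]
          exact hF.comp (by fun_prop)) Z (Z + 1)
    · exact intervalIntegrable_const
    · exact h1
  refine h2.trans (le_of_eq ?_)
  rw [intervalIntegral.integral_const, smul_eq_mul]
  ring

/-- **long windows** -/
theorem bigTh (hKT : KT4) : ∃ c : ℝ, 0 < c ∧ c ≤ 1 / 10 ∧ ∀ δ : ℝ, 0 < δ → ∃ K Z1 : ℝ, 0 ≤ K ∧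
    ∀ Z : ℕ, Z1 ≤ Z →
      volume ({y : ℝ | ∃ η : ℝ, Real.exp (-(c * y)) ≤ η ∧ η ≤ 1 ∧ δ * η < |Th y η - η|} ∩
        Icc (Z : ℝ) (Z + 1)) ≤ ENNReal.ofReal (K / Z) := by
  obtain ⟨c0', Z0, hc0', hZ0, hKT⟩ := hKT
  set c0 : ℝ := min c0' (1 / 10) with hc0
  have hc0p : 0 < c0 := lt_min hc0' (by norm_num)
  have hc01 : c0 ≤ 1 / 10 := min_le_right _ _
  have hc0l : c0 ≤ c0' := min_le_left _ _
  refine ⟨c0 / 2, by positivity, by linarith, fun δ hδ => ?_⟩
  -- the threshold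
  set K : ℝ := 4 * (12 / δ * 4 * 4) with hK
  obtain ⟨Z1, hZ1⟩ : ∃ Z1 : ℝ, ∀ Z : ℝ, Z1 ≤ Z → Z0 + 1 ≤ Z ∧ 10 ≤ Z ∧
      Z + 2 ≤ (c0 * (Z - 1)) ^ 2 ∧ 1 ≤ c0 * (Z - 1) ∧
      4 / δ * Real.exp (-(c0 * (Z - 1))) ≤ Real.exp (-(c0 / 2 * (Z + 1))) := by
    have t1 : Tendsto (fun Z : ℝ => Z) atTop atTop := tendsto_id
    have t2 : Tendsto (fun Z : ℝ => c0 * (Z - 1)) atTop atTop :=
      (tendsto_atTop_add_const_right atTop (-1 : ℝ) tendsto_id).const_mul_atTop hc0p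
    have t3 : ∀ᶠ Z : ℝ in atTop, Z + 2 ≤ (c0 * (Z - 1)) ^ 2 := by
      filter_upwards [t2.eventually_ge_atTop (4 / c0 + 3), eventually_ge_atTop (2 : ℝ)] with Z h1 h2
      have h3 : c0 * (Z - 1) * (4 / c0) ≤ (c0 * (Z - 1)) ^ 2 := by
        rw [sq]
        apply mul_le_mul_of_nonneg_left _ (mul_nonneg hc0p.le (by linarith))
        linarith
      have h4 : c0 * (Z - 1) * (4 / c0) = 4 * (Z - 1) := by field_simp
      linarith
    have t4 : ∀ᶠ Z : ℝ in atTop,
        4 / δ * Real.exp (-(c0 * (Z - 1))) ≤ Real.exp (-(c0 / 2 * (Z + 1))) := by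
      have t5 : Tendsto (fun Z : ℝ => Real.exp (c0 * (Z - 1) - c0 / 2 * (Z + 1))) atTop atTop := by
        apply Real.tendsto_exp_atTop.comp
        have : (fun Z : ℝ => c0 * (Z - 1) - c0 / 2 * (Z + 1)) =
            fun Z : ℝ => c0 / 2 * Z + (-(3 * c0 / 2)) := by funext Z; ring
        rw [this]
        exact tendsto_atTop_add_const_right _ _ (tendsto_id.const_mul_atTop (by positivity))
      filter_upwards [t5.eventually_ge_atTop (4 / δ)] with Z hZ
      have h1 : Real.exp (c0 * (Z - 1) - c0 / 2 * (Z + 1)) * Real.exp (-(c0 * (Z - 1))) =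
          Real.exp (-(c0 / 2 * (Z + 1))) := by
        rw [← Real.exp_add]; congr 1; ring
      rw [← h1]
      exact mul_le_mul_of_nonneg_right hZ (Real.exp_pos _).le
    have := (((t1.eventually_ge_atTop (Z0 + 1)).and (t1.eventually_ge_atTop 10)).and
      (t3.and ((t2.eventually_ge_atTop 1).and t4)))
    obtain ⟨Z1, hZ1⟩ := eventually_atTop.1 this
    exact ⟨Z1, fun Z hZ => ⟨(hZ1 Z hZ).1.1, (hZ1 Z hZ).1.2, (hZ1 Z hZ).2.1, (hZ1 Z hZ).2.2.1,
      (hZ1 Z hZ).2.2.2⟩⟩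
  refine ⟨K, Z1, by positivity, fun Z hZ => ?_⟩
  obtain ⟨g1, g2, g3, g4, g5⟩ := hZ1 Z hZ
  set h : ℝ := Real.exp (-(c0 * ((Z : ℝ) - 1))) with hh
  have hhp : 0 < h := Real.exp_pos _
  have hh1 : h ≤ 1 := by
    rw [hh, Real.exp_le_one_iff]; linarith
  set N : ℕ := ⌈Real.exp ((Z : ℝ) + 6)⌉₊ with hN
  have hN1 : Real.exp ((Z : ℝ) + 6) ≤ N := Nat.le_ceil _
  set F : ℝ → ℝ := fun z => |TT h N z - 1| with hF
  have hFc : Continuous F := ((TT_cont h N).sub continuous_const).abs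
  have hF0 : ∀ x, 0 ≤ F x := fun x => abs_nonneg _
  have hFi : ∀ c d, IntervalIntegrable F volume c d := fun c d => hFc.intervalIntegrable c d
  -- total mass
  have hunit : ∀ i : ℕ, i < 4 → ∫ z in ((Z : ℝ) - 1 + i)..((Z : ℝ) - 1 + i + 1), F z ≤
      1 / ((Z : ℝ) - 1) ^ 2 := by
    intro i hi
    have hi' : (i : ℝ) ≤ 3 := by exact_mod_cast (by omega : i ≤ 3)
    have hi0 : (0 : ℝ) ≤ i := Nat.cast_nonneg i
    have h1 := hKT ((Z : ℝ) - 1 + i) (c0 * ((Z : ℝ) - 1)) h (by linarith) rfl (by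
      rw [Real.sqrt_le_left (by linarith)]
      linarith) (by nlinarith) N (by
        refine le_trans (Real.exp_le_exp.2 ?_) hN1
        linarith)
    have h2 := l1_of_l2 (F := fun z => TT h N z - 1) ((TT_cont h N).sub continuous_const)
      (by linarith : 0 < (Z : ℝ) - 1 + i) h1
    refine h2.trans ?_
    apply one_div_le_one_div_of_le
    · have : 0 < (Z : ℝ) - 1 := by linarith
      positivity
    · apply pow_le_pow_left₀ (by linarith)
      linarith
  have htot : ∫ z in ((Z : ℝ) - 1)..((Z : ℝ) + 3), F z ≤ 4 / ((Z : ℝ) - 1) ^ 2 := by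
    have h0 := hunit 0 (by norm_num)
    have h1 := hunit 1 (by norm_num)
    have h2 := hunit 2 (by norm_num)
    have h3 := hunit 3 (by norm_num)
    push_cast at h0 h1 h2 h3
    have e0 : (Z : ℝ) - 1 + 0 = Z - 1 := by ring
    have e0' : (Z : ℝ) - 1 + 0 + 1 = Z := by ring
    have e1 : (Z : ℝ) - 1 + 1 = Z := by ring
    have e1' : (Z : ℝ) - 1 + 1 + 1 = Z + 1 := by ring
    have e2 : (Z : ℝ) - 1 + 2 = Z + 1 := by ring
    have e2' : (Z : ℝ) - 1 + 2 + 1 = Z + 2 := by ring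
    have e3 : (Z : ℝ) - 1 + 3 = Z + 2 := by ring
    have e3' : (Z : ℝ) - 1 + 3 + 1 = Z + 3 := by ring
    rw [e0', e0] at h0
    rw [e1', e1] at h1
    rw [e2', e2] at h2
    rw [e3', e3] at h3
    have a1 := intervalIntegral.integral_add_adjacent_intervals (hFi ((Z:ℝ) - 1) Z) (hFi (Z:ℝ) (Z + 1))
    have a2 := intervalIntegral.integral_add_adjacent_intervals (hFi ((Z:ℝ) - 1) (Z + 1)) (hFi ((Z:ℝ) + 1) (Z + 2))
    have a3 := intervalIntegral.integral_add_adjacent_intervals (hFi ((Z:ℝ) - 1) (Z + 2)) (hFi ((Z:ℝ) + 2) (Z + 3))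
    have e4 : 4 / ((Z : ℝ) - 1) ^ 2 = 4 * (1 / ((Z : ℝ) - 1) ^ 2) := by ring
    rw [e4]
    linarith
  -- dyadic scales
  set J : ℕ := 2 * Z with hJ
  set B : ℕ → Set ℝ := fun j => {y | h ≤ (1 / 2 : ℝ) ^ j ∧
    δ / 2 * (1 / 2 : ℝ) ^ (j + 1) ≤ ∫ t in (y - h)..(y + ((1 / 2 : ℝ) ^ j + h)), F t} with hB
  have hBm : ∀ j, volume (B j ∩ Icc (Z : ℝ) (Z + 1)) ≤
      ENNReal.ofReal (12 / δ * (4 / ((Z : ℝ) - 1) ^ 2)) := by
    intro j
    by_cases hj : h ≤ (1 / 2 : ℝ) ^ j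
    swap
    · have : B j = ∅ := by
        ext y
        simp only [hB, mem_ofPred_eq, mem_empty_iff_false, iff_false, not_and]
        intro h1
        exact absurd h1 hj
      rw [this]; simp
    have hpj : (0 : ℝ) < (1 / 2 : ℝ) ^ j := by positivity
    have hpj1 : (1 / 2 : ℝ) ^ j ≤ 1 := pow_le_one₀ (by norm_num) (by norm_num)
    set G : ℝ → ℝ := fun y => ∫ t in (y - h)..(y + ((1 / 2 : ℝ) ^ j + h)), F t with hG
    have hGc : Continuous G := by
      have hprim : Continuous (fun x : ℝ => ∫ t in (0 : ℝ)..x, F t) :=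
        intervalIntegral.continuous_primitive (fun a b => hFi a b) 0
      have e : G = fun y => (∫ t in (0 : ℝ)..(y + ((1 / 2 : ℝ) ^ j + h)), F t) -
          ∫ t in (0 : ℝ)..(y - h), F t := by
        funext y
        simp only [hG]
        rw [intervalIntegral.integral_interval_sub_left (hFi _ _) (hFi _ _)]
      rw [e]
      exact (hprim.comp (by fun_prop)).sub (hprim.comp (by fun_prop))
    have hG0 : ∀ y, 0 ≤ G y := fun y => by
      simp only [hG]
      apply intervalIntegral.integral_nonneg (by linarith)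
      intro t _; exact hF0 t
    have h1 := mul_meas_ge_le_integral_of_nonneg (μ := volume.restrict (Ioc (Z : ℝ) (Z + 1)))
      (f := G) (Filter.Eventually.of_forall fun y => hG0 y)
      (hGc.integrableOn_Icc.mono_set Ioc_subset_Icc_self)
      (δ / 2 * (1 / 2 : ℝ) ^ (j + 1))
    rw [← intervalIntegral.integral_of_le (by linarith)] at h1
    have h2 := win_mean hFc hF0 (Z := (Z : ℝ)) (p := h) (q := (1 / 2 : ℝ) ^ j + h) hhp.le hh1
      (by positivity) (by linarith)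
    have h3 : (volume.restrict (Ioc (Z : ℝ) (Z + 1))).real
        {x | δ / 2 * (1 / 2 : ℝ) ^ (j + 1) ≤ G x} ≤ 12 / δ * (4 / ((Z : ℝ) - 1) ^ 2) := by
      have h4 : δ / 2 * (1 / 2 : ℝ) ^ (j + 1) * (volume.restrict (Ioc (Z : ℝ) (Z + 1))).real
        {x | δ / 2 * (1 / 2 : ℝ) ^ (j + 1) ≤ G x} ≤
          3 * (1 / 2 : ℝ) ^ j * (4 / ((Z : ℝ) - 1) ^ 2) := by
        refine h1.trans (h2.trans ?_)
        apply mul_le_mul _ htot _ (by positivity)
        · linarith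
        · apply intervalIntegral.integral_nonneg (by linarith)
          intro t _; exact hF0 t
      rw [pow_succ] at h4
      have h5 : δ / 4 * ((1 / 2 : ℝ) ^ j * (volume.restrict (Ioc (Z : ℝ) (Z + 1))).real
        {x | δ / 2 * ((1 / 2 : ℝ) ^ j * (1 / 2)) ≤ G x}) ≤
          (1 / 2 : ℝ) ^ j * (3 * (4 / ((Z : ℝ) - 1) ^ 2)) := by
        linarith
      have h6 : δ / 4 * (volume.restrict (Ioc (Z : ℝ) (Z + 1))).real
        {x | δ / 2 * ((1 / 2 : ℝ) ^ j * (1 / 2)) ≤ G x} ≤ 3 * (4 / ((Z : ℝ) - 1) ^ 2) := by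
        have h7 : (1 / 2 : ℝ) ^ j * (δ / 4 * (volume.restrict (Ioc (Z : ℝ) (Z + 1))).real
          {x | δ / 2 * ((1 / 2 : ℝ) ^ j * (1 / 2)) ≤ G x}) ≤
            (1 / 2 : ℝ) ^ j * (3 * (4 / ((Z : ℝ) - 1) ^ 2)) := by linarith
        exact le_of_mul_le_mul_left h7 hpj
      have e12 : 12 / δ * (4 / ((Z : ℝ) - 1) ^ 2) = (12 * (4 / ((Z : ℝ) - 1) ^ 2)) / δ := by ring
      rw [pow_succ, e12, le_div_iff₀ hδ]
      linarith
    haveI : IsFiniteMeasure (volume.restrict (Ioc (Z : ℝ) (Z + 1))) :=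
      ⟨by rw [Measure.restrict_apply_univ]; exact measure_Ioc_lt_top⟩
    have h8 : (volume.restrict (Ioc (Z : ℝ) (Z + 1))) {x | δ / 2 * (1 / 2 : ℝ) ^ (j + 1) ≤ G x} ≤
        ENNReal.ofReal (12 / δ * (4 / ((Z : ℝ) - 1) ^ 2)) := by
      rw [← ENNReal.ofReal_toReal (measure_ne_top (volume.restrict (Ioc (Z : ℝ) (Z + 1)))
        {x | δ / 2 * (1 / 2 : ℝ) ^ (j + 1) ≤ G x})]
      exact ENNReal.ofReal_le_ofReal h3
    have h9 : volume (B j ∩ Icc (Z : ℝ) (Z + 1)) ≤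
        (volume.restrict (Ioc (Z : ℝ) (Z + 1))) {x | δ / 2 * (1 / 2 : ℝ) ^ (j + 1) ≤ G x} := by
      rw [Measure.restrict_congr_set Ioc_ae_eq_Icc, Measure.restrict_apply' measurableSet_Icc]
      apply measure_mono
      apply inter_subset_inter_left
      intro y hy
      exact hy.2
    exact h9.trans h8
  have hsub : {y : ℝ | ∃ η : ℝ, Real.exp (-(c0 / 2 * y)) ≤ η ∧ η ≤ 1 ∧ δ * η < |Th y η - η|} ∩
      Icc (Z : ℝ) (Z + 1) ⊆ ⋃ j ∈ Finset.range (J + 1), (B j ∩ Icc (Z : ℝ) (Z + 1)) := by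
    rintro y ⟨⟨η, h1, h2, h3⟩, hy⟩
    have hηp : 0 < η := lt_of_lt_of_le (Real.exp_pos _) h1
    have hηh : 4 / δ * h ≤ η := by
      refine g5.trans (le_trans (Real.exp_le_exp.2 ?_) h1)
      rw [neg_le_neg_iff]
      apply mul_le_mul_of_nonneg_left hy.2 (by positivity)
    have hηh2 : Real.exp (-(c0 / 2 * ((Z : ℝ) + 1))) ≤ η := by
      refine le_trans (Real.exp_le_exp.2 ?_) h1
      rw [neg_le_neg_iff]
      apply mul_le_mul_of_nonneg_left hy.2 (by positivity)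
    have hhη : h ≤ η := by
      refine le_trans (Real.exp_le_exp.2 ?_) hηh2
      rw [neg_le_neg_iff]
      nlinarith
    by_cases hcase : 2 * h ≤ η
    swap
    · -- then `4 / δ * h ≤ η < 2 h`, so `δ > 2`, and the window is too small: impossible by size
      exfalso
      rw [not_le] at hcase
      have h4 : Real.exp (-(c0 / 2 * ((Z : ℝ) + 1))) < 2 * h := lt_of_le_of_lt hηh2 hcase
      have h5 : Real.exp (-(c0 / 2 * ((Z : ℝ) + 1))) =
          Real.exp (c0 / 2 * ((Z : ℝ) - 3)) * h := by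
        rw [hh, ← Real.exp_add]; congr 1; ring
      rw [h5] at h4
      have h6 : Real.exp (c0 / 2 * ((Z : ℝ) - 3)) < 2 := lt_of_mul_lt_mul_right h4 hhp.le
      have h7 := Real.add_one_le_exp (c0 / 2 * ((Z : ℝ) - 3))
      nlinarith
    -- the scale
    have hex : ∃ j : ℕ, (1 / 2 : ℝ) ^ (j + 1) < η := by
      obtain ⟨j, hj⟩ := exists_pow_lt_of_lt_one hηp (by norm_num : (1 / 2 : ℝ) < 1)
      exact ⟨j, lt_of_le_of_lt (pow_le_pow_of_le_one (by norm_num) (by norm_num) (by omega)) hj⟩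
    set j := Nat.find hex with hj
    have hj1 : (1 / 2 : ℝ) ^ (j + 1) < η := Nat.find_spec hex
    have hj2 : η ≤ (1 / 2 : ℝ) ^ j := by
      rcases Nat.eq_zero_or_pos j with h0 | h0
      · rw [h0, pow_zero]; exact h2
      · have := Nat.find_min hex (m := j - 1) (by omega)
        rw [not_lt, Nat.sub_add_cancel h0] at this
        exact this
    have hjJ : j ≤ J := by
      by_contra hcon
      rw [not_le] at hcon
      have h4 : (1 / 2 : ℝ) ^ j ≤ (1 / 2 : ℝ) ^ (2 * Z) :=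
        pow_le_pow_of_le_one (by norm_num) (by norm_num) hcon.le
      have h5 : (1 / 2 : ℝ) ^ (2 * Z) < Real.exp (-(c0 / 2 * ((Z : ℝ) + 1))) := by
        have h6 : (1 / 2 : ℝ) ^ (2 * Z) = Real.exp (-(Real.log 2 * (2 * Z))) := by
          rw [show (1 / 2 : ℝ) = Real.exp (-Real.log 2) by
            rw [Real.exp_neg, Real.exp_log (by norm_num)]; norm_num, ← Real.exp_nat_mul]
          congr 1
          push_cast
          ring
        rw [h6]
        apply Real.exp_lt_exp.2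
        have h7 := Real.log_two_gt_d9
        nlinarith
      linarith
    rw [mem_iUnion₂]
    refine ⟨j, Finset.mem_range.2 (by omega), ⟨hhη.trans hj2, ?_⟩, hy⟩
    have h4 := Th_close hhp (y := y) (η := η) (N := N) hcase (by
      refine le_trans (Real.exp_le_exp.2 ?_) hN1
      linarith [hy.2])
    have h5 : ∫ z in (y - h)..(y + η + h), |TT h N z - 1| ≤
        ∫ t in (y - h)..(y + ((1 / 2 : ℝ) ^ j + h)), F t := by
      apply intervalIntegral.integral_mono_interval le_rfl (by linarith) (by linarith)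
      · exact Filter.Eventually.of_forall fun x => hF0 x
      · exact hFi _ _
    have h6 : 2 * h ≤ δ / 2 * η := by
      have h7 : 4 / δ * h * (δ / 2) ≤ η * (δ / 2) := mul_le_mul_of_nonneg_right hηh (by positivity)
      have h8 : 4 / δ * h * (δ / 2) = 2 * h := by field_simp; norm_num
      linarith
    have h7 : δ / 2 * (1 / 2 : ℝ) ^ (j + 1) ≤ δ / 2 * η :=
      mul_le_mul_of_nonneg_left hj1.le (by positivity)
    linarith
  refine (measure_mono hsub).trans ((measure_biUnion_finset_le _ _).trans ?_)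
  refine (Finset.sum_le_sum fun j _ => hBm j).trans ?_
  rw [Finset.sum_const, nsmul_eq_mul, Finset.card_range, ← ENNReal.ofReal_natCast,
    ← ENNReal.ofReal_mul (Nat.cast_nonneg _)]
  apply ENNReal.ofReal_le_ofReal
  have hZp : (0 : ℝ) < Z := by linarith
  have h1 : (Z : ℝ) ^ 2 / 4 ≤ ((Z : ℝ) - 1) ^ 2 := by nlinarith
  rw [hJ, hK]
  push_cast
  rw [le_div_iff₀ hZp]
  have h2 : (4 : ℝ) / ((Z : ℝ) - 1) ^ 2 ≤ 4 / ((Z : ℝ) ^ 2 / 4) :=
    div_le_div_of_nonneg_left (by norm_num) (by positivity) h1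
  have h3 : (2 * (Z : ℝ) + 1) ≤ 4 * Z := by linarith
  calc (2 * (Z : ℝ) + 1) * (12 / δ * (4 / ((Z : ℝ) - 1) ^ 2)) * Z
      ≤ (4 * Z) * (12 / δ * (4 / ((Z : ℝ) ^ 2 / 4))) * Z := by
        apply mul_le_mul_of_nonneg_right _ hZp.le
        apply mul_le_mul h3 _ (by positivity) (by positivity)
        exact mul_le_mul_of_nonneg_left h2 (by positivity)
    _ = 4 * (12 / δ * 4 * 4) := by field_simp

end Pool.Agent.U762.GP
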