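import Pool.Agent.U762.GP.LocK

/-! Local density of the integers in `GK` in most windows. -/

set_option autoImplicit false

namespace Pool.Agent.U762.GP

open MeasureTheory Filter Topology Set
open Pool.Agent.R516 (pcn)

/-- the local second moment of the primes in windows of logarithmic length -/
def SM (C : ℝ) (u0 : ℕ) : Prop := ∀ X Y T : ℕ, 3 ≤ X → (X : ℝ) ^ (1 / 2 : ℝ) ≤ Y → u0 ≤ Y →
  T ≤ Y → (T : ℝ) ≤ Real.log X →
    ∑ n ∈ Finset.Ico (X + 1) (X + 1 + Y), ((pcn n (n + T) : ℝ)) ^ 2 ≤ C * Y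

/-- the second moment of the local densities in a window -/
lemma sm_win {C : ℝ} {u0 : ℕ} (hSM : SM C u0) (hC : 0 ≤ C) {u N W : ℕ} {Z L κ : ℝ}
    (hu : 4 ≤ u) (hN : ((u - 1 : ℕ) : ℝ) ^ (1 / 2 : ℝ) ≤ N) (hu0 : u0 ≤ N) (hWN : W ≤ N)
    (hWl : (W : ℝ) ≤ Real.log ((u - 1 : ℕ) : ℝ)) (hZ : 10 ≤ Z) (hL0 : 0 < L) (hL : L ≤ Z + 4)
    (hκ : 0 < κ) (hW : κ * Z / 2 ≤ W) :
    ∑ k ∈ Finset.range N, (L * (pcn (u + k) (u + k + W) : ℝ) / W) ^ 2 ≤ 16 * C / κ ^ 2 * N := by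
  have hZ0 : 0 < Z := by linarith
  have hWp : (0 : ℝ) < W := lt_of_lt_of_le (by positivity) hW
  have h1 := hSM (u - 1) N W (by omega) hN hu0 hWN hWl
  have h2 : u - 1 + 1 = u := by omega
  rw [h2, Finset.sum_Ico_eq_sum_range, Nat.add_sub_cancel_left] at h1
  have h3 : ∑ k ∈ Finset.range N, (L * (pcn (u + k) (u + k + W) : ℝ) / W) ^ 2 =
      (L / W) ^ 2 * ∑ k ∈ Finset.range N, ((pcn (u + k) (u + k + W) : ℝ)) ^ 2 := by
    rw [Finset.mul_sum]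
    apply Finset.sum_congr rfl
    intro k _
    ring
  rw [h3]
  have h4 : L / W ≤ 4 / κ := by
    rw [div_le_div_iff₀ hWp hκ]
    have h5 : L * κ ≤ (2 * Z) * κ := mul_le_mul_of_nonneg_right (by linarith) hκ.le
    linarith
  have h5 : (L / W) ^ 2 ≤ (4 / κ) ^ 2 := pow_le_pow_left₀ (by positivity) h4 2
  calc (L / W) ^ 2 * ∑ k ∈ Finset.range N, ((pcn (u + k) (u + k + W) : ℝ)) ^ 2 ≤
        (4 / κ) ^ 2 * (C * N) := mul_le_mul h5 h1
          (Finset.sum_nonneg fun _ _ => sq_nonneg _) (by positivity)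
    _ = 16 * C / κ ^ 2 * N := by
        rw [div_pow]
        ring

/-- the deterministic core: outside the exceptional event the window is rich -/
theorem core_winK {c e e1 μ' μ K κ C cc A0 : ℝ} {u0 : ℕ} (hc1 : c ≤ 1 / 10) (he1 : 0 < e1)
    (he1e : e1 ≤ e) (he : e ≤ 1 / 100) (hμ0 : 0 < μ') (hμ : μ' < μ) (hμ1 : μ < 1)
    (hK : 0 < K) (hκ0 : 0 < κ) (hκ1 : κ ≤ 1 / 2) (hκ : μ * κ ≤ K * ((μ - μ') / 2))
    (hC : 0 ≤ C) (hcc : 16 * C / κ ^ 2 ≤ cc * e) (hcc1 : 1 < cc) (hA0 : 0 < A0)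
    (hA : A0 * (cc - μ) ≤ 1 - 5 * e - μ) (heA : e1 ≤ A0 / 4) (hSM : SM C u0)
    {Z : ℕ} (hZ10 : (10 : ℝ) ≤ Z) (hκZ : 2 ≤ κ * Z) (hu0 : (u0 : ℝ) ≤ Real.exp ((1 / 2) * Z))
    (hA1 : 2 * (Z : ℝ) ^ 22 * (Z + 4) + 10 ≤ e1 / 4 * Real.exp ((1 - c / 2) * Z))
    (hA2 : 2 * Real.exp ((1 - c) * ((Z : ℝ) + 2)) + 10 ≤ e1 / 4 * Real.exp ((1 - c / 2) * Z))
    (hA4 : μ' * ((Z : ℝ) + 4) ≤ (μ + μ') / 2 * Z) {y η : ℝ} (hy1 : (Z : ℝ) ≤ y) (hy2 : y ≤ Z + 1)
    (hη0 : Real.exp (-(c / 2 * Z)) ≤ η) (hη1 : η ≤ e1 / 16) (hη2 : η ≤ 1 / 16)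
    (hE1 : |dens (Real.exp y) (Real.exp y * (Real.exp η - 1)) - 1| ≤ e1) :
    A0 / 2 * (1 - e1) ≤
      1 / η * ∫ t in y..(y + η), ({t : ℝ | ⌊Real.exp t⌋₊ ∈ GK μ' (8 / A0) K c}).indicator
        (fun _ => (1 : ℝ)) t := by
  have hη : 0 < η := lt_of_lt_of_le (Real.exp_pos _) hη0
  have hZp : (0 : ℝ) < Z := by linarith
  set x : ℝ := Real.exp y with hx
  have hx0 : 0 < x := Real.exp_pos y
  set H0 : ℝ := x * (Real.exp η - 1) with hH0
  have hexp1 : η ≤ Real.exp η - 1 := by have := Real.add_one_le_exp η; linarith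
  have hexp2 : Real.exp η - 1 ≤ η * (1 + η) := exp_sub_le' hη hη2
  have hxη : Real.exp ((1 - c / 2) * Z) ≤ x * η := by
    calc Real.exp ((1 - c / 2) * Z) = Real.exp Z * Real.exp (-(c / 2 * Z)) := by
          rw [← Real.exp_add]; congr 1; ring
      _ ≤ x * η := mul_le_mul (Real.exp_le_exp.2 hy1) hη0 (Real.exp_pos _).le hx0.le
  have hH01 : x * η ≤ H0 := mul_le_mul_of_nonneg_left hexp1 hx0.le
  have hH02 : H0 ≤ x * (η * (1 + η)) := mul_le_mul_of_nonneg_left hexp2 hx0.le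
  obtain ⟨u, hu⟩ : ∃ u : ℕ, u = ⌊x⌋₊ := ⟨_, rfl⟩
  obtain ⟨v, hv⟩ : ∃ v : ℕ, v = ⌊Real.exp (y + η)⌋₊ := ⟨_, rfl⟩
  have hxe : Real.exp (y + η) = x + H0 := by
    rw [Real.exp_add, hH0]; ring
  have hu1 : (u : ℝ) ≤ x := by rw [hu]; exact Nat.floor_le hx0.le
  have hu2 : x < u + 1 := by rw [hu]; exact Nat.lt_floor_add_one x
  have hv1 : (v : ℝ) ≤ x + H0 := by rw [← hxe, hv]; exact Nat.floor_le (Real.exp_pos _).le
  have hv2 : x + H0 < v + 1 := by rw [← hxe, hv]; exact Nat.lt_floor_add_one _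
  have hq2 : e1 / 4 * Real.exp ((1 - c / 2) * Z) ≤ e1 / 4 * (x * η) :=
    mul_le_mul_of_nonneg_left hxη (by positivity)
  have hbig : 10 ≤ e1 / 4 * (x * η) := by
    have h1 : 0 ≤ Real.exp ((1 - c) * ((Z : ℝ) + 2)) := (Real.exp_pos _).le
    linarith
  have hq4000 : 4000 ≤ x * η := by
    have h1 : e1 / 4 * (x * η) ≤ 1 / 400 * (x * η) :=
      mul_le_mul_of_nonneg_right (by linarith) (by positivity)
    linarith
  have huv : u ≤ v := by
    have : (u : ℝ) < v := by linarith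
    exact_mod_cast this.le
  obtain ⟨N, hN⟩ : ∃ N, v = u + N := ⟨v - u, by omega⟩
  have hNr : (N : ℝ) = v - u := by rw [hN]; push_cast; ring
  have hN1 : H0 - 1 ≤ N := by rw [hNr]; linarith
  have hN2 : (N : ℝ) ≤ H0 + 1 := by rw [hNr]; linarith
  obtain ⟨-, hnum2, hnum3, hnum4⟩ := num_win he1 (he1e.trans he) hbig hH01 hN1 hN2
  have hN0 : (0 : ℝ) ≤ N := Nat.cast_nonneg _
  have heN : e1 * (N : ℝ) ≤ e * N := mul_le_mul_of_nonneg_right he1e hN0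
  have he0 : 0 < e := lt_of_lt_of_le he1 he1e
  obtain ⟨L, hL⟩ : ∃ L : ℝ, L = (Z : ℝ) + 4 := ⟨_, rfl⟩
  have hL1 : (Z : ℝ) + 3 ≤ L := by rw [hL]; linarith
  have hL2 : L ≤ (Z : ℝ) + 4 := by rw [hL]
  have hLp : 0 < L := by linarith
  -- the window length
  obtain ⟨W, hW⟩ : ∃ W : ℕ, W = ⌊κ * (Z : ℝ)⌋₊ := ⟨_, rfl⟩
  have hWa : (W : ℝ) ≤ κ * Z := by rw [hW]; exact Nat.floor_le (by positivity)
  have hWb : κ * (Z : ℝ) < W + 1 := by rw [hW]; exact Nat.lt_floor_add_one _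
  have hWc : κ * (Z : ℝ) / 2 ≤ W := by linarith
  have hWp : (0 : ℝ) < W := by linarith
  have hW1 : 1 ≤ W := by exact_mod_cast hWp
  have hκZ2 : κ * (Z : ℝ) ≤ 1 / 2 * Z := mul_le_mul_of_nonneg_right hκ1 hZp.le
  have hWN : 2 * (W : ℝ) * L ≤ e1 * N := by
    have h1 : 2 * (W : ℝ) * L ≤ 2 * (Z : ℝ) * (Z + 4) :=
      mul_le_mul (by linarith) hL2 hLp.le (by positivity)
    have h2 : (Z : ℝ) ≤ (Z : ℝ) ^ 22 := by
      calc (Z : ℝ) = (Z : ℝ) ^ 1 := (pow_one _).symm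
        _ ≤ (Z : ℝ) ^ 22 := pow_le_pow_right₀ (by linarith) (by norm_num)
    have h3 : 2 * (Z : ℝ) * (Z + 4) ≤ 2 * (Z : ℝ) ^ 22 * (Z + 4) :=
      mul_le_mul_of_nonneg_right (by linarith) (by linarith)
    linarith
  have hdens : dens x H0 = (pcn u (u + N) : ℝ) * y / H0 := by
    unfold dens
    rw [hx, Real.log_exp, ← hN, hu, hv, hxe]
  rw [hdens] at hE1
  have hH0p : 0 < H0 := by linarith
  have hP1 : 1 - e1 ≤ (pcn u (u + N) : ℝ) * y / H0 := by linarith [(abs_le.1 hE1).1]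
  have hP2 : (pcn u (u + N) : ℝ) * y / H0 ≤ 1 + e1 := by linarith [(abs_le.1 hE1).2]
  rw [le_div_iff₀ hH0p] at hP1
  rw [div_le_iff₀ hH0p] at hP2
  have hpc0 : (0 : ℝ) ≤ (pcn u (u + N) : ℝ) := Nat.cast_nonneg _
  have hP : (1 - 2 * e) * N ≤ L * (pcn u (u + N) : ℝ) := by
    have h2 : (pcn u (u + N) : ℝ) * y ≤ L * (pcn u (u + N) : ℝ) := by
      rw [mul_comm]
      exact mul_le_mul_of_nonneg_right (by linarith) hpc0
    linarith
  have hPu : L * (pcn u (u + N) : ℝ) ≤ 2 * N := by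
    have h1 : L ≤ 3 / 2 * y := by linarith
    have h2 : L * (pcn u (u + N) : ℝ) ≤ 3 / 2 * y * (pcn u (u + N) : ℝ) :=
      mul_le_mul_of_nonneg_right h1 hpc0
    have h3 : (1 + e1) * H0 ≤ (1 + 1 / 100) * H0 :=
      mul_le_mul_of_nonneg_right (by linarith) hH0p.le
    linarith
  obtain ⟨W1, hW1d⟩ : ∃ W1 : ℕ, W1 = ⌈2 * Real.exp ((1 - c) * ((Z : ℝ) + 2))⌉₊ := ⟨_, rfl⟩
  have hW1a : 2 * Real.exp ((1 - c) * ((Z : ℝ) + 2)) ≤ W1 := by rw [hW1d]; exact Nat.le_ceil _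
  have hW1b : (W1 : ℝ) ≤ 2 * Real.exp ((1 - c) * ((Z : ℝ) + 2)) + 1 := by
    rw [hW1d]; exact (Nat.ceil_lt_add_one (by positivity)).le
  have hW1c : (W1 : ℝ) + 1 ≤ A0 / 4 * N := by
    have h1 : e1 * (N : ℝ) ≤ A0 / 4 * N := mul_le_mul_of_nonneg_right heA hN0
    linarith
  -- the second moment
  have hNhalf : Real.exp ((1 / 2) * y) ≤ N := by
    have h1 : Real.exp ((1 - c / 2) * Z) ≤ Real.exp y * η := hxη
    have h2 : (1 / 2) * (x * η) ≤ (1 - e1 / 4) * (x * η) :=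
      mul_le_mul_of_nonneg_right (by linarith) (by positivity)
    have h3 : x * Real.exp (-(c / 2 * Z)) ≤ x * η := mul_le_mul_of_nonneg_left hη0 hx0.le
    have h4 : Real.exp ((1 / 2) * y + 2) ≤ x * Real.exp (-(c / 2 * Z)) := by
      rw [hx, ← Real.exp_add]
      apply Real.exp_le_exp.2
      have h5 : c / 2 * (Z : ℝ) ≤ 1 / 20 * Z := mul_le_mul_of_nonneg_right (by linarith) hZp.le
      linarith
    have h6 : Real.exp ((1 / 2) * y + 2) = Real.exp ((1 / 2) * y) * Real.exp 2 := Real.exp_add _ _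
    have h7 : (3 : ℝ) ≤ Real.exp 2 := by
      have := Real.add_one_le_exp (2 : ℝ)
      linarith
    have h8 : Real.exp ((1 / 2) * y) * 3 ≤ Real.exp ((1 / 2) * y) * Real.exp 2 :=
      mul_le_mul_of_nonneg_left h7 (Real.exp_pos _).le
    have h9 := Real.exp_pos ((1 / 2) * y)
    linarith
  have hx10 : Real.exp ((1 / 2) * y) * 10 ≤ x := by
    have h1 : (10 : ℝ) ≤ Real.exp ((1 / 2) * y) := by
      have h2 := Real.add_one_le_exp ((1 / 2) * y)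
      have h3 : (1 : ℝ) / 2 * y + 1 ≤ Real.exp ((1 / 2) * y) := h2
      have h4 : Real.exp ((1 / 4) * y) * Real.exp ((1 / 4) * y) = Real.exp ((1 / 2) * y) := by
        rw [← Real.exp_add]; congr 1; ring
      have h5 : (7 / 2 : ℝ) ≤ Real.exp ((1 / 4) * y) := by
        have := Real.add_one_le_exp ((1 / 4) * y)
        linarith
      have h6 : (7 / 2 : ℝ) * (7 / 2) ≤ Real.exp ((1 / 4) * y) * Real.exp ((1 / 4) * y) :=
        mul_le_mul h5 h5 (by norm_num) (by linarith)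
      linarith
    have h2 : x = Real.exp ((1 / 2) * y) * Real.exp ((1 / 2) * y) := by
      rw [hx, ← Real.exp_add]; congr 1; ring
    rw [h2]
    exact mul_le_mul_of_nonneg_left h1 (Real.exp_pos _).le
  have hE6 : (6 : ℝ) ≤ Real.exp ((1 / 2) * y) := by
    have := Real.add_one_le_exp ((1 / 2) * y)
    linarith
  have hu4 : 4 ≤ u := by
    have : (4 : ℝ) ≤ u := by linarith
    exact_mod_cast this
  have hu1r : ((u - 1 : ℕ) : ℝ) = u - 1 := by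
    rw [Nat.cast_sub (by omega)]; norm_num
  have hM : ∑ k ∈ Finset.range N, (L * (pcn (u + k) (u + k + W) : ℝ) / W) ^ 2 ≤ cc * (e * N) := by
    have h1 : ((u - 1 : ℕ) : ℝ) ^ (1 / 2 : ℝ) ≤ N := by
      refine le_trans ?_ hNhalf
      have h2 : ((u - 1 : ℕ) : ℝ) ^ (1 / 2 : ℝ) ≤ x ^ (1 / 2 : ℝ) := by
        apply Real.rpow_le_rpow (Nat.cast_nonneg _) _ (by norm_num)
        rw [hu1r]; linarith
      refine h2.trans (le_of_eq ?_)
      rw [hx, ← Real.exp_mul]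
      congr 1
      ring
    have h2 : u0 ≤ N := by
      have : (u0 : ℝ) ≤ N := by
        refine hu0.trans (le_trans ?_ hNhalf)
        apply Real.exp_le_exp.2
        linarith
      exact_mod_cast this
    have h3 : W ≤ N := by
      have h4 : (W : ℝ) * 1 ≤ 2 * (W : ℝ) * L := by
        have : (W : ℝ) * 1 ≤ W * (2 * L) := mul_le_mul_of_nonneg_left (by linarith) hWp.le
        linarith
      have h5 : e1 * (N : ℝ) ≤ 1 * N := mul_le_mul_of_nonneg_right (by linarith) hN0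
      have h6 : (W : ℝ) ≤ N := by linarith
      exact_mod_cast h6
    have h4 : (W : ℝ) ≤ Real.log ((u - 1 : ℕ) : ℝ) := by
      have h5 : (0 : ℝ) < ((u - 1 : ℕ) : ℝ) := by rw [hu1r]; linarith
      have h6 : (1 / 2) * y ≤ Real.log ((u - 1 : ℕ) : ℝ) := by
        rw [Real.le_log_iff_exp_le h5, hu1r]
        linarith
      linarith
    have h5 := sm_win hSM hC hu4 h1 h2 h3 h4 hZ10 hLp hL2 hκ0 hWc
    refine h5.trans ?_
    have h6 : 16 * C / κ ^ 2 * N ≤ cc * e * N := mul_le_mul_of_nonneg_right hcc hN0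
    linarith
  obtain ⟨T, hT1, hT2⟩ := cntK he0 he (hμ0.le.trans hμ.le) hμ1 hcc1 hZ10 hL1 hW1
    (hWN.trans heN) hA0 hA hP hPu hW1c hM
  have hTmem : ∀ m ∈ T, ⌊Real.exp y⌋₊ < m ∧ m < ⌊Real.exp (y + η)⌋₊ ∧
      m ∈ GK μ' (8 / A0) K c := by
    intro m hm
    obtain ⟨h1, h2, h3⟩ := hT2 m hm
    have hW1pos : 0 < W1 := by
      have : (0 : ℝ) < W1 := lt_of_lt_of_le (by positivity) hW1a
      exact_mod_cast this
    have hmx : x < m := by
      have : (u : ℝ) + 1 ≤ m := by exact_mod_cast h1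
      linarith
    have hm0 : (0 : ℝ) < m := by linarith
    have hlogm1 : (Z : ℝ) ≤ Real.log m := by
      rw [Real.le_log_iff_exp_le hm0]
      exact (Real.exp_le_exp.2 hy1).trans hmx.le
    have hlogm2 : Real.log m ≤ (Z : ℝ) + 2 := by
      rw [Real.log_le_iff_le_exp hm0]
      have h4 : (m : ℝ) ≤ v := by
        have : m ≤ v := by omega
        exact_mod_cast this
      refine h4.trans (hv1.trans ?_)
      rw [← hxe]
      apply Real.exp_le_exp.2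
      linarith
    refine ⟨?_, ?_, mem_GK_of hc1 hμ0 hμ hK hκ hZ10 hL1 hL2 hWa hA4 hlogm1 hlogm2 hW1a h3⟩
    · rw [← hx, ← hu]; exact h1
    · rw [← hv]; omega
  have hmeas := meas_ge (GK μ' (8 / A0) K c) hη T hTmem
  refine le_trans ?_ (mul_le_mul_of_nonneg_left hmeas (by positivity : 0 ≤ 1 / η))
  apply fin_cmp he1 (he1e.trans he) (by positivity) hx0 hη (by positivity) _ hnum4 hT1
  have h1 : x * (η * (1 + η)) ≤ x * (e1 / 8) := by
    apply mul_le_mul_of_nonneg_left _ hx0.le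
    calc η * (1 + η) ≤ e1 / 16 * 2 := mul_le_mul hη1 (by linarith) (by linarith) (by positivity)
      _ = e1 / 8 := by ring
  have h2 : 1 ≤ e1 / 8 * x := by
    have h3 : x * η ≤ x * (1 / 16) := mul_le_mul_of_nonneg_left hη2 hx0.le
    have h4 : e1 / 4 * (x * η) ≤ e1 / 4 * (x * (1 / 16)) :=
      mul_le_mul_of_nonneg_left h3 (by positivity)
    linarith
  rw [hxe]
  linarith

end Pool.Agent.U762.GP
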