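import Pool.Agent.U762.GP.Wt

/-! Averages over short intervals and covariances. -/

set_option autoImplicit false

namespace Pool.Agent.U762.GP

open MeasureTheory Filter Topology Set

/-- the mean over `(β, β + r)` -/
noncomputable def av (r : ℝ) (f : ℝ → ℝ) (β : ℝ) : ℝ := 1 / r * ∫ t in β..(β + r), f t

lemma ii_of_bdd {f : ℝ → ℝ} (hf : Measurable f) {M : ℝ} (hM : ∀ x, |f x| ≤ M) (a b : ℝ) :
    IntervalIntegrable f volume a b := by
  rw [intervalIntegrable_iff]
  apply Measure.integrableOn_of_bounded (M := M)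
  · exact measure_Ioc_lt_top.ne
  · exact hf.aestronglyMeasurable
  · exact Filter.Eventually.of_forall fun x => by rw [Real.norm_eq_abs]; exact hM x

lemma ii_abs_le {f : ℝ → ℝ} {M : ℝ} (hM : ∀ x, |f x| ≤ M) (a b : ℝ) :
    |∫ t in a..b, f t| ≤ M * |b - a| := by
  have := intervalIntegral.norm_integral_le_of_norm_le_const (a := a) (b := b) (f := f) (C := M)
    (fun x _ => by rw [Real.norm_eq_abs]; exact hM x)
  rwa [Real.norm_eq_abs] at this

lemma av_cont {f : ℝ → ℝ} (hf : Measurable f) {M : ℝ} (hM : ∀ x, |f x| ≤ M) (r : ℝ) :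
    Continuous (av r f) := by
  have hc : Continuous (fun x : ℝ => ∫ t in (0 : ℝ)..x, f t) :=
    intervalIntegral.continuous_primitive (fun a b => ii_of_bdd hf hM a b) 0
  have e : av r f = fun β => 1 / r * ((∫ t in (0 : ℝ)..(β + r), f t) - ∫ t in (0 : ℝ)..β, f t) := by
    funext β
    unfold av
    rw [intervalIntegral.integral_interval_sub_left (ii_of_bdd hf hM _ _) (ii_of_bdd hf hM _ _)]
  rw [e]
  exact continuous_const.mul ((hc.comp (continuous_id.add continuous_const)).sub hc)

lemma av_abs {f : ℝ → ℝ} {M : ℝ} (hM : ∀ x, |f x| ≤ M) {r : ℝ} (hr : 0 < r) (β : ℝ) :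
    |av r f β| ≤ M := by
  unfold av
  rw [abs_mul, abs_of_pos (by positivity : (0 : ℝ) < 1 / r)]
  have h1 := ii_abs_le hM β (β + r)
  rw [add_sub_cancel_left, abs_of_pos hr] at h1
  calc 1 / r * |∫ t in β..(β + r), f t| ≤ 1 / r * (M * r) :=
        mul_le_mul_of_nonneg_left h1 (by positivity)
    _ = M := by field_simp

lemma av_lip {f : ℝ → ℝ} (hf : Measurable f) {M : ℝ} (hM : ∀ x, |f x| ≤ M) {r : ℝ} (hr : 0 < r)
    (β : ℝ) {τ : ℝ} (hτ : 0 ≤ τ) : |av r f β - av r f (β - τ)| ≤ 2 * M * τ / r := by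
  unfold av
  have hI := fun a b => ii_of_bdd hf hM a b
  have e1 : (∫ t in β..(β + r), f t) - ∫ t in (β - τ)..(β - τ + r), f t =
      (∫ t in (β - τ + r)..(β + r), f t) - ∫ t in (β - τ)..β, f t := by
    have h1 := intervalIntegral.integral_add_adjacent_intervals (hI (β - τ) β) (hI β (β + r))
    have h2 := intervalIntegral.integral_add_adjacent_intervals (hI (β - τ) (β - τ + r))
      (hI (β - τ + r) (β + r))
    linarith
  rw [← mul_sub, e1, abs_mul, abs_of_pos (by positivity : (0 : ℝ) < 1 / r)]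
  have h3 := ii_abs_le hM (β - τ + r) (β + r)
  have h4 := ii_abs_le hM (β - τ) β
  rw [show β + r - (β - τ + r) = τ by ring, abs_of_nonneg hτ] at h3
  rw [show β - (β - τ) = τ by ring, abs_of_nonneg hτ] at h4
  have h5 : |(∫ t in (β - τ + r)..(β + r), f t) - ∫ t in (β - τ)..β, f t| ≤ 2 * (M * τ) := by
    refine (abs_sub _ _).trans ?_
    linarith
  calc 1 / r * |(∫ t in (β - τ + r)..(β + r), f t) - ∫ t in (β - τ)..β, f t|
      ≤ 1 / r * (2 * (M * τ)) := mul_le_mul_of_nonneg_left h5 (by positivity)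
    _ = 2 * M * τ / r := by ring

/-- the covariance with a shifted difference -/
lemma inner_bound {a b M : ℝ} (hab : a ≤ b) {z g : ℝ → ℝ} (hz : Measurable z) (hg : Measurable g)
    (hM : 0 ≤ M)
    (hzM : ∀ x, |z x| ≤ 2 * M) (hgM : ∀ x, |g x| ≤ M) {τ : ℝ} (hτ : 0 ≤ τ) :
    |∫ β in a..b, z β * (g β - g (β + τ))| ≤
      M * (∫ β in a..b, |z β - z (β - τ)|) + 4 * M ^ 2 * τ := by
  have hz' : Measurable (fun β => z (β - τ)) := hz.comp (measurable_id.sub_const τ)
  have hg' : Measurable (fun β => g (β + τ)) := hg.comp (measurable_id.add_const τ)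
  have hb1 : ∀ x, |z x * g x| ≤ 2 * M * M := by
    intro x
    rw [abs_mul]
    exact mul_le_mul (hzM x) (hgM x) (abs_nonneg _) (by linarith)
  have hb2 : ∀ x, |z x * g (x + τ)| ≤ 2 * M * M := by
    intro x
    rw [abs_mul]
    exact mul_le_mul (hzM x) (hgM _) (abs_nonneg _) (by linarith)
  have hb3 : ∀ x, |z (x - τ) * g x| ≤ 2 * M * M := by
    intro x
    rw [abs_mul]
    exact mul_le_mul (hzM _) (hgM _) (abs_nonneg _) (by linarith)
  have i1 : ∀ c d, IntervalIntegrable (fun x => z x * g x) volume c d :=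
    fun c d => ii_of_bdd (hz.mul hg) hb1 c d
  have i2 : ∀ c d, IntervalIntegrable (fun x => z x * g (x + τ)) volume c d :=
    fun c d => ii_of_bdd (hz.mul hg') hb2 c d
  have i3 : ∀ c d, IntervalIntegrable (fun x => z (x - τ) * g x) volume c d :=
    fun c d => ii_of_bdd (hz'.mul hg) hb3 c d
  have e1 : ∫ β in a..b, z β * (g β - g (β + τ)) =
      (∫ β in a..b, z β * g β) - ∫ β in a..b, z β * g (β + τ) := by
    rw [← intervalIntegral.integral_sub (i1 a b) (i2 a b)]
    exact intervalIntegral.integral_congr fun β _ => by ring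
  have e2 : ∫ β in a..b, z β * g (β + τ) = ∫ β in (a + τ)..(b + τ), z (β - τ) * g β := by
    rw [← intervalIntegral.integral_comp_add_right (fun β => z (β - τ) * g β) τ]
    simp
  have e3 : ∫ β in (a + τ)..(b + τ), z (β - τ) * g β =
      (∫ β in a..b, z (β - τ) * g β) - (∫ β in a..(a + τ), z (β - τ) * g β) +
        ∫ β in b..(b + τ), z (β - τ) * g β := by
    have h1 := intervalIntegral.integral_add_adjacent_intervals (i3 a (a + τ)) (i3 (a + τ) (b + τ))
    have h2 := intervalIntegral.integral_add_adjacent_intervals (i3 a b) (i3 b (b + τ))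
    linarith
  have e4 : (∫ β in a..b, z β * g β) - ∫ β in a..b, z (β - τ) * g β =
      ∫ β in a..b, (z β - z (β - τ)) * g β := by
    rw [← intervalIntegral.integral_sub (i1 a b) (i3 a b)]
    exact intervalIntegral.integral_congr fun β _ => by ring
  have hd : ∀ x, |z x - z (x - τ)| ≤ 4 * M := by
    intro x
    refine (abs_sub _ _).trans ?_
    linarith [hzM x, hzM (x - τ)]
  have i4 := ii_of_bdd (hz.sub hz').abs (fun x => by rw [abs_abs]; exact hd x) a b
  have e5 : |∫ β in a..b, (z β - z (β - τ)) * g β| ≤ M * ∫ β in a..b, |z β - z (β - τ)| := by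
    rw [← intervalIntegral.integral_const_mul]
    refine (intervalIntegral.abs_integral_le_integral_abs hab).trans ?_
    apply intervalIntegral.integral_mono_on hab
    · have := ii_of_bdd ((hz.sub hz').mul hg).abs (M := 4 * M * M) (fun x => by
        rw [abs_abs]
        simp only [Pi.mul_apply, Pi.sub_apply]
        rw [abs_mul]
        exact mul_le_mul (hd x) (hgM x) (abs_nonneg _) (by linarith)) a b
      exact this
    · exact i4.const_mul M
    · intro x _
      rw [abs_mul, mul_comm]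
      exact mul_le_mul_of_nonneg_right (hgM x) (abs_nonneg _)
  have h6 := ii_abs_le hb3 a (a + τ)
  have h7 := ii_abs_le hb3 b (b + τ)
  rw [add_sub_cancel_left, abs_of_nonneg hτ] at h6 h7
  have e6 : ∫ β in a..b, z β * (g β - g (β + τ)) = (∫ β in a..b, (z β - z (β - τ)) * g β) +
      (∫ β in a..(a + τ), z (β - τ) * g β) - ∫ β in b..(b + τ), z (β - τ) * g β := by
    rw [e1, e2, e3, ← e4]; ring
  rw [e6]
  refine (abs_sub _ _).trans ?_
  refine (add_le_add_left (abs_add_le _ _) _).trans ?_
  nlinarith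

/-- the covariance of a bounded function with `g` minus its short mean -/
lemma cov_bound {a b M : ℝ} (hab : a ≤ b) {z g : ℝ → ℝ} (hz : Measurable z) (hg : Measurable g)
    (hM : 0 ≤ M) (hzM : ∀ x, |z x| ≤ 2 * M) (hgM : ∀ x, |g x| ≤ M) {r L : ℝ} (hr : 0 < r)
    (hL : ∀ τ, 0 ≤ τ → τ ≤ r → ∫ β in a..b, |z β - z (β - τ)| ≤ L * τ) (hL0 : 0 ≤ L) :
    |∫ β in a..b, z β * (g β - av r g β)| ≤ (M * L + 4 * M ^ 2) * r := by
  have hav : ∀ β, g β - av r g β = 1 / r * ∫ τ in (0 : ℝ)..r, (g β - g (β + τ)) := by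
    intro β
    have i0 : IntervalIntegrable (fun τ => g (β + τ)) volume 0 r :=
      ii_of_bdd (hg.comp (measurable_id.const_add β)) (fun x => hgM _) 0 r
    rw [intervalIntegral.integral_sub intervalIntegrable_const i0,
      intervalIntegral.integral_const]
    unfold av
    have e : ∫ τ in (0 : ℝ)..r, g (β + τ) = ∫ t in β..(β + r), g t := by
      rw [intervalIntegral.integral_comp_add_left g β, add_zero]
    rw [e, smul_eq_mul, sub_zero]
    field_simp
  have e1 : ∫ β in a..b, z β * (g β - av r g β) =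
      1 / r * ∫ β in a..b, ∫ τ in (0 : ℝ)..r, z β * (g β - g (β + τ)) := by
    rw [← intervalIntegral.integral_const_mul]
    apply intervalIntegral.integral_congr
    intro β _
    simp only
    rw [hav β, intervalIntegral.integral_const_mul]
    ring
  have hmeas : Measurable (Function.uncurry fun β τ : ℝ => z β * (g β - g (β + τ))) := by
    have h1 : Measurable (fun p : ℝ × ℝ => z p.1) := hz.comp measurable_fst
    have h2 : Measurable (fun p : ℝ × ℝ => g p.1) := hg.comp measurable_fst
    have h3 : Measurable (fun p : ℝ × ℝ => g (p.1 + p.2)) :=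
      hg.comp (measurable_fst.add measurable_snd)
    exact h1.mul (h2.sub h3)
  have hbd : ∀ p : ℝ × ℝ, |Function.uncurry (fun β τ : ℝ => z β * (g β - g (β + τ))) p| ≤
      2 * M * (2 * M) := by
    intro p
    simp only [Function.uncurry]
    rw [abs_mul]
    apply mul_le_mul (hzM _) _ (abs_nonneg _) (by linarith)
    refine (abs_sub _ _).trans ?_
    linarith [hgM p.1, hgM (p.1 + p.2)]
  have e2 : ∫ β in a..b, ∫ τ in (0 : ℝ)..r, z β * (g β - g (β + τ)) =
      ∫ τ in (0 : ℝ)..r, ∫ β in a..b, z β * (g β - g (β + τ)) := by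
    apply intervalIntegral_intervalIntegral_swap
    apply Measure.integrableOn_of_bounded (M := 2 * M * (2 * M))
    · rw [Measure.volume_eq_prod, Measure.prod_prod]
      exact (ENNReal.mul_lt_top measure_Ioc_lt_top measure_Ioc_lt_top).ne
    · exact hmeas.aestronglyMeasurable
    · exact Filter.Eventually.of_forall fun p => by rw [Real.norm_eq_abs]; exact hbd p
  rw [e1, e2, abs_mul, abs_of_pos (by positivity : (0 : ℝ) < 1 / r)]
  have h3 : |∫ τ in (0 : ℝ)..r, ∫ β in a..b, z β * (g β - g (β + τ))| ≤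
      (M * L + 4 * M ^ 2) * r * |r - 0| := by
    have := intervalIntegral.norm_integral_le_of_norm_le_const (a := 0) (b := r)
      (f := fun τ => ∫ β in a..b, z β * (g β - g (β + τ))) (C := (M * L + 4 * M ^ 2) * r) (by
        intro τ hτ
        rw [uIoc_of_le hr.le] at hτ
        rw [Real.norm_eq_abs]
        refine (inner_bound hab hz hg hM hzM hgM hτ.1.le).trans ?_
        have h1 := hL τ hτ.1.le hτ.2
        have h2 : M * (∫ β in a..b, |z β - z (β - τ)|) ≤ M * (L * τ) :=
          mul_le_mul_of_nonneg_left h1 hM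
        have h4 : (M * L + 4 * M ^ 2) * τ ≤ (M * L + 4 * M ^ 2) * r :=
          mul_le_mul_of_nonneg_left hτ.2 (by positivity)
        linarith)
    rwa [Real.norm_eq_abs] at this
  rw [sub_zero, abs_of_pos hr] at h3
  calc 1 / r * |∫ τ in (0 : ℝ)..r, ∫ β in a..b, z β * (g β - g (β + τ))|
      ≤ 1 / r * ((M * L + 4 * M ^ 2) * r * r) := mul_le_mul_of_nonneg_left h3 (by positivity)
    _ = (M * L + 4 * M ^ 2) * r := by field_simp

end Pool.Agent.U762.GP
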