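import Pool.Agent.U762.GP.LocE

/-! From the three conditions to all scales at once. -/

set_option autoImplicit false

namespace Pool.Agent.U762.GP

open MeasureTheory Filter Topology Set
open Pool.Agent.R516 (pcn Hi St_U)

/-- the long window exceptional set -/
def LongEx (c δ : ℝ) : Set ℝ := {y : ℝ | ∃ H : ℝ, Real.exp ((1 - c) * y) ≤ H ∧ H ≤ Real.exp y ∧
  δ < |dens (Real.exp y) H - 1|}

/-- the good points: the primes in `(x, x + H]` for all `H ≥ (log x)^23` at once -/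
def Good (μ δ x : ℝ) : Prop := ∀ H : ℝ, Real.log x ^ 23 ≤ H → H ≤ x →
  μ * (H / Real.log x) ≤ (Nat.primeCounting ⌊x + H⌋₊ : ℝ) - Nat.primeCounting ⌊x⌋₊ ∧
  (Nat.primeCounting ⌊x + H⌋₊ : ℝ) - Nat.primeCounting ⌊x⌋₊ ≤ (18 / 5 + δ) * (H / Real.log x)

lemma Good.mono {μ δ μ1 δ1 x : ℝ} (hμ : μ ≤ μ1) (hδ : δ1 ≤ δ) (hx : 1 ≤ x) (h : Good μ1 δ1 x) :
    Good μ δ x := by
  intro H h1 h2
  have hl : 0 ≤ Real.log x := Real.log_nonneg hx
  have hH : 0 ≤ H := le_trans (by positivity) h1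
  have hq : 0 ≤ H / Real.log x := div_nonneg hH hl
  obtain ⟨a, b⟩ := h H h1 h2
  constructor
  · exact (mul_le_mul_of_nonneg_right hμ hq).trans a
  · exact b.trans (mul_le_mul_of_nonneg_right (by linarith) hq)

theorem good_of {c μ μ' δ : ℝ} (hc : 0 < c) (hc1 : c ≤ 1 / 10) (hμ0 : 0 < μ) (hμ : μ < μ')
    (hμ1 : μ' < 1) : ∃ Y0 : ℝ, ∀ y : ℝ, Y0 ≤ y → y ∈ SG μ' c → y ∉ TooMany δ →
      y ∉ LongEx c (1 - μ) → Good μ δ (Real.exp y) := by
  have ev1 : ∀ᶠ y : ℝ in atTop, 1 / (μ' - μ) + 100 ≤ y := eventually_ge_atTop _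
  have ev2 : ∀ᶠ y : ℝ in atTop, y ^ 0 ≤ (1 / 2) * Real.exp ((1 - c) * y) :=
    pow_exp_ev 0 (by linarith) (by norm_num)
  have ev3 : ∀ᶠ y : ℝ in atTop, y ^ 0 ≤ (1 / 8) * Real.exp (1 * y) :=
    pow_exp_ev 0 (by norm_num) (by norm_num)
  obtain ⟨Y0, hY0⟩ := eventually_atTop.1 (ev1.and (ev2.and ev3))
  refine ⟨Y0, fun y hy hS hT hL => ?_⟩
  obtain ⟨h1, h2, h3⟩ := hY0 y hy
  rw [pow_zero] at h2 h3
  rw [one_mul] at h3
  have hμd : 0 < μ' - μ := by linarith
  have h1' : 0 < 1 / (μ' - μ) := by positivity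
  have hy100 : 100 ≤ y := by linarith
  have hyp : 0 < y := by linarith
  intro H hH1 hH2
  set x : ℝ := Real.exp y with hx
  have hx0 : 0 < x := Real.exp_pos y
  have hlog : Real.log x = y := Real.log_exp y
  rw [hlog] at hH1 ⊢
  have hH0 : 0 < H := lt_of_lt_of_le (by positivity) hH1
  have hab : ⌊x⌋₊ ≤ ⌊x + H⌋₊ := Nat.floor_mono (by linarith)
  rw [← pcn_sub hab]
  have hdens : dens x H = (pcn ⌊x⌋₊ ⌊x + H⌋₊ : ℝ) * y / H := by
    unfold dens; rw [hlog]
  have hconv1 : ∀ t : ℝ, dens x H ≤ t → (pcn ⌊x⌋₊ ⌊x + H⌋₊ : ℝ) ≤ t * (H / y) := by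
    intro t ht
    rw [hdens, div_le_iff₀ hH0] at ht
    rw [← mul_div_assoc, le_div_iff₀ hyp]
    exact ht
  have hconv2 : ∀ t : ℝ, t ≤ dens x H → t * (H / y) ≤ (pcn ⌊x⌋₊ ⌊x + H⌋₊ : ℝ) := by
    intro t ht
    rw [hdens, le_div_iff₀ hH0] at ht
    rw [← mul_div_assoc, div_le_iff₀ hyp]
    exact ht
  constructor
  · by_cases hlong : Real.exp ((1 - c) * y) ≤ H
    · apply hconv2
      by_contra hcon
      push Not at hcon
      apply hL
      refine ⟨H, hlong, hH2, ?_⟩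
      rw [lt_abs]
      right
      linarith
    · push Not at hlong
      set n : ℕ := ⌊x⌋₊ with hn
      set b : ℕ := ⌊x + H⌋₊ with hb
      have hn1 : (n : ℝ) ≤ x := Nat.floor_le hx0.le
      have hn2 : x < n + 1 := Nat.lt_floor_add_one x
      have hb1 : (b : ℝ) ≤ x + H := Nat.floor_le (by positivity)
      have hb2 : x + H < b + 1 := Nat.lt_floor_add_one _
      have hx8 : 8 ≤ x := by linarith
      have hnp : (0 : ℝ) < n := by linarith
      have hln1 : Real.log n ≤ y := by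
        rw [← hlog]; exact Real.log_le_log hnp hn1
      have hln2 : y - 1 / 4 ≤ Real.log n := by
        rw [Real.le_log_iff_exp_le hnp, Real.exp_sub, ← hx, div_le_iff₀ (Real.exp_pos _)]
        have h4 : (1 : ℝ) / 4 + 1 ≤ Real.exp (1 / 4) := Real.add_one_le_exp _
        have h5 : (n : ℝ) * (1 / 4 + 1) ≤ n * Real.exp (1 / 4) :=
          mul_le_mul_of_nonneg_left h4 hnp.le
        linarith
      have hln0 : 0 ≤ Real.log n := by linarith
      have hy23 : y ≤ y ^ 23 := by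
        calc y = y ^ 1 := (pow_one y).symm
          _ ≤ y ^ 23 := pow_le_pow_right₀ (by linarith) (by norm_num)
      have hc1' : Real.log n ^ 23 / 2 ≤ (b : ℝ) - n := by
        have h4 : Real.log n ^ 23 ≤ y ^ 23 := pow_le_pow_left₀ hln0 hln1 23
        linarith
      have hc2' : (b : ℝ) - n ≤ 2 * Real.exp ((1 - c) * Real.log n) := by
        have h4 : Real.exp ((1 - c) * y - 1 / 4) ≤ Real.exp ((1 - c) * Real.log n) := by
          apply Real.exp_le_exp.2
          have h5 : (1 - c) * (y - 1 / 4) ≤ (1 - c) * Real.log n :=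
            mul_le_mul_of_nonneg_left hln2 (by linarith)
          linarith
        have h6 : (3 / 4 : ℝ) ≤ Real.exp (-(1 / 4)) := by
          have := Real.add_one_le_exp (-(1 / 4) : ℝ)
          linarith
        have h7 : Real.exp ((1 - c) * y - 1 / 4) = Real.exp ((1 - c) * y) * Real.exp (-(1 / 4)) := by
          rw [← Real.exp_add]; congr 1
        have h8 : Real.exp ((1 - c) * y) * (3 / 4) ≤ Real.exp ((1 - c) * y) * Real.exp (-(1 / 4)) :=
          mul_le_mul_of_nonneg_left h6 (Real.exp_pos _).le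
        linarith
      have hg := hS b hab hc1' hc2'
      have hbn : H - 1 ≤ (b : ℝ) - n := by linarith
      have hpc : (pcn n b : ℝ) * Real.log n ≤ (pcn n b : ℝ) * y :=
        mul_le_mul_of_nonneg_left hln1 (Nat.cast_nonneg _)
      have h4 : μ' * (H - 1) ≤ μ' * ((b : ℝ) - n) := mul_le_mul_of_nonneg_left hbn (by linarith)
      have h5 : 1 ≤ (μ' - μ) * H := by
        have h6 : 1 / (μ' - μ) ≤ H := by linarith
        rwa [div_le_iff₀' hμd] at h6
      rw [← mul_div_assoc, div_le_iff₀ hyp]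
      linarith
  · apply hconv1
    by_contra hcon
    push Not at hcon
    apply hT
    exact ⟨H, hH1, hH2, hcon⟩

end Pool.Agent.U762.GP
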