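import Pool.Agent.U762.GP.Prm
import Pool.Agent.R516.Win

/-! Integers which see too many primes. -/

set_option autoImplicit false

namespace Pool.Agent.U762.GP

open MeasureTheory Filter Topology Set
open Pool.Agent.R516 (pcn Hi St_U)

/-- the height -/
noncomputable def NZ (Z : ℕ) : ℕ := ⌈Real.exp ((Z : ℝ) + 3)⌉₊

lemma NZ_ge (Z : ℕ) : Real.exp ((Z : ℝ) + 3) ≤ NZ Z := Nat.le_ceil _

lemma NZ_le (Z : ℕ) : (NZ Z : ℝ) ≤ 2 * Real.exp ((Z : ℝ) + 3) := by
  have h := Nat.ceil_lt_add_one (Real.exp_pos ((Z : ℝ) + 3)).le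
  have h2 : (1 : ℝ) ≤ Real.exp ((Z : ℝ) + 3) := Real.one_le_exp (by positivity)
  unfold NZ
  linarith

lemma NZ_pos (Z : ℕ) : (0 : ℝ) < NZ Z := lt_of_lt_of_le (Real.exp_pos _) (NZ_ge Z)

lemma logNZ_ge (Z : ℕ) : (Z : ℝ) + 3 ≤ Real.log (NZ Z) := by
  rw [Real.le_log_iff_exp_le (NZ_pos Z)]
  exact NZ_ge Z

lemma logNZ_le (Z : ℕ) : Real.log (NZ Z) ≤ (Z : ℝ) + 4 := by
  rw [Real.log_le_iff_le_exp (NZ_pos Z)]
  refine (NZ_le Z).trans ?_
  have h : (2 : ℝ) ≤ Real.exp 1 := by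
    have := Real.add_one_le_exp (1 : ℝ); linarith
  calc 2 * Real.exp ((Z : ℝ) + 3) ≤ Real.exp 1 * Real.exp ((Z : ℝ) + 3) :=
        mul_le_mul_of_nonneg_right h (Real.exp_pos _).le
    _ = Real.exp ((Z : ℝ) + 4) := by rw [← Real.exp_add]; congr 1; ring

open Classical in
/-- the exceptional integers at height `Z` -/
noncomputable def BZ (δ : ℝ) (Z : ℕ) : Finset ℕ :=
  (Finset.Icc 1 (NZ Z)).filter
    (fun n => n ∈ Hi (NZ Z) ((Z : ℝ) ^ 22) ((18 / 5 + δ) / Real.log (NZ Z)))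

theorem BZ_card (hU : St_U) (δ : ℝ) (hδ : 0 < δ) : ∃ K Z1 : ℝ, 0 ≤ K ∧ ∀ Z : ℕ, Z1 ≤ Z →
    ((BZ δ Z).card : ℝ) ≤ K * Real.exp Z / (Z : ℝ) ^ 2 := by
  obtain ⟨κ, hκ, N₀, hN⟩ := hU δ hδ
  have t1 : ∀ᶠ Z : ℕ in atTop, (N₀ : ℝ) ≤ Real.exp Z :=
    (Real.tendsto_exp_atTop.comp (tendsto_natCast_atTop_atTop (R := ℝ))).eventually_ge_atTop _
  have t2 : ∀ᶠ Z : ℕ in atTop, (Z : ℝ) ^ 22 ≤ Real.exp (κ * Z) := by
    have h1 := Real.tendsto_pow_mul_exp_neg_atTop_nhds_zero 22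
    have h2 : Tendsto (fun Z : ℕ => κ * (Z : ℝ)) atTop atTop :=
      (tendsto_natCast_atTop_atTop (R := ℝ)).const_mul_atTop hκ
    have h3 := (h1.comp h2)
    have h4 := (tendsto_order.1 h3).2 (κ ^ 22) (by positivity)
    filter_upwards [h4] with Z hZ
    simp only [Function.comp] at hZ
    rw [mul_pow, mul_assoc] at hZ
    have h5 : (Z : ℝ) ^ 22 * Real.exp (-(κ * Z)) < 1 := by
      have h6 : κ ^ 22 * ((Z : ℝ) ^ 22 * Real.exp (-(κ * Z))) < κ ^ 22 * 1 := by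
        rw [mul_one]; exact hZ
      exact lt_of_mul_lt_mul_left h6 (by positivity)
    have h7 : (Z : ℝ) ^ 22 * Real.exp (-(κ * Z)) * Real.exp (κ * Z) ≤ 1 * Real.exp (κ * Z) :=
      mul_le_mul_of_nonneg_right h5.le (Real.exp_pos _).le
    rwa [mul_assoc, ← Real.exp_add, neg_add_cancel, Real.exp_zero, mul_one, one_mul] at h7
  obtain ⟨Z1, hZ1⟩ := eventually_atTop.1 (t1.and (t2.and (eventually_ge_atTop 4)))
  refine ⟨2 * Real.exp 3 * 2 ^ 20, Z1, by positivity, fun Z hZ => ?_⟩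
  have hZ' : Z1 ≤ Z := by exact_mod_cast hZ
  obtain ⟨g1, g2, g3⟩ := hZ1 Z hZ'
  have g3' : (4 : ℝ) ≤ Z := by exact_mod_cast g3
  have hN0 : N₀ ≤ NZ Z := by
    have h1 : (N₀ : ℝ) ≤ NZ Z := by
      refine g1.trans (le_trans (Real.exp_le_exp.2 ?_) (NZ_ge Z))
      linarith
    exact_mod_cast h1
  have hH1 : (1 : ℝ) ≤ (Z : ℝ) ^ 22 := one_le_pow₀ (by linarith)
  have hH2 : (Z : ℝ) ^ 22 ≤ (NZ Z : ℝ) ^ κ := by
    refine g2.trans ?_
    rw [Real.rpow_def_of_pos (NZ_pos Z)]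
    apply Real.exp_le_exp.2
    rw [mul_comm]
    apply mul_le_mul_of_nonneg_right _ hκ.le
    linarith [logNZ_ge Z]
  have h1 := hN (NZ Z) hN0 ((Z : ℝ) ^ 22) hH1 hH2
  have h2 : ((BZ δ Z).card : ℝ) ≤ (NZ Z : ℝ) * Real.log (NZ Z) ^ 20 / (Z : ℝ) ^ 22 := by
    refine le_trans (le_of_eq ?_) h1
    unfold BZ
    congr 2
  refine h2.trans ?_
  have h3 : Real.log (NZ Z) ^ 20 ≤ (2 * (Z : ℝ)) ^ 20 := by
    apply pow_le_pow_left₀ (by linarith [logNZ_ge Z])
    linarith [logNZ_le Z]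
  have hZp : (0 : ℝ) < Z := by linarith
  rw [div_le_div_iff₀ (by positivity) (by positivity)]
  have h4 : (NZ Z : ℝ) * Real.log (NZ Z) ^ 20 ≤
      (2 * Real.exp ((Z : ℝ) + 3)) * (2 * (Z : ℝ)) ^ 20 := by
    apply mul_le_mul (NZ_le Z) h3 _ (by positivity)
    apply pow_nonneg
    linarith [logNZ_ge Z]
  calc (NZ Z : ℝ) * Real.log (NZ Z) ^ 20 * (Z : ℝ) ^ 2 ≤
        (2 * Real.exp ((Z : ℝ) + 3)) * (2 * (Z : ℝ)) ^ 20 * (Z : ℝ) ^ 2 :=
        mul_le_mul_of_nonneg_right h4 (by positivity)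
    _ = 2 * Real.exp 3 * 2 ^ 20 * Real.exp Z * (Z : ℝ) ^ 22 := by
        rw [Real.exp_add]; ring

open Classical in
/-- outside the exceptional set -/
lemma BZ_window {δ : ℝ} {Z a b : ℕ} {n : ℕ} (hn : n ∉ BZ δ Z) (h1 : a < n) (h2 : n ≤ b)
    (h3 : b ≤ NZ Z) (h4 : (Z : ℝ) ^ 22 ≤ (b : ℝ) - a) :
    (pcn a b : ℝ) ≤ (18 / 5 + δ) / Real.log (NZ Z) * ((b : ℝ) - a) := by
  by_contra hcon
  rw [not_le] at hcon
  apply hn
  unfold BZ
  rw [Finset.mem_filter, Finset.mem_Icc]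
  exact ⟨⟨by omega, by omega⟩, a, b, h1, h2, h3, h4, hcon⟩

/-- the points with too many primes in some window -/
def TooMany (δ : ℝ) : Set ℝ := {y | ∃ H : ℝ, y ^ 23 ≤ H ∧ H ≤ Real.exp y ∧
  18 / 5 + δ < dens (Real.exp y) H}

open Classical in
theorem tooMany_thin (hU : St_U) (δ : ℝ) (hδ : 0 < δ) : ∃ K Z1 : ℝ, 0 ≤ K ∧ ∀ Z : ℕ, Z1 ≤ Z →
    volume (TooMany δ ∩ Icc (Z : ℝ) (Z + 1)) ≤ ENNReal.ofReal (K / (Z : ℝ) ^ 2) := by
  obtain ⟨K, Z1, hK, hc⟩ := BZ_card hU (δ / 2) (by positivity)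
  refine ⟨K * 2, max Z1 (max 4 (8 / δ + 2)), by positivity, fun Z hZ => ?_⟩
  have g1 : Z1 ≤ Z := (le_max_left _ _).trans hZ
  have g2 : (4 : ℝ) ≤ Z := ((le_max_left _ _).trans (le_max_right _ _)).trans hZ
  have g3 : 8 / δ + 2 ≤ Z := ((le_max_right _ _).trans (le_max_right _ _)).trans hZ
  have hZp : (0 : ℝ) < Z := by linarith
  -- inclusion
  have hsub : TooMany δ ∩ Icc (Z : ℝ) (Z + 1) ⊆
      ⋃ n ∈ (BZ (δ / 2) Z).filter (fun n : ℕ => Real.exp Z < (n : ℝ)),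
        Ico (Real.log (n - 1 : ℝ)) (Real.log n) := by
    rintro y ⟨⟨H, h1, h2, h3⟩, hy⟩
    set x : ℝ := Real.exp y with hx
    have hx0 : 0 < x := Real.exp_pos y
    set a : ℕ := ⌊x⌋₊ with ha
    set b : ℕ := ⌊x + H⌋₊ with hb
    have hy0 : 0 < y := by linarith [hy.1]
    have hH1 : (Z : ℝ) ^ 23 ≤ H := (pow_le_pow_left₀ hZp.le hy.1 23).trans h1
    have hZ22 : (1 : ℝ) ≤ (Z : ℝ) ^ 22 := one_le_pow₀ (by linarith)
    have hH2 : 4 * (Z : ℝ) ^ 22 ≤ H := by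
      refine le_trans ?_ hH1
      rw [pow_succ (Z : ℝ) 22, mul_comm]
      exact mul_le_mul_of_nonneg_left g2 (by positivity)
    have hH0 : 0 < H := by linarith
    have ha1 : (a : ℝ) ≤ x := Nat.floor_le hx0.le
    have ha2 : x < a + 1 := Nat.lt_floor_add_one x
    have hb1 : (b : ℝ) ≤ x + H := Nat.floor_le (by linarith)
    have hb2 : x + H < b + 1 := Nat.lt_floor_add_one _
    have hab : (Z : ℝ) ^ 22 ≤ (b : ℝ) - a := by linarith
    have hbN : b ≤ NZ Z := by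
      have h4 : (b : ℝ) ≤ NZ Z := by
        refine hb1.trans (le_trans ?_ (NZ_ge Z))
        have h5 : x ≤ Real.exp ((Z : ℝ) + 1) := Real.exp_le_exp.2 hy.2
        have h6 : 2 * Real.exp ((Z : ℝ) + 1) ≤ Real.exp ((Z : ℝ) + 3) := by
          have h7 : (2 : ℝ) ≤ Real.exp 2 := by
            have := Real.add_one_le_exp (2 : ℝ); linarith
          calc 2 * Real.exp ((Z : ℝ) + 1) ≤ Real.exp 2 * Real.exp ((Z : ℝ) + 1) :=
                mul_le_mul_of_nonneg_right h7 (Real.exp_pos _).le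
            _ = _ := by rw [← Real.exp_add]; congr 1; ring
        linarith
      exact_mod_cast h4
    have hanb : a + 1 ≤ b := by
      have : (a : ℝ) < b := by linarith
      exact_mod_cast this
    have hmem : a + 1 ∈ BZ (δ / 2) Z := by
      by_contra hcon
      have h5 := BZ_window hcon (Nat.lt_succ_self a) hanb hbN hab
      have hL := logNZ_ge Z
      have hLp : 0 < Real.log (NZ Z) := by linarith
      have hyL : y ≤ Real.log (NZ Z) := by linarith [hy.2]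
      have h6 : dens x H ≤ 18 / 5 + δ := by
        unfold dens
        rw [Real.log_exp, div_le_iff₀ hH0]
        calc (pcn a b : ℝ) * y ≤ (18 / 5 + δ / 2) / Real.log (NZ Z) * ((b : ℝ) - a) * y :=
              mul_le_mul_of_nonneg_right h5 hy0.le
          _ ≤ (18 / 5 + δ / 2) / Real.log (NZ Z) * (H + 1) * Real.log (NZ Z) := by
              apply mul_le_mul _ hyL hy0.le (by positivity)
              apply mul_le_mul_of_nonneg_left _ (by positivity)
              linarith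
          _ = (18 / 5 + δ / 2) * (H + 1) := by field_simp
          _ ≤ (18 / 5 + δ) * H := by
              have h7 : 18 / 5 + δ / 2 ≤ δ / 2 * H := by
                have h8 : (8 / δ + 2) ≤ H := by
                  refine g3.trans (le_trans ?_ hH2)
                  have : (Z : ℝ) ≤ (Z : ℝ) ^ 22 := le_self_pow₀ (by linarith) (by norm_num)
                  linarith
                have h9 : δ / 2 * (8 / δ + 2) = 4 + δ := by field_simp; ring
                have := mul_le_mul_of_nonneg_left h8 (by positivity : 0 ≤ δ / 2)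
                linarith
              linarith
      linarith
    rw [mem_iUnion₂]
    refine ⟨a + 1, ?_, ?_⟩
    · rw [Finset.mem_filter]
      refine ⟨hmem, ?_⟩
      push_cast
      exact lt_of_le_of_lt (Real.exp_le_exp.2 hy.1) ha2
    · push_cast
      rw [add_sub_cancel_right]
      have ha0 : (0 : ℝ) < a := by
        have : (1 : ℝ) < x := Real.one_lt_exp_iff.2 hy0
        have h4 : 1 ≤ a := Nat.le_floor (by simpa using this.le)
        exact_mod_cast h4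
      constructor
      · rw [Real.log_le_iff_le_exp ha0]; exact ha1
      · rw [Real.lt_log_iff_exp_lt (by positivity)]; exact ha2
  refine (measure_mono hsub).trans ((measure_biUnion_finset_le _ _).trans ?_)
  have h4 : ∀ n ∈ (BZ (δ / 2) Z).filter (fun n : ℕ => Real.exp Z < (n : ℝ)),
      volume (Ico (Real.log (n - 1 : ℝ)) (Real.log n)) ≤ ENNReal.ofReal (2 / Real.exp Z) := by
    intro n hn
    rw [Finset.mem_filter] at hn
    rw [Real.volume_Ico]
    apply ENNReal.ofReal_le_ofReal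
    have hE : (2 : ℝ) ≤ Real.exp Z := by
      have := Real.add_one_le_exp (Z : ℝ); linarith
    have hn1 : (0 : ℝ) < (n : ℝ) - 1 := by linarith [hn.2]
    have hn0 : (0 : ℝ) < n := by linarith
    rw [← Real.log_div hn0.ne' hn1.ne']
    have h5 := Real.log_le_sub_one_of_pos (by positivity : 0 < (n : ℝ) / (n - 1))
    refine h5.trans ?_
    have h6 : (n : ℝ) / (n - 1) - 1 = 1 / (n - 1) := by field_simp; ring
    rw [h6, div_le_div_iff₀ hn1 (Real.exp_pos _)]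
    linarith [hn.2]
  refine (Finset.sum_le_sum h4).trans ?_
  rw [Finset.sum_const, nsmul_eq_mul, ← ENNReal.ofReal_natCast,
    ← ENNReal.ofReal_mul (Nat.cast_nonneg _)]
  apply ENNReal.ofReal_le_ofReal
  have h7 : (((BZ (δ / 2) Z).filter (fun n : ℕ => Real.exp Z < (n : ℝ))).card : ℝ) ≤
      K * Real.exp Z / (Z : ℝ) ^ 2 := by
    refine le_trans ?_ (hc Z g1)
    exact_mod_cast Finset.card_filter_le _ _
  calc (((BZ (δ / 2) Z).filter (fun n : ℕ => Real.exp Z < (n : ℝ))).card : ℝ) * (2 / Real.exp Z) ≤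
        K * Real.exp Z / (Z : ℝ) ^ 2 * (2 / Real.exp Z) :=
        mul_le_mul_of_nonneg_right h7 (by positivity)
    _ = K * 2 / (Z : ℝ) ^ 2 := by field_simp

end Pool.Agent.U762.GP
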