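import Pool.Agent.U762.GP.Hi

/-! Most windows contain few exceptional integers. -/

set_option autoImplicit false

namespace Pool.Agent.U762.GP

open MeasureTheory Filter Topology Set
open Pool.Agent.R516 (pcn Hi St_U)

open Classical in
/-- the number of exceptional integers in a window -/
noncomputable def cntB (δ : ℝ) (Z : ℕ) (η y : ℝ) : ℕ :=
  ((BZ δ Z).filter (fun m : ℕ => ⌊Real.exp y⌋₊ < m ∧ m ≤ ⌊Real.exp (y + η)⌋₊ + 1)).card

open Classical in
theorem cntB_thin (hU : St_U) (δ : ℝ) (hδ : 0 < δ) (ε : ℝ) (hε : 0 < ε) :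
    ∃ K Z1 : ℝ, 0 ≤ K ∧ ∀ Z : ℕ, Z1 ≤ Z → ∀ η : ℝ, Real.exp (-((Z : ℝ) / 2)) ≤ η →
      volume ({y | ε * (η * Real.exp Z) / Z < (cntB δ Z η y : ℝ)} ∩ Icc (Z : ℝ) (Z + 1)) ≤
        ENNReal.ofReal (K / Z) := by
  obtain ⟨K, Z1, hK, hc⟩ := BZ_card hU δ hδ
  refine ⟨2 * K / ε, max Z1 4, by positivity, fun Z hZ η hη => ?_⟩
  have g1 : Z1 ≤ Z := (le_max_left _ _).trans hZ
  have g2 : (4 : ℝ) ≤ Z := (le_max_right _ _).trans hZ
  have hZp : (0 : ℝ) < Z := by linarith
  have hηp : 0 < η := lt_of_lt_of_le (Real.exp_pos _) hη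
  set S := (BZ δ Z).filter (fun n : ℕ => Real.exp Z < (n : ℝ)) with hS
  set I : ℕ → Set ℝ := fun m => Ico (Real.log ((m : ℝ) - 1) - η) (Real.log m) with hI
  set g : ℝ → ℝ := fun y => ∑ m ∈ S, (I m).indicator (fun _ => (1 : ℝ)) y with hg
  have hE : (2 : ℝ) ≤ Real.exp Z := by
    have := Real.add_one_le_exp (Z : ℝ); linarith
  have hvol : ∀ m ∈ S, volume.real (I m) ≤ 2 * η := by
    intro m hm
    rw [hS, Finset.mem_filter] at hm
    have hm1 : (0 : ℝ) < (m : ℝ) - 1 := by linarith [hm.2]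
    have hm0 : (0 : ℝ) < m := by linarith
    have h5 : Real.log m - Real.log ((m : ℝ) - 1) ≤ η := by
      rw [← Real.log_div hm0.ne' hm1.ne']
      have h6 := Real.log_le_sub_one_of_pos (by positivity : 0 < (m : ℝ) / (m - 1))
      refine h6.trans ?_
      have h7 : (m : ℝ) / (m - 1) - 1 = 1 / (m - 1) := by field_simp; ring
      rw [h7, div_le_iff₀ hm1]
      have h8 : 1 ≤ Real.exp (-((Z : ℝ) / 2)) * (Real.exp Z / 2) := by
        have e : Real.exp (-((Z : ℝ) / 2)) * (Real.exp Z / 2) = Real.exp ((Z : ℝ) / 2) / 2 := by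
          rw [← mul_div_assoc, ← Real.exp_add]; congr 2; ring
        rw [e]
        have := Real.add_one_le_exp ((Z : ℝ) / 2)
        linarith
      calc (1 : ℝ) ≤ Real.exp (-((Z : ℝ) / 2)) * (Real.exp Z / 2) := h8
        _ ≤ η * ((m : ℝ) - 1) := by
            apply mul_le_mul hη _ (by positivity) hηp.le
            linarith [hm.2]
    rw [Measure.real, hI, Real.volume_Ico, ENNReal.toReal_ofReal']
    apply max_le _ (by positivity)
    linarith
  have hint : ∀ m, Integrable ((I m).indicator (fun _ => (1 : ℝ))) volume := fun m => by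
    rw [integrable_indicator_iff measurableSet_Ico]
    exact integrableOn_const (by rw [Real.volume_Ico]; exact ENNReal.ofReal_ne_top)
  have hgint : Integrable g volume := integrable_finsetSum _ fun m _ => hint m
  have hg0 : ∀ y, 0 ≤ g y := fun y => Finset.sum_nonneg fun m _ =>
    Set.indicator_nonneg (fun _ _ => zero_le_one) _
  have hgI : ∫ y, g y ≤ 2 * η * S.card := by
    simp only [hg]
    rw [integral_finsetSum _ (fun m _ => hint m)]
    calc ∑ m ∈ S, ∫ y, (I m).indicator (fun _ => (1 : ℝ)) y ≤ ∑ m ∈ S, 2 * η := by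
          apply Finset.sum_le_sum
          intro m hm
          rw [integral_indicator_const _ measurableSet_Ico, smul_eq_mul, mul_one]
          exact hvol m hm
      _ = 2 * η * S.card := by rw [Finset.sum_const, nsmul_eq_mul]; ring
  have hScard : (S.card : ℝ) ≤ K * Real.exp Z / (Z : ℝ) ^ 2 := by
    refine le_trans ?_ (hc Z g1)
    exact_mod_cast Finset.card_filter_le _ _
  have hmark := mul_meas_ge_le_integral_of_nonneg (μ := volume)
    (Filter.Eventually.of_forall fun y => hg0 y) hgint (ε * (η * Real.exp Z) / Z)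
  have htp : 0 < ε * (η * Real.exp Z) / Z := by positivity
  have h1 : volume.real {y | ε * (η * Real.exp Z) / Z ≤ g y} ≤ 2 * K / ε / Z := by
    have h2 : ε * (η * Real.exp Z) / Z * volume.real {y | ε * (η * Real.exp Z) / Z ≤ g y} ≤
        2 * η * (K * Real.exp Z / (Z : ℝ) ^ 2) :=
      hmark.trans (hgI.trans (mul_le_mul_of_nonneg_left hScard (by positivity)))
    have h3 : 2 * η * (K * Real.exp Z / (Z : ℝ) ^ 2) =
        ε * (η * Real.exp Z) / Z * (2 * K / ε / Z) := by field_simp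
    rw [h3] at h2
    exact le_of_mul_le_mul_left h2 htp
  have hfin : volume {y | ε * (η * Real.exp Z) / Z ≤ g y} ≠ ⊤ := by
    have : {y | ε * (η * Real.exp Z) / Z ≤ g y} ⊆ ⋃ m ∈ S, I m := by
      intro y hy
      by_contra hcon
      have h0 : g y = 0 := by
        simp only [hg]
        apply Finset.sum_eq_zero
        intro m hm
        apply Set.indicator_of_notMem
        intro hh
        exact hcon (mem_biUnion hm hh)
      rw [mem_ofPred_eq, h0] at hy
      linarith
    refine ne_top_of_le_ne_top ?_ (measure_mono this)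
    refine (lt_of_le_of_lt (measure_biUnion_finset_le _ _) ?_).ne
    apply ENNReal.sum_lt_top.2
    intro m _
    rw [hI, Real.volume_Ico]
    exact ENNReal.ofReal_lt_top
  have hsub : {y | ε * (η * Real.exp Z) / Z < (cntB δ Z η y : ℝ)} ∩ Icc (Z : ℝ) (Z + 1) ⊆
      {y | ε * (η * Real.exp Z) / Z ≤ g y} := by
    rintro y ⟨h2, h3⟩
    rw [mem_ofPred_eq] at h2 ⊢
    refine h2.le.trans ?_
    unfold cntB
    have h4 : ((((BZ δ Z).filter (fun m : ℕ => ⌊Real.exp y⌋₊ < m ∧
        m ≤ ⌊Real.exp (y + η)⌋₊ + 1)).card : ℕ) : ℝ) =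
        ∑ m ∈ (BZ δ Z).filter (fun m : ℕ => ⌊Real.exp y⌋₊ < m ∧
          m ≤ ⌊Real.exp (y + η)⌋₊ + 1), (1 : ℝ) := by simp
    rw [h4]
    simp only [hg]
    have h5 : ∀ m ∈ (BZ δ Z).filter (fun m : ℕ => ⌊Real.exp y⌋₊ < m ∧
        m ≤ ⌊Real.exp (y + η)⌋₊ + 1), m ∈ S ∧ y ∈ I m := by
      intro m hm
      rw [Finset.mem_filter] at hm
      obtain ⟨k1, k2, k3⟩ := hm
      have k4 : Real.exp y < m := (Nat.floor_lt (Real.exp_pos _).le).1 k2
      have k5 : Real.exp (Z : ℝ) < m := lt_of_le_of_lt (Real.exp_le_exp.2 h3.1) k4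
      have k6 : (m : ℝ) - 1 ≤ Real.exp (y + η) := by
        have k7 : (m : ℝ) ≤ ⌊Real.exp (y + η)⌋₊ + 1 := by exact_mod_cast k3
        have k8 := Nat.floor_le (Real.exp_pos (y + η)).le
        linarith
      have k9 : (0 : ℝ) < (m : ℝ) - 1 := by linarith
      refine ⟨by rw [hS, Finset.mem_filter]; exact ⟨k1, k5⟩, ?_⟩
      simp only [hI]
      constructor
      · have := Real.log_le_log k9 k6
        rw [Real.log_exp] at this
        linarith
      · rw [Real.lt_log_iff_exp_lt (by linarith)]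
        exact k4
    calc ∑ m ∈ (BZ δ Z).filter (fun m : ℕ => ⌊Real.exp y⌋₊ < m ∧
          m ≤ ⌊Real.exp (y + η)⌋₊ + 1), (1 : ℝ) =
        ∑ m ∈ (BZ δ Z).filter (fun m : ℕ => ⌊Real.exp y⌋₊ < m ∧
          m ≤ ⌊Real.exp (y + η)⌋₊ + 1), (I m).indicator (fun _ => (1 : ℝ)) y := by
          apply Finset.sum_congr rfl
          intro m hm
          rw [Set.indicator_of_mem (h5 m hm).2]
      _ ≤ ∑ m ∈ S, (I m).indicator (fun _ => (1 : ℝ)) y := by
          apply Finset.sum_le_sum_of_subset_of_nonneg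
          · intro m hm
            exact (h5 m hm).1
          · intro m _ _
            exact Set.indicator_nonneg (fun _ _ => zero_le_one) _
  refine (measure_mono hsub).trans ?_
  rw [← ENNReal.ofReal_toReal hfin]
  exact ENNReal.ofReal_le_ofReal h1

end Pool.Agent.U762.GP
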