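import Pool.Agent.U762.GP.Cov

/-! The law of large numbers. -/

set_option autoImplicit false

namespace Pool.Agent.U762.GP

open MeasureTheory Filter Topology Set

/-- the deviation from the short mean -/
noncomputable def dv (κ : ℝ) (s : ℕ → ℝ) (f : ℕ → ℝ → ℝ) (n : ℕ) (β : ℝ) : ℝ :=
  f n β - av (Real.exp (-(κ * s n))) (f n) β

variable {s w : ℕ → ℝ} {C : ℝ}

lemma dv_meas {κ : ℝ} {f : ℕ → ℝ → ℝ} (hf : ∀ n, Measurable (f n)) {M : ℝ}
    (hM : ∀ n x, |f n x| ≤ M) (n : ℕ) : Measurable (dv κ s f n) :=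
  (hf n).sub (av_cont (hf n) (hM n) _).measurable

lemma dv_abs {κ : ℝ} {f : ℕ → ℝ → ℝ} {M : ℝ} (hM : ∀ n x, |f n x| ≤ M) (n : ℕ) (β : ℝ) :
    |dv κ s f n β| ≤ 2 * M := by
  unfold dv
  refine (abs_sub _ _).trans ?_
  have := av_abs (hM n) (Real.exp_pos (-(κ * s n))) β
  linarith [hM n β]

theorem second_moment (hW : WS s w C) {a b : ℝ} (hab : a ≤ b) {M κ lam : ℝ} (hM0 : 0 ≤ M)
    (hκ : 0 < κ) {f : ℕ → ℝ → ℝ} (hf : ∀ n, Measurable (f n)) (hM : ∀ n x, |f n x| ≤ M)
    (hBV : ∀ n, ∀ τ : ℝ, 0 ≤ τ → τ ≤ 1 →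
      ∫ β in a..b, |f n β - f n (β - τ)| ≤ τ * Real.exp (lam * s n)) :
    ∃ B : ℝ, 0 ≤ B ∧ ∀ N : ℕ,
      ∫ β in a..b, (∑ n ∈ Finset.range N, w n * dv κ s f n β) ^ 2 ≤
        B * ∑ n ∈ Finset.range N, w n := by
  have hs0 : ∀ n, 0 < s n := fun n => by linarith [hW.s1 n]
  set z : ℕ → ℝ → ℝ := fun n => dv κ s f n with hz
  have hzm : ∀ n, Measurable (z n) := fun n => dv_meas hf hM n
  have hzb : ∀ n x, |z n x| ≤ 2 * M := fun n x => dv_abs hM n x
  set lam' : ℝ := max (max lam κ) 0 with hlam'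
  have hl1 : lam ≤ lam' := (le_max_left _ _).trans (le_max_left _ _)
  have hl2 : κ ≤ lam' := (le_max_right _ _).trans (le_max_left _ _)
  have hl0 : 0 ≤ lam' := le_max_right _ _
  have hba : 0 ≤ b - a := by linarith
  obtain ⟨k, hk⟩ : ∃ k : ℕ, 2 * lam' / κ ≤ (2 : ℝ) ^ (k + 1) := by
    obtain ⟨k, hk⟩ := pow_unbounded_of_one_lt (2 * lam' / κ) (by norm_num : (1 : ℝ) < 2)
    exact ⟨k, hk.le.trans (pow_le_pow_right₀ (by norm_num) (by omega))⟩
  set B1 : ℝ := 4 * M ^ 2 * (b - a) with hB1
  set B2 : ℝ := M * (1 + 2 * M * (b - a)) + 4 * M ^ 2 with hB2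
  set B3 : ℝ := B2 * (2 / κ) with hB3
  have hB10 : 0 ≤ B1 := by positivity
  have hB20 : 0 ≤ B2 := by positivity
  have hB30 : 0 ≤ B3 := by positivity
  set I : ℕ → ℕ → ℝ := fun n m => |∫ β in a..b, z n β * z m β| with hI
  have hsym : ∀ n m, I n m = I m n := by
    intro n m
    simp only [hI]
    congr 1
    exact intervalIntegral.integral_congr fun β _ => mul_comm _ _
  have hI1 : ∀ n m, I n m ≤ B1 := by
    intro n m
    have h1 := ii_abs_le (f := fun β => z n β * z m β) (M := 2 * M * (2 * M)) (fun x => by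
      rw [abs_mul]
      exact mul_le_mul (hzb n x) (hzb m x) (abs_nonneg _) (by linarith)) a b
    rw [abs_of_nonneg hba] at h1
    simp only [hI]
    refine h1.trans (le_of_eq ?_)
    rw [hB1]; ring
  have hIb : ∀ n m, s n ≤ s m →
      I n m ≤ (if s m ≤ 2 ^ (k + 1) * s n then B1 else 0) + B3 / s m := by
    intro n m hnm
    have hsm := hs0 m
    by_cases hc : s m ≤ 2 ^ (k + 1) * s n
    · rw [if_pos hc]
      have : 0 ≤ B3 / s m := by positivity
      linarith [hI1 n m]
    rw [if_neg hc, zero_add]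
    rw [not_le] at hc
    have hr1 : Real.exp (-(κ * s m)) ≤ 1 := by
      rw [Real.exp_le_one_iff]
      have := mul_pos hκ hsm
      linarith
    have hL : ∀ τ, 0 ≤ τ → τ ≤ Real.exp (-(κ * s m)) →
        ∫ β in a..b, |z n β - z n (β - τ)| ≤
          ((1 + 2 * M * (b - a)) * Real.exp (lam' * s n)) * τ := by
      intro τ h0 h1
      have hbd : ∀ x, |f n x - f n (x - τ)| ≤ 2 * M := fun x => by
        refine (abs_sub _ _).trans ?_
        linarith [hM n x, hM n (x - τ)]
      have hmf : Measurable (fun x => |f n x - f n (x - τ)|) :=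
        ((hf n).sub ((hf n).comp (measurable_id.sub_const τ))).abs
      have hif : IntervalIntegrable (fun x => |f n x - f n (x - τ)|) volume a b :=
        ii_of_bdd hmf (M := 2 * M) (fun x => by rw [abs_abs]; exact hbd x) a b
      have hmz : Measurable (fun x => |z n x - z n (x - τ)|) :=
        ((hzm n).sub ((hzm n).comp (measurable_id.sub_const τ))).abs
      have hiz : IntervalIntegrable (fun x => |z n x - z n (x - τ)|) volume a b :=
        ii_of_bdd hmz (M := 4 * M) (fun x => by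
          rw [abs_abs]
          refine (abs_sub _ _).trans ?_
          linarith [hzb n x, hzb n (x - τ)]) a b
      have hstep : ∫ β in a..b, |z n β - z n (β - τ)| ≤
          ∫ β in a..b, (|f n β - f n (β - τ)| + 2 * M * τ / Real.exp (-(κ * s n))) := by
        apply intervalIntegral.integral_mono_on hab hiz (hif.add intervalIntegrable_const)
        intro x _
        have h2 := av_lip (hf n) (hM n) (Real.exp_pos (-(κ * s n))) x h0
        simp only [hz, dv]
        have e : f n x - av (Real.exp (-(κ * s n))) (f n) x -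
            (f n (x - τ) - av (Real.exp (-(κ * s n))) (f n) (x - τ)) =
            (f n x - f n (x - τ)) - (av (Real.exp (-(κ * s n))) (f n) x -
              av (Real.exp (-(κ * s n))) (f n) (x - τ)) := by ring
        rw [e]
        refine (abs_sub _ _).trans ?_
        linarith
      rw [intervalIntegral.integral_add hif intervalIntegrable_const,
        intervalIntegral.integral_const, smul_eq_mul] at hstep
      have h3 := hBV n τ h0 (h1.trans hr1)
      have h4 : Real.exp (lam * s n) ≤ Real.exp (lam' * s n) :=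
        Real.exp_le_exp.2 (mul_le_mul_of_nonneg_right hl1 (hs0 n).le)
      have h5 : Real.exp (κ * s n) ≤ Real.exp (lam' * s n) :=
        Real.exp_le_exp.2 (mul_le_mul_of_nonneg_right hl2 (hs0 n).le)
      have h6 : (b - a) * (2 * M * τ / Real.exp (-(κ * s n))) =
          2 * M * (b - a) * τ * Real.exp (κ * s n) := by
        rw [Real.exp_neg, div_inv_eq_mul]; ring
      rw [h6] at hstep
      have h7 : 2 * M * (b - a) * τ * Real.exp (κ * s n) ≤
          2 * M * (b - a) * τ * Real.exp (lam' * s n) :=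
        mul_le_mul_of_nonneg_left h5 (by positivity)
      have h8 : τ * Real.exp (lam * s n) ≤ τ * Real.exp (lam' * s n) :=
        mul_le_mul_of_nonneg_left h4 h0
      nlinarith
    have h9 := cov_bound hab (hzm n) (hf m) hM0 (hzb n) (hM m)
      (Real.exp_pos (-(κ * s m))) hL (by positivity)
    have h10 : I n m ≤ B2 * (Real.exp (lam' * s n) * Real.exp (-(κ * s m))) := by
      have e : I n m = |∫ β in a..b, z n β * (f m β - av (Real.exp (-(κ * s m))) (f m) β)| := rfl
      rw [e]
      refine h9.trans ?_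
      have hE : 1 ≤ Real.exp (lam' * s n) := Real.one_le_exp (mul_nonneg hl0 (hs0 n).le)
      have h11 : M * ((1 + 2 * M * (b - a)) * Real.exp (lam' * s n)) + 4 * M ^ 2 ≤
          B2 * Real.exp (lam' * s n) := by
        rw [hB2]
        nlinarith [mul_nonneg (by positivity : (0:ℝ) ≤ 4 * M ^ 2) (by linarith : (0:ℝ) ≤ Real.exp (lam' * s n) - 1)]
      calc _ ≤ B2 * Real.exp (lam' * s n) * Real.exp (-(κ * s m)) :=
            mul_le_mul_of_nonneg_right h11 (Real.exp_pos _).le
        _ = _ := by ring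
    have h12 : lam' * s n ≤ κ * s m / 2 := by
      rw [div_le_iff₀ hκ] at hk
      have h13 : 2 * lam' * s n ≤ 2 ^ (k + 1) * κ * s n :=
        mul_le_mul_of_nonneg_right hk (hs0 n).le
      have h14 : κ * (2 ^ (k + 1) * s n) ≤ κ * s m := mul_le_mul_of_nonneg_left hc.le hκ.le
      nlinarith
    have h15 : Real.exp (lam' * s n) * Real.exp (-(κ * s m)) ≤ (2 / κ) / s m := by
      rw [← Real.exp_add]
      have h16 : Real.exp (lam' * s n + -(κ * s m)) ≤ Real.exp (-(κ * s m / 2)) :=
        Real.exp_le_exp.2 (by linarith)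
      refine h16.trans ?_
      have h17 : κ * s m / 2 ≤ Real.exp (κ * s m / 2) := by
        have := Real.add_one_le_exp (κ * s m / 2); linarith
      rw [Real.exp_neg, div_div, inv_eq_one_div, div_le_div_iff₀ (Real.exp_pos _) (by positivity)]
      linarith
    calc I n m ≤ B2 * ((2 / κ) / s m) := h10.trans (mul_le_mul_of_nonneg_left h15 hB20)
      _ = B3 / s m := by rw [hB3]; ring
  refine ⟨2 * (B1 * ((k + 1) * C) + B3 * (2 * C)), by have := hW.C0; positivity, ?_⟩
  intro N
  have hmul : ∀ n m, IntervalIntegrable (fun β => z n β * z m β) volume a b := fun n m =>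
    ii_of_bdd ((hzm n).mul (hzm m)) (M := 2 * M * (2 * M)) (fun x => by
      simp only [Pi.mul_apply]
      rw [abs_mul]
      exact mul_le_mul (hzb n x) (hzb m x) (abs_nonneg _) (by linarith)) a b
  have hexp : ∫ β in a..b, (∑ n ∈ Finset.range N, w n * dv κ s f n β) ^ 2 =
      ∑ n ∈ Finset.range N, ∑ m ∈ Finset.range N, w n * w m * ∫ β in a..b, z n β * z m β := by
    have e1 : ∀ β, (∑ n ∈ Finset.range N, w n * dv κ s f n β) ^ 2 =
        ∑ n ∈ Finset.range N, ∑ m ∈ Finset.range N, w n * w m * (z n β * z m β) := by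
      intro β
      rw [sq, Finset.sum_mul_sum]
      exact Finset.sum_congr rfl fun n _ => Finset.sum_congr rfl fun m _ => by
        simp only [hz]; ring
    simp_rw [e1]
    rw [intervalIntegral.integral_finset_sum]
    · apply Finset.sum_congr rfl
      intro n _
      rw [intervalIntegral.integral_finset_sum]
      · apply Finset.sum_congr rfl
        intro m _
        rw [intervalIntegral.integral_const_mul]
      · intro m _
        exact (hmul n m).const_mul _
    · intro n _
      have e0 : (fun β => ∑ m ∈ Finset.range N, w n * w m * (z n β * z m β)) =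
          ∑ m ∈ Finset.range N, fun β => w n * w m * (z n β * z m β) := by
        funext β
        rw [Finset.sum_apply]
      rw [e0]
      apply IntervalIntegrable.sum
      intro m _
      exact (hmul n m).const_mul _
  rw [hexp]
  refine le_trans ?_ (hW.pairs k hB10 hB30 I hsym hIb N)
  apply Finset.sum_le_sum
  intro n _
  apply Finset.sum_le_sum
  intro m _
  exact mul_le_mul_of_nonneg_left (le_abs_self _) (mul_nonneg (hW.w0 n) (hW.w0 m))

/-- **law of large numbers** -/
theorem lln (hW : WS s w C) (hWi : Tendsto (fun N => ∑ n ∈ Finset.range N, w n) atTop atTop)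
    {a b : ℝ} (hab : a ≤ b) {M κ lam : ℝ} (hM0 : 0 ≤ M)
    (hκ : 0 < κ) {f : ℕ → ℝ → ℝ} (hf : ∀ n, Measurable (f n)) (hM : ∀ n x, |f n x| ≤ M)
    (hBV : ∀ n, ∀ τ : ℝ, 0 ≤ τ → τ ≤ 1 →
      ∫ β in a..b, |f n β - f n (β - τ)| ≤ τ * Real.exp (lam * s n)) :
    ∀ᵐ β ∂(volume.restrict (Ioc a b)),
      Tendsto (fun N => (∑ n ∈ Finset.range N, w n * dv κ s f n β) / ∑ n ∈ Finset.range N, w n)
        atTop (𝓝 0) := by
  classical
  obtain ⟨B, hB0, hB⟩ := second_moment hW hab hM0 hκ hf hM hBV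
  set Wt : ℕ → ℝ := fun N => ∑ n ∈ Finset.range N, w n with hWt
  set Y : ℕ → ℝ → ℝ := fun N β => ∑ n ∈ Finset.range N, w n * dv κ s f n β with hY
  have hYm : ∀ N, Measurable (Y N) := fun N =>
    Finset.measurable_fun_sum _ fun n _ => (dv_meas hf hM n).const_mul _
  have hC0 := hW.C0
  have hWmono : Monotone Wt := by
    apply monotone_nat_of_le_succ
    intro n
    simp only [hWt]
    rw [Finset.sum_range_succ]
    linarith [hW.w0 n]
  have hYb : ∀ N β, |Y N β| ≤ 2 * M * Wt N := by
    intro N β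
    refine (Finset.abs_sum_le_sum_abs _ _).trans ?_
    rw [Finset.mul_sum]
    apply Finset.sum_le_sum
    intro n _
    rw [abs_mul, abs_of_nonneg (hW.w0 n), mul_comm]
    exact mul_le_mul_of_nonneg_right (dv_abs hM n β) (hW.w0 n)
  -- the sequence of indices
  have hex : ∀ k : ℕ, ∃ N, ((k : ℝ) + 1) ^ 2 ≤ Wt N := fun k =>
    (hWi.eventually_ge_atTop (((k : ℝ) + 1) ^ 2)).exists
  set T : ℕ → ℕ := fun k => Nat.find (hex k) with hT
  have hT1 : ∀ k : ℕ, ((k : ℝ) + 1) ^ 2 ≤ Wt (T k) := fun k => Nat.find_spec (hex k)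
  have hT2 : ∀ k : ℕ, Wt (T k) ≤ ((k : ℝ) + 1) ^ 2 + C := by
    intro k
    have h0 : T k ≠ 0 := by
      intro h
      have := hT1 k
      rw [h] at this
      simp only [hWt, Finset.range_zero, Finset.sum_empty] at this
      nlinarith [(Nat.cast_nonneg k : (0 : ℝ) ≤ k)]
    obtain ⟨N, hN⟩ := Nat.exists_eq_succ_of_ne_zero h0
    have h1 : ¬ ((k : ℝ) + 1) ^ 2 ≤ Wt N := Nat.find_min (hex k) (by
      have : N < T k := by omega
      exact this)
    rw [not_le] at h1
    rw [hN]
    simp only [hWt, Nat.succ_eq_add_one]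
    rw [Finset.sum_range_succ]
    linarith [hW.wC N]
  -- almost everywhere along the sequence
  have hseq : ∀ j : ℕ, ∀ᵐ β ∂(volume.restrict (Ioc a b)), ∀ᶠ k in atTop,
      |Y (T k) β| ≤ 1 / ((j : ℝ) + 1) * Wt (T k) := by
    intro j
    set ε : ℝ := 1 / ((j : ℝ) + 1) with hε
    have hε0 : 0 < ε := by positivity
    set E : ℕ → Set ℝ := fun k => {β | (ε * Wt (T k)) ^ 2 ≤ (Y (T k) β) ^ 2} with hE
    have hmeas : ∀ k, (volume.restrict (Ioc a b)) (E k) ≤
        ENNReal.ofReal ((B / ε ^ 2) * (1 / ((k : ℝ) + 1) ^ 2)) := by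
      intro k
      have hWp : 0 < Wt (T k) := lt_of_lt_of_le (by positivity) (hT1 k)
      have hint : Integrable (fun β => (Y (T k) β) ^ 2) (volume.restrict (Ioc a b)) := by
        have := Measure.integrableOn_of_bounded (μ := volume) (s := Ioc a b)
          (f := fun β => (Y (T k) β) ^ 2) (M := (2 * M * Wt (T k)) ^ 2) measure_Ioc_lt_top.ne
          ((hYm (T k)).pow_const 2).aestronglyMeasurable
          (Filter.Eventually.of_forall fun β => by
            rw [Real.norm_eq_abs, abs_of_nonneg (sq_nonneg _), ← sq_abs]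
            exact pow_le_pow_left₀ (abs_nonneg _) (hYb _ β) 2)
        exact this
      have h1 := mul_meas_ge_le_integral_of_nonneg (μ := volume.restrict (Ioc a b))
        (Filter.Eventually.of_forall fun β => sq_nonneg (Y (T k) β)) hint
        ((ε * Wt (T k)) ^ 2)
      have h2 := hB (T k)
      rw [intervalIntegral.integral_of_le hab] at h2
      have h3 : (ε * Wt (T k)) ^ 2 * (volume.restrict (Ioc a b)).real (E k) ≤ B * Wt (T k) :=
        h1.trans h2
      have h4 : (volume.restrict (Ioc a b)).real (E k) ≤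
          (B / ε ^ 2) * (1 / ((k : ℝ) + 1) ^ 2) := by
        have h5 : ε ^ 2 * Wt (T k) * (volume.restrict (Ioc a b)).real (E k) ≤ B := by
          have h6 : Wt (T k) * (ε ^ 2 * Wt (T k) * (volume.restrict (Ioc a b)).real (E k)) ≤
              Wt (T k) * B := by nlinarith
          exact le_of_mul_le_mul_left h6 hWp
        have h7 : ε ^ 2 * ((k : ℝ) + 1) ^ 2 * (volume.restrict (Ioc a b)).real (E k) ≤ B := by
          refine le_trans ?_ h5
          apply mul_le_mul_of_nonneg_right _ measureReal_nonneg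
          exact mul_le_mul_of_nonneg_left (hT1 k) (by positivity)
        rw [div_mul_div_comm, mul_one, le_div_iff₀ (by positivity)]
        linarith
      haveI : IsFiniteMeasure (volume.restrict (Ioc a b)) :=
        ⟨by rw [Measure.restrict_apply_univ]; exact measure_Ioc_lt_top⟩
      rw [← ENNReal.ofReal_toReal (measure_ne_top (volume.restrict (Ioc a b)) (E k))]
      exact ENNReal.ofReal_le_ofReal h4
    have hsum : ∑' k, (volume.restrict (Ioc a b)) (E k) ≠ ⊤ := by
      have hs : Summable (fun k : ℕ => (B / ε ^ 2) * (1 / ((k : ℝ) + 1) ^ 2)) := by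
        apply Summable.mul_left
        have h := (summable_nat_add_iff 1).2 (Real.summable_one_div_nat_pow.2 (by norm_num : 1 < 2))
        refine h.congr fun k => ?_
        push_cast
        rfl
      refine ne_top_of_le_ne_top ?_ (ENNReal.tsum_le_tsum hmeas)
      rw [← ENNReal.ofReal_tsum_of_nonneg (fun k => by positivity) hs]
      exact ENNReal.ofReal_ne_top
    filter_upwards [ae_eventually_notMem hsum] with β hβ
    filter_upwards [hβ] with k hk
    simp only [hE, mem_ofPred_eq, not_le] at hk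
    have hWp : 0 ≤ Wt (T k) := le_trans (by positivity) (hT1 k)
    exact abs_le_of_sq_le_sq hk.le (by positivity)
  rw [← ae_all_iff] at hseq
  filter_upwards [hseq] with β hβ
  rw [Metric.tendsto_atTop]
  intro ε hε
  obtain ⟨j, hj⟩ := exists_nat_one_div_lt (by positivity : 0 < ε / 4)
  obtain ⟨K, hK⟩ := eventually_atTop.1 (hβ j)
  -- choose a large index
  obtain ⟨K2, hK2⟩ := exists_nat_gt (8 * M / ε * 3 + 1 + C)
  obtain ⟨N0, hN0⟩ := eventually_atTop.1 (hWi.eventually_ge_atTop
    ((((max K K2 : ℕ) : ℝ) + 2) ^ 2))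
  refine ⟨N0, fun N hN => ?_⟩
  have hWN := hN0 N hN
  -- the index
  have hex2 : ∃ k : ℕ, Wt N < ((k : ℝ) + 1) ^ 2 := by
    obtain ⟨k, hk⟩ := exists_nat_gt (Wt N)
    exact ⟨k, by nlinarith [(Nat.cast_nonneg k : (0 : ℝ) ≤ k)]⟩
  set k1 := Nat.find hex2 with hk1
  have hk1s : Wt N < ((k1 : ℝ) + 1) ^ 2 := Nat.find_spec hex2
  have hk1b : max K K2 + 2 ≤ k1 := by
    by_contra hcon
    have h1 : k1 ≤ max K K2 + 1 := by omega
    have h2 : ((k1 : ℝ) + 1) ^ 2 ≤ (((max K K2 : ℕ) : ℝ) + 2) ^ 2 := by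
      apply pow_le_pow_left₀ (by positivity)
      have : (k1 : ℝ) ≤ ((max K K2 : ℕ) : ℝ) + 1 := by exact_mod_cast h1
      linarith
    have h3 : (((max K K2 : ℕ) : ℝ) + 2) ^ 2 ≤ Wt N := hWN
    linarith
  obtain ⟨k, hkk⟩ : ∃ k, k1 = k + 1 := ⟨k1 - 1, by omega⟩
  have hkl : ((k : ℝ) + 1) ^ 2 ≤ Wt N := by
    have := Nat.find_min hex2 (m := k) (by omega)
    exact not_lt.1 this
  have hTN : T k ≤ N := Nat.find_min' (hex k) hkl
  have hkK : K ≤ k := by omega
  have hkK2 : K2 ≤ k := by omega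
  have hYk := hK k hkK
  have hdiff : |Y N β - Y (T k) β| ≤ 2 * M * (Wt N - Wt (T k)) := by
    have e : Y N β - Y (T k) β = ∑ n ∈ Finset.Ico (T k) N, w n * dv κ s f n β := by
      simp only [hY]
      rw [Finset.sum_Ico_eq_sub _ hTN]
    have e2 : Wt N - Wt (T k) = ∑ n ∈ Finset.Ico (T k) N, w n := by
      simp only [hWt]
      rw [Finset.sum_Ico_eq_sub _ hTN]
    rw [e, e2]
    refine (Finset.abs_sum_le_sum_abs _ _).trans ?_
    rw [Finset.mul_sum]
    apply Finset.sum_le_sum
    intro n _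
    rw [abs_mul, abs_of_nonneg (hW.w0 n), mul_comm]
    exact mul_le_mul_of_nonneg_right (dv_abs hM n β) (hW.w0 n)
  have hk1' : (k1 : ℝ) = k + 1 := by exact_mod_cast hkk
  rw [hk1'] at hk1s
  have hk0 : (0 : ℝ) ≤ k := Nat.cast_nonneg k
  have hWpos : 0 < Wt N := lt_of_lt_of_le (by positivity) hkl
  have hWT := hT1 k
  have hWTN : Wt (T k) ≤ Wt N := hWmono hTN
  have hd2 : Wt N - Wt (T k) ≤ 2 * k + 3 := by nlinarith
  rw [Real.dist_eq, sub_zero, abs_div, abs_of_pos hWpos, div_lt_iff₀ hWpos]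
  have hY1 : |Y N β| ≤ 1 / ((j : ℝ) + 1) * Wt (T k) + 2 * M * (2 * k + 3) := by
    have h1 : Y N β = Y (T k) β + (Y N β - Y (T k) β) := by ring
    rw [h1]
    refine (abs_add_le _ _).trans (add_le_add hYk (hdiff.trans ?_))
    exact mul_le_mul_of_nonneg_left hd2 (by positivity)
  have hj2 : 1 / ((j : ℝ) + 1) * Wt (T k) ≤ ε / 4 * Wt N := by
    apply mul_le_mul hj.le hWTN (le_trans (by positivity) hWT) (by positivity)
  have hlast : 2 * M * (2 * k + 3) ≤ ε / 2 * Wt N := by
    have h2 : (K2 : ℝ) ≤ k := by exact_mod_cast hkK2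
    have h3 : 8 * M / ε * 3 ≤ k := by linarith
    have h4 : 24 * M ≤ ε * k := by
      have : 8 * M / ε * 3 = 24 * M / ε := by ring
      rw [this, div_le_iff₀ hε] at h3
      linarith
    have h5 : 2 * M * (2 * k + 3) ≤ 24 * M / 4 * (k + 1) := by nlinarith
    have h6 : 24 * M / 4 * ((k : ℝ) + 1) ≤ ε * k / 4 * (k + 1) := by
      apply mul_le_mul_of_nonneg_right _ (by positivity)
      linarith
    have h7 : ε * k / 4 * ((k : ℝ) + 1) ≤ ε / 2 * ((k : ℝ) + 1) ^ 2 := by
      have : 0 ≤ ε * ((k : ℝ) + 1) := by positivity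
      nlinarith
    have h8 : ε / 2 * ((k : ℝ) + 1) ^ 2 ≤ ε / 2 * Wt N :=
      mul_le_mul_of_nonneg_left hkl (by positivity)
    linarith
  have hεW : 0 < ε * Wt N := mul_pos hε hWpos
  have : |Y N β| ≤ 3 / 4 * (ε * Wt N) := by linarith
  calc |Y N β| ≤ 3 / 4 * (ε * Wt N) := this
    _ < ε * Wt N := by linarith

end Pool.Agent.U762.GP
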