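import Pool.Agent.U762.GP.PrmB
import Pool.Agent.U762.GP.HiW
import Pool.Agent.U762.GP.Low

/-! Local density of the integers with enough primes to their right. -/

set_option autoImplicit false

namespace Pool.Agent.U762.GP

open MeasureTheory Filter Topology Set
open Pool.Agent.R516 (pcn Hi St_U)

/-- integers with at least `μ` times the expected number of primes in all short windows to the
right -/
def GG (μ c : ℝ) : Set ℕ := {n | ∀ b : ℕ, n ≤ b → Real.log n ^ 23 / 2 ≤ (b : ℝ) - n →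
  (b : ℝ) - n ≤ 2 * Real.exp ((1 - c) * Real.log n) →
  μ * ((b : ℝ) - n) ≤ pcn n b * Real.log n}

/-- the same in logarithmic scale -/
def SG (μ c : ℝ) : Set ℝ := {y | ⌊Real.exp y⌋₊ ∈ GG μ c}

lemma SG_meas (μ c : ℝ) : MeasurableSet (SG μ c) :=
  (Nat.measurable_floor.comp Real.measurable_exp) (MeasurableSet.of_discrete (s := GG μ c))

lemma pcn_le' (a b : ℕ) (hab : a ≤ b) : (pcn a b : ℝ) ≤ (b : ℝ) - a :=  by
  have h : pcn a b ≤ b - a := by
    unfold pcn
    refine (Finset.card_filter_le _ _).trans ?_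
    rw [Nat.card_Ioc]
  have h2 : (pcn a b : ℝ) ≤ ((b - a : ℕ) : ℝ) := by exact_mod_cast h
  rwa [Nat.cast_sub hab] at h2

/-- measure of the good points in a window from a finite set of good integers -/
lemma meas_ge (S : Set ℕ) {y η : ℝ} (hη : 0 < η) (T : Finset ℕ)
    (hT : ∀ m ∈ T, ⌊Real.exp y⌋₊ < m ∧ m < ⌊Real.exp (y + η)⌋₊ ∧ m ∈ S) :
    (T.card : ℝ) / (Real.exp (y + η) + 1) ≤
      ∫ t in y..(y + η), ({t : ℝ | ⌊Real.exp t⌋₊ ∈ S}).indicator (fun _ => (1 : ℝ)) t := by
  classical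
  set S' : Set ℝ := {t : ℝ | ⌊Real.exp t⌋₊ ∈ S} with hS'
  have hS'm : MeasurableSet S' :=
    (Nat.measurable_floor.comp Real.measurable_exp) (MeasurableSet.of_discrete (s := S))
  rw [intervalIntegral.integral_of_le (by linarith), integral_indicator_const _ hS'm, smul_eq_mul,
    mul_one]
  set J : ℕ → Set ℝ := fun m => Ico (Real.log m) (Real.log ((m : ℝ) + 1)) with hJ
  have hpos : ∀ m ∈ T, (0 : ℝ) < m := fun m hm => by
    have := (hT m hm).1
    exact_mod_cast (by omega : 0 < m)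
  have hsub : ⋃ m ∈ T, J m ⊆ S' ∩ Ioc y (y + η) := by
    intro t ht
    rw [mem_iUnion₂] at ht
    obtain ⟨m, hm, h1, h2⟩ := ht
    obtain ⟨k1, k2, k3⟩ := hT m hm
    have hm0 := hpos m hm
    have h3 : (m : ℝ) ≤ Real.exp t := by rwa [Real.log_le_iff_le_exp hm0] at h1
    have h4 : Real.exp t < m + 1 := by rwa [Real.lt_log_iff_exp_lt (by linarith)] at h2
    have h5 : ⌊Real.exp t⌋₊ = m := by
      rw [Nat.floor_eq_iff (Real.exp_pos t).le]
      exact ⟨h3, h4⟩
    refine ⟨by rw [hS', mem_ofPred_eq, h5]; exact k3, ?_, ?_⟩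
    · have h6 : Real.exp y < m := (Nat.floor_lt (Real.exp_pos _).le).1 k1
      have h7 : Real.exp y < Real.exp t := lt_of_lt_of_le h6 h3
      exact Real.exp_lt_exp.1 h7
    · have h6 : ((m + 1 : ℕ) : ℝ) ≤ Real.exp (y + η) := by
        have h7 : m + 1 ≤ ⌊Real.exp (y + η)⌋₊ := k2
        exact (by exact_mod_cast h7 : ((m + 1 : ℕ) : ℝ) ≤ ⌊Real.exp (y + η)⌋₊).trans
          (Nat.floor_le (Real.exp_pos _).le)
      push_cast at h6
      have h7 : Real.exp t ≤ Real.exp (y + η) := by linarith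
      exact Real.exp_le_exp.1 h7
  have hdisj : (T : Set ℕ).PairwiseDisjoint J := by
    intro m hm m' hm' hne
    rw [Function.onFun, Set.disjoint_left]
    rintro t ⟨h1, h2⟩ ⟨h3, h4⟩
    have a1 : (m : ℝ) ≤ Real.exp t := by rwa [Real.log_le_iff_le_exp (hpos m hm)] at h1
    have a2 : Real.exp t < m + 1 := by
      rwa [Real.lt_log_iff_exp_lt (by linarith [hpos m hm])] at h2
    have a3 : (m' : ℝ) ≤ Real.exp t := by rwa [Real.log_le_iff_le_exp (hpos m' hm')] at h3
    have a4 : Real.exp t < m' + 1 := by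
      rwa [Real.lt_log_iff_exp_lt (by linarith [hpos m' hm'])] at h4
    apply hne
    have b1 : m < m' + 1 := by exact_mod_cast (lt_of_le_of_lt a1 a4 : (m : ℝ) < m' + 1)
    have b2 : m' < m + 1 := by exact_mod_cast (lt_of_le_of_lt a3 a2 : (m' : ℝ) < m + 1)
    omega
  have hfin : (volume.restrict (Ioc y (y + η))) S' ≠ ⊤ := by
    haveI : IsFiniteMeasure (volume.restrict (Ioc y (y + η))) :=
      ⟨by rw [Measure.restrict_apply_univ]; exact measure_Ioc_lt_top⟩
    exact measure_ne_top _ _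
  have h1 : volume.real (⋃ m ∈ T, J m) = ∑ m ∈ T, volume.real (J m) := by
    have hJf : ∀ m ∈ T, volume (J m) ≠ ⊤ := by
      intro m _
      simp only [hJ]
      rw [Real.volume_Ico]
      exact ENNReal.ofReal_ne_top
    exact measureReal_biUnion_finset hdisj (fun m _ => measurableSet_Ico) hJf
  have h2 : (volume.restrict (Ioc y (y + η))).real S' = volume.real (S' ∩ Ioc y (y + η)) := by
    rw [Measure.real, Measure.real, Measure.restrict_apply' measurableSet_Ioc]
  have h3 : volume.real (⋃ m ∈ T, J m) ≤ volume.real (S' ∩ Ioc y (y + η)) := by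
    have hIf : volume (S' ∩ Ioc y (y + η)) ≠ ⊤ := by
      refine ne_top_of_le_ne_top ?_ (measure_mono inter_subset_right)
      rw [Real.volume_Ioc]
      exact ENNReal.ofReal_ne_top
    exact measureReal_mono hsub hIf
  rw [h2]
  refine le_trans ?_ h3
  rw [h1, div_eq_mul_inv, ← nsmul_eq_mul, ← Finset.sum_const]
  apply Finset.sum_le_sum
  intro m hm
  have hm0 := hpos m hm
  have h4 : (m : ℝ) ≤ Real.exp (y + η) := by
    have h5 : m ≤ ⌊Real.exp (y + η)⌋₊ := (hT m hm).2.1.le
    exact (by exact_mod_cast h5 : (m : ℝ) ≤ ⌊Real.exp (y + η)⌋₊).trans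
      (Nat.floor_le (Real.exp_pos _).le)
  simp only [hJ]
  have h6 : Real.log m ≤ Real.log ((m : ℝ) + 1) := Real.log_le_log hm0 (by linarith)
  rw [Measure.real, Real.volume_Ico, ENNReal.toReal_ofReal (by linarith),
    ← Real.log_div (by linarith) hm0.ne']
  have h7 := Real.one_sub_inv_le_log_of_pos (by positivity : 0 < ((m : ℝ) + 1) / m)
  refine le_trans ?_ h7
  have h8 : 1 - (((m : ℝ) + 1) / m)⁻¹ = ((m : ℝ) + 1)⁻¹ := by field_simp; ring
  rw [h8]
  apply inv_anti₀ (by linarith)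
  linarith

end Pool.Agent.U762.GP
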