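import Pool.Agent.U762.GP.Loc

/-! Local density of the good integers in most windows. -/

set_option autoImplicit false

namespace Pool.Agent.U762.GP

open MeasureTheory Filter Topology Set
open Pool.Agent.R516 (pcn Hi St_U)

/-- the long window input -/
def BigD (c : ℝ) : Prop := ∀ δ : ℝ, 0 < δ → ∃ K Z1 : ℝ, 0 ≤ K ∧ ∀ Z : ℕ, Z1 ≤ Z →
  volume ({y : ℝ | ∃ H : ℝ, Real.exp ((1 - c) * y) ≤ H ∧ H ≤ Real.exp y ∧
    δ < |dens (Real.exp y) H - 1|} ∩ Icc (Z : ℝ) (Z + 1)) ≤ ENNReal.ofReal (K / Z)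

lemma pow_exp_ev (k : ℕ) {e C : ℝ} (he : 0 < e) (hC : 0 < C) :
    ∀ᶠ Z : ℝ in atTop, Z ^ k ≤ C * Real.exp (e * Z) := by
  have h1 := Real.tendsto_pow_mul_exp_neg_atTop_nhds_zero k
  have h2 : Tendsto (fun Z : ℝ => e * Z) atTop atTop := tendsto_id.const_mul_atTop he
  have h4 := (tendsto_order.1 (h1.comp h2)).2 (C * e ^ k) (by positivity)
  filter_upwards [h4] with Z hZ
  simp only [Function.comp] at hZ
  rw [mul_pow, mul_assoc] at hZ
  have h5 : Z ^ k * Real.exp (-(e * Z)) < C := by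
    have h6 : e ^ k * (Z ^ k * Real.exp (-(e * Z))) < e ^ k * C := by
      rw [mul_comm (e ^ k) C]; exact hZ
    exact lt_of_mul_lt_mul_left h6 (by positivity)
  have h7 : Z ^ k * Real.exp (-(e * Z)) * Real.exp (e * Z) ≤ C * Real.exp (e * Z) :=
    mul_le_mul_of_nonneg_right h5.le (Real.exp_pos _).le
  rwa [mul_assoc, ← Real.exp_add, neg_add_cancel, Real.exp_zero, mul_one] at h7

/-- the thresholds -/
lemma thresholds {c ε μ' μ : ℝ} (hc : 0 < c) (hc1 : c ≤ 1 / 10) (hε : 0 < ε) (hμ : μ' < μ) :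
    ∃ Z1 : ℝ, ∀ Z : ℝ, Z1 ≤ Z → 10 ≤ Z ∧
      2 * Z ^ 22 * (Z + 4) + 10 ≤ ε / 4 * Real.exp ((1 - c / 2) * Z) ∧
      2 * Real.exp ((1 - c) * (Z + 2)) + 10 ≤ ε / 4 * Real.exp ((1 - c / 2) * Z) ∧
      Real.exp (-(c / 2 * Z / 8)) ≤ ε / 16 ∧ Real.exp (-(c / 2 * Z / 8)) ≤ 1 / 16 ∧
      μ' * (Z + 4) ≤ μ * (Z - 2) := by
  have e1 : ∀ᶠ Z : ℝ in atTop, Z ^ 23 ≤ (ε / 80) * Real.exp ((1 / 2) * Z) :=
    pow_exp_ev 23 (by norm_num) (by positivity)
  have e2 : ∀ᶠ Z : ℝ in atTop, Z ^ 0 ≤ (ε / 16 * Real.exp (-2)) * Real.exp ((c / 2) * Z) :=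
    pow_exp_ev 0 (by positivity) (by positivity)
  have e3 : ∀ᶠ Z : ℝ in atTop, Z ^ 0 ≤ min (ε / 16) (1 / 16) * Real.exp ((c / 16) * Z) :=
    pow_exp_ev 0 (by positivity) (by positivity)
  have e4 : ∀ᶠ Z : ℝ in atTop, (4 * μ' + 2 * μ) / (μ - μ') ≤ Z := eventually_ge_atTop _
  have e5 : ∀ᶠ Z : ℝ in atTop, Z ^ 0 ≤ (ε / 80) * Real.exp ((1 / 2) * Z) :=
    pow_exp_ev 0 (by norm_num) (by positivity)
  obtain ⟨Z1, hZ1⟩ := eventually_atTop.1 (((eventually_ge_atTop (10 : ℝ)).and e1).and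
    (e2.and (e3.and (e4.and e5))))
  refine ⟨Z1, fun Z hZ => ?_⟩
  obtain ⟨⟨h10, h1⟩, h2, h3, h4, h5⟩ := hZ1 Z hZ
  rw [pow_zero] at h2 h3 h5
  have hE : Real.exp ((1 / 2) * Z) ≤ Real.exp ((1 - c / 2) * Z) := by
    apply Real.exp_le_exp.2
    nlinarith
  refine ⟨h10, ?_, ?_, ?_, ?_, ?_⟩
  · have k1 : 2 * Z ^ 22 * (Z + 4) ≤ 4 * Z ^ 23 := by
      have : Z ^ 23 = Z ^ 22 * Z := pow_succ Z 22
      rw [this]
      have hp : 0 ≤ Z ^ 22 := by positivity
      nlinarith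
    have k2 : 4 * Z ^ 23 ≤ 4 * ((ε / 80) * Real.exp ((1 / 2) * Z)) := by linarith
    have k3 : (10 : ℝ) ≤ 10 * ((ε / 80) * Real.exp ((1 / 2) * Z)) := by linarith
    have k4 : 4 * ((ε / 80) * Real.exp ((1 / 2) * Z)) + 10 * ((ε / 80) * Real.exp ((1 / 2) * Z)) =
        14 / 80 * ε * Real.exp ((1 / 2) * Z) := by ring
    have k5 : 14 / 80 * ε * Real.exp ((1 / 2) * Z) ≤ ε / 4 * Real.exp ((1 / 2) * Z) := by
      apply mul_le_mul_of_nonneg_right _ (Real.exp_pos _).le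
      linarith
    have k6 : ε / 4 * Real.exp ((1 / 2) * Z) ≤ ε / 4 * Real.exp ((1 - c / 2) * Z) :=
      mul_le_mul_of_nonneg_left hE (by positivity)
    linarith
  · have k1 : Real.exp ((1 - c) * (Z + 2)) ≤ ε / 16 * Real.exp ((1 - c / 2) * Z) := by
      have k2 : Real.exp ((1 - c) * (Z + 2)) ≤ Real.exp ((1 - c) * Z + 2) := by
        apply Real.exp_le_exp.2
        nlinarith
      have k3 : Real.exp ((1 - c) * Z + 2) ≤ Real.exp ((1 - c) * Z + 2) *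
          ((ε / 16 * Real.exp (-2)) * Real.exp ((c / 2) * Z)) := by
        have := mul_le_mul_of_nonneg_left h2 (Real.exp_pos ((1 - c) * Z + 2)).le
        rwa [mul_one] at this
      have k4 : Real.exp ((1 - c) * Z + 2) * ((ε / 16 * Real.exp (-2)) * Real.exp ((c / 2) * Z)) =
          ε / 16 * Real.exp ((1 - c / 2) * Z) := by
        have : Real.exp ((1 - c / 2) * Z) =
            Real.exp ((1 - c) * Z + 2) * Real.exp (-2) * Real.exp ((c / 2) * Z) := by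
          rw [← Real.exp_add, ← Real.exp_add]; congr 1; ring
        rw [this]; ring
      linarith
    have k5 : (10 : ℝ) ≤ 10 * ((ε / 80) * Real.exp ((1 / 2) * Z)) := by linarith
    have k6 : (ε / 80) * Real.exp ((1 / 2) * Z) ≤ (ε / 80) * Real.exp ((1 - c / 2) * Z) :=
      mul_le_mul_of_nonneg_left hE (by positivity)
    have k7 : 0 < ε * Real.exp ((1 - c / 2) * Z) := by positivity
    linarith
  · have k1 : Real.exp (-(c / 2 * Z / 8)) * 1 ≤ Real.exp (-(c / 2 * Z / 8)) *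
        (min (ε / 16) (1 / 16) * Real.exp ((c / 16) * Z)) :=
      mul_le_mul_of_nonneg_left h3 (Real.exp_pos _).le
    have k2 : Real.exp (-(c / 2 * Z / 8)) *
        (min (ε / 16) (1 / 16) * Real.exp ((c / 16) * Z)) = min (ε / 16) (1 / 16) := by
      have : Real.exp (-(c / 2 * Z / 8)) * Real.exp ((c / 16) * Z) = 1 := by
        rw [← Real.exp_add, show -(c / 2 * Z / 8) + (c / 16) * Z = 0 by ring, Real.exp_zero]
      calc _ = min (ε / 16) (1 / 16) *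
            (Real.exp (-(c / 2 * Z / 8)) * Real.exp ((c / 16) * Z)) := by ring
        _ = _ := by rw [this, mul_one]
    have := min_le_left (ε / 16) (1 / 16 : ℝ)
    linarith
  · have k1 : Real.exp (-(c / 2 * Z / 8)) * 1 ≤ Real.exp (-(c / 2 * Z / 8)) *
        (min (ε / 16) (1 / 16) * Real.exp ((c / 16) * Z)) :=
      mul_le_mul_of_nonneg_left h3 (Real.exp_pos _).le
    have k2 : Real.exp (-(c / 2 * Z / 8)) *
        (min (ε / 16) (1 / 16) * Real.exp ((c / 16) * Z)) = min (ε / 16) (1 / 16) := by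
      have : Real.exp (-(c / 2 * Z / 8)) * Real.exp ((c / 16) * Z) = 1 := by
        rw [← Real.exp_add, show -(c / 2 * Z / 8) + (c / 16) * Z = 0 by ring, Real.exp_zero]
      calc _ = min (ε / 16) (1 / 16) *
            (Real.exp (-(c / 2 * Z / 8)) * Real.exp ((c / 16) * Z)) := by ring
        _ = _ := by rw [this, mul_one]
    have := min_le_right (ε / 16) (1 / 16 : ℝ)
    linarith
  · rw [div_le_iff₀ (by linarith)] at h4
    linarith


end Pool.Agent.U762.GP
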