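import Pool.Agent.U762.GP.LocA

/-! Local density of the good integers in most windows: the elementary pieces. -/

set_option autoImplicit false

namespace Pool.Agent.U762.GP

open MeasureTheory Filter Topology Set
open Pool.Agent.R516 (pcn Hi St_U)

lemma exp_sub_le' {η : ℝ} (hη : 0 < η) (h1 : η ≤ 1 / 16) : Real.exp η - 1 ≤ η * (1 + η) := by
  have h1 := Real.abs_exp_sub_one_sub_id_le (x := η) (by rw [abs_of_pos hη]; linarith)
  rw [abs_le] at h1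
  have h2 : η ^ 2 = η * η := by ring
  linarith [h1.2]

/-- numeric facts on windows -/
lemma num_win {ε q H0 N : ℝ} (hε : 0 < ε) (hε1 : ε ≤ 1 / 100)
    (hq : 10 ≤ ε / 4 * q) (hH1 : q ≤ H0)
    (hN1 : H0 - 1 ≤ N) (hN2 : N ≤ H0 + 1) :
    4000 ≤ q ∧ ε / 2 * q ≤ ε * N ∧ (1 - 2 * ε) * N ≤ (1 - ε) * H0 ∧ (1 - ε / 4) * q ≤ N := by
  have hq0 : 0 ≤ q := by
    by_contra h
    push Not at h
    have : ε / 4 * q ≤ 0 := mul_nonpos_of_nonneg_of_nonpos (by positivity) h.le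
    linarith
  have h1 : ε / 4 * q ≤ 1 / 400 * q := mul_le_mul_of_nonneg_right (by linarith) hq0
  have h4000 : 4000 ≤ q := by linarith
  refine ⟨h4000, ?_, ?_, ?_⟩
  · have : ε * (q / 2) ≤ ε * N := mul_le_mul_of_nonneg_left (by linarith) hε.le
    linarith
  · have h2 : (1 - 2 * ε) * N ≤ (1 - 2 * ε) * (H0 + 1) :=
      mul_le_mul_of_nonneg_left hN2 (by linarith)
    have h3 : (1 - 2 * ε) * (H0 + 1) = (1 - ε) * H0 - ε * H0 + (1 - 2 * ε) := by ring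
    have h4 : ε * q ≤ ε * H0 := mul_le_mul_of_nonneg_left hH1 hε.le
    linarith
  · linarith

/-- passing from the window bound to membership in `GG` -/
lemma mem_GG_of {c μ' μ L : ℝ} (hc1 : c ≤ 1 / 10) (hμ0 : 0 < μ') (hμ : μ' < μ) {Z m W1 : ℕ}
    (hZ10 : (10 : ℝ) ≤ Z) (hL1 : (Z : ℝ) + 3 ≤ L) (hL2 : L ≤ (Z : ℝ) + 4)
    (hA4 : μ' * ((Z : ℝ) + 4) ≤ μ * (Z - 2))
    (hlogm1 : (Z : ℝ) ≤ Real.log m) (hlogm2 : Real.log m ≤ (Z : ℝ) + 2)
    (hW1a : 2 * Real.exp ((1 - c) * ((Z : ℝ) + 2)) ≤ W1)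
    (hlow : ∀ b : ℕ, m ≤ b → b ≤ m + W1 →
      μ * ((b : ℝ) - m - (Z : ℝ) ^ 22) / L ≤ (pcn m b : ℝ)) : m ∈ GG μ' c := by
  intro b hb1 hb2 hb3
  have hZp : (0 : ℝ) < Z := by linarith
  have hLp : 0 < L := by linarith
  have hbm : (b : ℝ) - m ≤ W1 := by
    refine hb3.trans (le_trans ?_ hW1a)
    apply mul_le_mul_of_nonneg_left _ (by norm_num)
    apply Real.exp_le_exp.2
    apply mul_le_mul_of_nonneg_left hlogm2 (by linarith)
  have hbm' : b ≤ m + W1 := by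
    have : (b : ℝ) ≤ m + W1 := by linarith
    exact_mod_cast this
  have h1 := hlow b hb1 hbm'
  set D : ℝ := (b : ℝ) - m with hD
  have hlong : (Z : ℝ) ^ 23 / 2 ≤ D := by
    refine le_trans ?_ hb2
    apply div_le_div_of_nonneg_right _ (by norm_num)
    exact pow_le_pow_left₀ hZp.le hlogm1 23
  have hD0 : 0 ≤ D := by
    refine le_trans ?_ hlong
    positivity
  have hWs : (Z : ℝ) ^ 22 * Z ≤ 2 * D := by
    have : (Z : ℝ) ^ 22 * Z = (Z : ℝ) ^ 23 := by ring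
    rw [this]
    linarith
  have h2 : μ * (D - (Z : ℝ) ^ 22) ≤ (pcn m b : ℝ) * L := by
    rwa [div_le_iff₀ hLp] at h1
  have h3 : μ * (D * (Z - 2)) ≤ μ * ((D - (Z : ℝ) ^ 22) * Z) := by
    apply mul_le_mul_of_nonneg_left _ (by linarith)
    have : (D - (Z : ℝ) ^ 22) * Z = D * Z - (Z : ℝ) ^ 22 * Z := by ring
    rw [this]
    linarith
  have h4 : μ * (D - (Z : ℝ) ^ 22) * Z ≤ (pcn m b : ℝ) * L * Z :=
    mul_le_mul_of_nonneg_right h2 hZp.le
  have hpc0 : (0 : ℝ) ≤ (pcn m b : ℝ) := Nat.cast_nonneg _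
  have h5 : (pcn m b : ℝ) * (L * Z) ≤ (pcn m b : ℝ) * (Real.log m * (Z + 4)) := by
    apply mul_le_mul_of_nonneg_left _ hpc0
    calc L * Z ≤ (Z + 4) * Real.log m := mul_le_mul hL2 hlogm1 hZp.le (by linarith)
      _ = Real.log m * (Z + 4) := by ring
  have h6 : D * (μ' * (Z + 4)) ≤ D * (μ * (Z - 2)) := mul_le_mul_of_nonneg_left hA4 hD0
  have h7 : μ' * D * (Z + 4) ≤ (pcn m b : ℝ) * Real.log m * (Z + 4) := by
    calc μ' * D * (Z + 4) = D * (μ' * (Z + 4)) := by ring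
      _ ≤ D * (μ * (Z - 2)) := h6
      _ = μ * (D * (Z - 2)) := by ring
      _ ≤ μ * ((D - (Z : ℝ) ^ 22) * Z) := h3
      _ = μ * (D - (Z : ℝ) ^ 22) * Z := by ring
      _ ≤ (pcn m b : ℝ) * L * Z := h4
      _ = (pcn m b : ℝ) * (L * Z) := by ring
      _ ≤ (pcn m b : ℝ) * (Real.log m * (Z + 4)) := h5
      _ = (pcn m b : ℝ) * Real.log m * (Z + 4) := by ring
  exact le_of_mul_le_mul_right h7 (by linarith)

/-- the final comparison -/
lemma fin_cmp {ε R x η E N T : ℝ} (hε : 0 < ε) (hε1 : ε ≤ 1 / 100) (hR : 0 ≤ R) (hx : 0 < x)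
    (hη : 0 < η) (hE : 0 < E) (hE2 : E ≤ (1 + ε / 4) * x) (hN : (1 - ε / 4) * (x * η) ≤ N)
    (hT : R * N ≤ T) : R * (1 - ε) ≤ 1 / η * (T / E) := by
  have e1 : 1 / η * (T / E) = T / (E * η) := by
    field_simp
  rw [e1, le_div_iff₀ (by positivity)]
  have h1 : R * ((1 - ε / 4) * (x * η)) ≤ T := (mul_le_mul_of_nonneg_left hN hR).trans hT
  have h2 : E * η ≤ (1 + ε / 4) * x * η := mul_le_mul_of_nonneg_right hE2 hη.le
  have h3 : R * (1 - ε) * (E * η) ≤ R * (1 - ε) * ((1 + ε / 4) * x * η) :=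
    mul_le_mul_of_nonneg_left h2 (mul_nonneg hR (by linarith))
  refine h3.trans (le_trans ?_ h1)
  have hee : 0 ≤ ε * ε := by positivity
  have h4 : (1 - ε) * (1 + ε / 4) ≤ 1 - ε / 4 := by
    have : (1 - ε) * (1 + ε / 4) = 1 - 3 / 4 * ε - ε * ε / 4 := by ring
    rw [this]
    linarith
  have h5 : R * (1 - ε) * ((1 + ε / 4) * x * η) = ((1 - ε) * (1 + ε / 4)) * (R * (x * η)) := by ring
  have h6 : R * ((1 - ε / 4) * (x * η)) = (1 - ε / 4) * (R * (x * η)) := by ring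
  rw [h5, h6]
  exact mul_le_mul_of_nonneg_right h4 (by positivity)

end Pool.Agent.U762.GP
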