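import Pool.Agent.U762.GP.LocB

/-! Local density of the good integers in most windows: counting. -/

set_option autoImplicit false

namespace Pool.Agent.U762.GP

open MeasureTheory Filter Topology Set
open Pool.Agent.R516 (pcn Hi St_U)

/-- counting the good integers of a window -/
lemma cnt_good {ε μ L : ℝ} (hε : 0 < ε) (hε1 : ε ≤ 1 / 100) (hμ0 : 0 ≤ μ) (hμ1 : μ < 1)
    {Z u N W1 : ℕ} (hZ10 : (10 : ℝ) ≤ Z)
    (hLd : L = Real.log (NZ Z)) (hL1 : (Z : ℝ) + 3 ≤ L)
    (hvN : u + N ≤ NZ Z) (hWN : 2 * (Z : ℝ) ^ 22 * L ≤ ε * N)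
    (hP : (1 - 2 * ε) * N ≤ L * (pcn u (u + N) : ℝ))
    (hW1c : (W1 : ℝ) + 1 ≤ ε * N)
    (hBL : ∀ B : Finset ℕ, (∀ k ∈ B, 1 ≤ k ∧ k ≤ N ∧ u + k ∈ BZ ε Z) → L * B.card ≤ ε * N) :
    ∃ T : Finset ℕ, ((1 - 4 * ε - μ) / (18 / 5 + ε - μ) - ε) * N ≤ T.card ∧
      ∀ m ∈ T, u < m ∧ m + W1 ≤ u + N ∧ ∀ b : ℕ, m ≤ b → b ≤ m + W1 →
        μ * ((b : ℝ) - m - (Z : ℝ) ^ 22) / L ≤ (pcn m b : ℝ) := by
  classical
  have hZp : (0 : ℝ) < Z := by linarith
  have hLp : 0 < L := by linarith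
  set W : ℕ := Z ^ 22 with hW
  have hWr : (W : ℝ) = (Z : ℝ) ^ 22 := by rw [hW]; push_cast; rfl
  have hW1 : 1 ≤ W := by
    rw [hW]
    apply Nat.one_le_pow
    exact_mod_cast hZp
  rw [← hWr] at hWN
  have hN0 : (0 : ℝ) ≤ N := Nat.cast_nonneg _
  have hWN' : 2 * W ≤ N := by
    have h1 : 2 * (W : ℝ) ≤ N := by
      have h2 : 2 * (W : ℝ) * 1 ≤ 2 * (W : ℝ) * L :=
        mul_le_mul_of_nonneg_left (by linarith) (by positivity)
      have h3 : ε * (N : ℝ) ≤ 1 * N := mul_le_mul_of_nonneg_right (by linarith) hN0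
      linarith
    exact_mod_cast h1
  set B : Finset ℕ := (Finset.range (N + 1)).filter (fun k => 1 ≤ k ∧ u + k ∈ BZ ε Z) with hBdef
  have hB1 : L * B.card ≤ ε * N := by
    apply hBL
    intro k hk
    rw [hBdef, Finset.mem_filter, Finset.mem_range] at hk
    exact ⟨hk.2.1, by omega, hk.2.2⟩
  have hcμ : μ < 18 / 5 + ε := by linarith
  obtain ⟨G, hG1, hG2, hG3⟩ := low_win u N W hW1 hWN' (18 / 5 + ε) μ L hLp hμ0 hcμ B (by
    intro n hn1 hn2
    have h1 : u + n + 1 ∉ BZ ε Z := by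
      intro hh
      apply hn2
      rw [hBdef, Finset.mem_filter, Finset.mem_range]
      refine ⟨by omega, by omega, ?_⟩
      rwa [← add_assoc]
    have h2 := BZ_window h1 (Nat.lt_succ_self _) (by omega : u + n + 1 ≤ u + n + W)
      (by omega) (by push_cast; rw [← hWr]; linarith)
    refine h2.trans (le_of_eq ?_)
    rw [hLd]
    push_cast
    ring)
  have hGc : (1 - 4 * ε - μ) * N ≤ (18 / 5 + ε - μ) * G.card := by
    refine le_trans ?_ hG2
    have : L * ((pcn u (u + N) : ℝ) - 2 * W) = L * (pcn u (u + N) : ℝ) - 2 * (W : ℝ) * L := by ring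
    rw [this]
    linarith
  set T : Finset ℕ := (G.filter (fun n => 1 ≤ n ∧ n + W1 ≤ N)).image (fun n => u + n) with hT
  have hTc : (G.card : ℝ) - W1 - 1 ≤ T.card := by
    have h1 : T.card = (G.filter (fun n => 1 ≤ n ∧ n + W1 ≤ N)).card := by
      rw [hT]
      apply Finset.card_image_of_injective
      intro a b hab
      exact Nat.add_left_cancel hab
    have h2 : G.card ≤ (G.filter (fun n => 1 ≤ n ∧ n + W1 ≤ N)).card + (W1 + 1) := by
      rw [← Finset.card_filter_add_card_filter_not (s := G) (fun n => 1 ≤ n ∧ n + W1 ≤ N)]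
      apply Nat.add_le_add_left
      have h3 : G.filter (fun n => ¬ (1 ≤ n ∧ n + W1 ≤ N)) ⊆
          insert 0 (Finset.Ioc (N - W1) N) := by
        intro n hn
        rw [Finset.mem_filter] at hn
        have h4 := Finset.mem_range.1 (hG1 hn.1)
        rw [Finset.mem_insert, Finset.mem_Ioc]
        by_cases h5 : n = 0
        · left; exact h5
        · right
          have h6 : ¬ (n + W1 ≤ N) := fun hh => hn.2 ⟨by omega, hh⟩
          omega
      refine (Finset.card_le_card h3).trans ((Finset.card_insert_le _ _).trans ?_)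
      rw [Nat.card_Ioc]
      omega
    rw [h1]
    have h3 : (G.card : ℝ) ≤ (G.filter (fun n => 1 ≤ n ∧ n + W1 ≤ N)).card + (W1 + 1) := by
      exact_mod_cast h2
    linarith
  refine ⟨T, ?_, ?_⟩
  · have hcp : 0 < 18 / 5 + ε - μ := by linarith
    have h1 : (1 - 4 * ε - μ) / (18 / 5 + ε - μ) * N ≤ G.card := by
      rw [div_mul_eq_mul_div, div_le_iff₀ hcp]
      linarith
    rw [sub_mul]
    linarith
  · intro m hm
    rw [hT, Finset.mem_image] at hm
    obtain ⟨n, hn, rfl⟩ := hm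
    rw [Finset.mem_filter] at hn
    refine ⟨by omega, by omega, ?_⟩
    intro b hb1 hb2
    obtain ⟨b', rfl⟩ : ∃ b', b = u + b' := ⟨b - u, by omega⟩
    have h1 := hG3 n hn.1 b' (by omega) (by omega)
    have hbm2 : ((u + b' : ℕ) : ℝ) - ((u + n : ℕ) : ℝ) = (b' : ℝ) - n := by
      push_cast; ring
    rw [hbm2, ← hWr]
    exact h1

end Pool.Agent.U762.GP
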