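import Pool.Agent.U762.GP.LocC

/-! Local density of the good integers in most windows: the deterministic core. -/

set_option autoImplicit false

namespace Pool.Agent.U762.GP

open MeasureTheory Filter Topology Set
open Pool.Agent.R516 (pcn Hi St_U)

/-- the exceptional integers of a window are counted by `cntB` -/
lemma B_le_cntB {ε η y : ℝ} {Z u N : ℕ} (hu : u = ⌊Real.exp y⌋₊)
    (hv : u + N = ⌊Real.exp (y + η)⌋₊) (B : Finset ℕ)
    (hB : ∀ k ∈ B, 1 ≤ k ∧ k ≤ N ∧ u + k ∈ BZ ε Z) : B.card ≤ cntB ε Z η y := by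
  classical
  unfold cntB
  rw [← hu, ← hv]
  apply Finset.card_le_card_of_injOn (fun k => u + k)
  · intro k hk
    have h := hB k (Finset.mem_coe.1 hk)
    rw [Finset.mem_coe, Finset.mem_filter]
    refine ⟨h.2.2, ?_, ?_⟩
    · show u < u + k
      omega
    · show u + k ≤ u + N + 1
      omega
  · intro a _ b _ hab
    exact Nat.add_left_cancel hab

/-- the deterministic core: outside the two exceptional events the window is rich -/
theorem core_win {c ε μ' μ : ℝ} (hc1 : c ≤ 1 / 10) (hε : 0 < ε) (hε1 : ε ≤ 1 / 100)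
    (hμ0 : 0 < μ') (hμ : μ' < μ) (hμ1 : μ < 1)
    (hB : 0 < (1 - 4 * ε - μ) / (18 / 5 + ε - μ) - ε) {Z : ℕ} (hZ10 : (10 : ℝ) ≤ Z)
    (hA1 : 2 * (Z : ℝ) ^ 22 * (Z + 4) + 10 ≤ ε / 4 * Real.exp ((1 - c / 2) * Z))
    (hA2 : 2 * Real.exp ((1 - c) * ((Z : ℝ) + 2)) + 10 ≤ ε / 4 * Real.exp ((1 - c / 2) * Z))
    (hA4 : μ' * ((Z : ℝ) + 4) ≤ μ * (Z - 2)) {y η : ℝ} (hy1 : (Z : ℝ) ≤ y) (hy2 : y ≤ Z + 1)
    (hη0 : Real.exp (-(c / 2 * Z)) ≤ η) (hη1 : η ≤ ε / 16) (hη2 : η ≤ 1 / 16)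
    (hE1 : |dens (Real.exp y) (Real.exp y * (Real.exp η - 1)) - 1| ≤ ε)
    (hE2 : (cntB ε Z η y : ℝ) ≤ ε / 4 * (η * Real.exp Z) / Z) :
    ((1 - 4 * ε - μ) / (18 / 5 + ε - μ) - ε) * (1 - ε) ≤
      1 / η * ∫ t in y..(y + η), (SG μ' c).indicator (fun _ => (1 : ℝ)) t := by
  have hη : 0 < η := lt_of_lt_of_le (Real.exp_pos _) hη0
  have hZp : (0 : ℝ) < Z := by linarith
  set x : ℝ := Real.exp y with hx
  have hx0 : 0 < x := Real.exp_pos y
  set H0 : ℝ := x * (Real.exp η - 1) with hH0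
  have hexp1 : η ≤ Real.exp η - 1 := by have := Real.add_one_le_exp η; linarith
  have hexp2 : Real.exp η - 1 ≤ η * (1 + η) := exp_sub_le' hη hη2
  have hxη : Real.exp ((1 - c / 2) * Z) ≤ x * η := by
    calc Real.exp ((1 - c / 2) * Z) = Real.exp Z * Real.exp (-(c / 2 * Z)) := by
          rw [← Real.exp_add]; congr 1; ring
      _ ≤ x * η := mul_le_mul (Real.exp_le_exp.2 hy1) hη0 (Real.exp_pos _).le hx0.le
  have hH01 : x * η ≤ H0 := mul_le_mul_of_nonneg_left hexp1 hx0.le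
  have hH02 : H0 ≤ x * (η * (1 + η)) := mul_le_mul_of_nonneg_left hexp2 hx0.le
  obtain ⟨u, hu⟩ : ∃ u : ℕ, u = ⌊x⌋₊ := ⟨_, rfl⟩
  obtain ⟨v, hv⟩ : ∃ v : ℕ, v = ⌊Real.exp (y + η)⌋₊ := ⟨_, rfl⟩
  have hxe : Real.exp (y + η) = x + H0 := by
    rw [Real.exp_add, hH0]; ring
  have hu1 : (u : ℝ) ≤ x := by rw [hu]; exact Nat.floor_le hx0.le
  have hu2 : x < u + 1 := by rw [hu]; exact Nat.lt_floor_add_one x
  have hv1 : (v : ℝ) ≤ x + H0 := by rw [← hxe, hv]; exact Nat.floor_le (Real.exp_pos _).le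
  have hv2 : x + H0 < v + 1 := by rw [← hxe, hv]; exact Nat.lt_floor_add_one _
  have hq2 : ε / 4 * Real.exp ((1 - c / 2) * Z) ≤ ε / 4 * (x * η) :=
    mul_le_mul_of_nonneg_left hxη (by positivity)
  have hbig : 10 ≤ ε / 4 * (x * η) := by
    have h1 : 0 ≤ Real.exp ((1 - c) * ((Z : ℝ) + 2)) := (Real.exp_pos _).le
    linarith
  have hq4000 : 4000 ≤ x * η := by
    have h1 : ε / 4 * (x * η) ≤ 1 / 400 * (x * η) :=
      mul_le_mul_of_nonneg_right (by linarith) (by positivity)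
    linarith
  have huv : u ≤ v := by
    have : (u : ℝ) < v := by linarith
    exact_mod_cast this.le
  obtain ⟨N, hN⟩ : ∃ N, v = u + N := ⟨v - u, by omega⟩
  have hNr : (N : ℝ) = v - u := by rw [hN]; push_cast; ring
  have hN1 : H0 - 1 ≤ N := by rw [hNr]; linarith
  have hN2 : (N : ℝ) ≤ H0 + 1 := by rw [hNr]; linarith
  obtain ⟨-, hnum2, hnum3, hnum4⟩ := num_win hε hε1 hbig hH01 hN1 hN2
  obtain ⟨L, hL⟩ : ∃ L : ℝ, L = Real.log (NZ Z) := ⟨_, rfl⟩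
  have hL1 : (Z : ℝ) + 3 ≤ L := by rw [hL]; exact logNZ_ge Z
  have hL2 : L ≤ (Z : ℝ) + 4 := by rw [hL]; exact logNZ_le Z
  have hWN : 2 * (Z : ℝ) ^ 22 * L ≤ ε * N := by
    have h1 : 2 * (Z : ℝ) ^ 22 * L ≤ 2 * (Z : ℝ) ^ 22 * (Z + 4) :=
      mul_le_mul_of_nonneg_left hL2 (by positivity)
    linarith
  have hvN : u + N ≤ NZ Z := by
    rw [← hN]
    have h1 : (v : ℝ) ≤ NZ Z := by
      refine hv1.trans (le_trans ?_ (NZ_ge Z))
      rw [← hxe]
      apply Real.exp_le_exp.2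
      linarith
    exact_mod_cast h1
  have hP : (1 - 2 * ε) * N ≤ L * (pcn u (u + N) : ℝ) := by
    have hdens : dens x H0 = (pcn u (u + N) : ℝ) * y / H0 := by
      unfold dens
      rw [hx, Real.log_exp, ← hN, hu, hv, hxe]
    rw [hdens] at hE1
    have hH0p : 0 < H0 := by linarith
    have h1 : 1 - ε ≤ (pcn u (u + N) : ℝ) * y / H0 := by linarith [(abs_le.1 hE1).1]
    rw [le_div_iff₀ hH0p] at h1
    have h2 : (pcn u (u + N) : ℝ) * y ≤ L * (pcn u (u + N) : ℝ) := by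
      rw [mul_comm]
      exact mul_le_mul_of_nonneg_right (by linarith) (Nat.cast_nonneg _)
    linarith
  obtain ⟨W1, hW1d⟩ : ∃ W1 : ℕ, W1 = ⌈2 * Real.exp ((1 - c) * ((Z : ℝ) + 2))⌉₊ := ⟨_, rfl⟩
  have hW1a : 2 * Real.exp ((1 - c) * ((Z : ℝ) + 2)) ≤ W1 := by rw [hW1d]; exact Nat.le_ceil _
  have hW1b : (W1 : ℝ) ≤ 2 * Real.exp ((1 - c) * ((Z : ℝ) + 2)) + 1 := by
    rw [hW1d]; exact (Nat.ceil_lt_add_one (by positivity)).le
  have hW1c : (W1 : ℝ) + 1 ≤ ε * N := by linarith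
  have hBL : ∀ B : Finset ℕ, (∀ k ∈ B, 1 ≤ k ∧ k ≤ N ∧ u + k ∈ BZ ε Z) → L * B.card ≤ ε * N := by
    intro B hBB
    have h0 : (B.card : ℝ) ≤ cntB ε Z η y := by
      exact_mod_cast B_le_cntB (hu.trans (by rw [hx])) (hN.symm.trans hv) B hBB
    have h1 : (B.card : ℝ) ≤ ε / 4 * (η * Real.exp Z) / Z := h0.trans hE2
    have h2 : L * B.card ≤ (2 * Z) * (ε / 4 * (η * Real.exp Z) / Z) :=
      mul_le_mul (by linarith) h1 (Nat.cast_nonneg _) (by positivity)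
    have h3 : (2 * (Z : ℝ)) * (ε / 4 * (η * Real.exp Z) / Z) = ε / 2 * (η * Real.exp Z) := by
      field_simp; ring
    have h4 : η * Real.exp Z ≤ x * η := by
      rw [mul_comm]
      exact mul_le_mul_of_nonneg_right (Real.exp_le_exp.2 hy1) hη.le
    have h5 : ε / 2 * (η * Real.exp Z) ≤ ε / 2 * (x * η) :=
      mul_le_mul_of_nonneg_left h4 (by positivity)
    linarith
  obtain ⟨T, hT1, hT2⟩ := cnt_good hε hε1 (hμ0.le.trans hμ.le) hμ1 hZ10 hL hL1 hvN hWN hP hW1c hBL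
  have hTmem : ∀ m ∈ T, ⌊Real.exp y⌋₊ < m ∧ m < ⌊Real.exp (y + η)⌋₊ ∧ m ∈ GG μ' c := by
    intro m hm
    obtain ⟨h1, h2, h3⟩ := hT2 m hm
    have hW1pos : 0 < W1 := by
      have : (0 : ℝ) < W1 := lt_of_lt_of_le (by positivity) hW1a
      exact_mod_cast this
    have hmx : x < m := by
      have : (u : ℝ) + 1 ≤ m := by exact_mod_cast h1
      linarith
    have hm0 : (0 : ℝ) < m := by linarith
    have hlogm1 : (Z : ℝ) ≤ Real.log m := by
      rw [Real.le_log_iff_exp_le hm0]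
      exact (Real.exp_le_exp.2 hy1).trans hmx.le
    have hlogm2 : Real.log m ≤ (Z : ℝ) + 2 := by
      rw [Real.log_le_iff_le_exp hm0]
      have h4 : (m : ℝ) ≤ v := by
        have : m ≤ v := by omega
        exact_mod_cast this
      refine h4.trans (hv1.trans ?_)
      rw [← hxe]
      apply Real.exp_le_exp.2
      linarith
    refine ⟨?_, ?_, mem_GG_of hc1 hμ0 hμ hZ10 hL1 hL2 hA4 hlogm1 hlogm2 hW1a h3⟩
    · rw [← hx, ← hu]; exact h1
    · rw [← hv]; omega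
  have hmeas := meas_ge (GG μ' c) hη T hTmem
  have hset : (SG μ' c).indicator (fun _ => (1 : ℝ)) =
      ({t : ℝ | ⌊Real.exp t⌋₊ ∈ GG μ' c}).indicator (fun _ => (1 : ℝ)) := rfl
  rw [hset]
  refine le_trans ?_ (mul_le_mul_of_nonneg_left hmeas (by positivity : 0 ≤ 1 / η))
  apply fin_cmp hε hε1 hB.le hx0 hη (by positivity) _ hnum4 hT1
  have h1 : x * (η * (1 + η)) ≤ x * (ε / 8) := by
    apply mul_le_mul_of_nonneg_left _ hx0.le
    calc η * (1 + η) ≤ ε / 16 * 2 := mul_le_mul hη1 (by linarith) (by linarith) (by positivity)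
      _ = ε / 8 := by ring
  have h2 : 1 ≤ ε / 8 * x := by
    have h3 : x * η ≤ x * (1 / 16) := mul_le_mul_of_nonneg_left hη2 hx0.le
    have h4 : ε / 4 * (x * η) ≤ ε / 4 * (x * (1 / 16)) :=
      mul_le_mul_of_nonneg_left h3 (by positivity)
    linarith
  rw [hxe]
  linarith

end Pool.Agent.U762.GP
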