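import Pool.Agent.U762.GP.LocD

/-! Local density of the good integers in most windows. -/

set_option autoImplicit false

namespace Pool.Agent.U762.GP

open MeasureTheory Filter Topology Set
open Pool.Agent.R516 (pcn Hi St_U)

lemma eps_choice {μ ρ : ℝ} (hμ1 : μ < 1) (hρ : ρ < (1 - μ) / (18 / 5 - μ)) :
    ∃ ε : ℝ, 0 < ε ∧ ε ≤ 1 / 100 ∧ 0 < (1 - 4 * ε - μ) / (18 / 5 + ε - μ) - ε ∧
      ρ ≤ ((1 - 4 * ε - μ) / (18 / 5 + ε - μ) - ε) * (1 - ε) := by
  have hd : (18 / 5 + 0 - μ) ≠ 0 := by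
    have : 0 < 18 / 5 + 0 - μ := by linarith
    exact this.ne'
  have h1 : ContinuousAt (fun ε : ℝ => (1 - 4 * ε - μ) / (18 / 5 + ε - μ) - ε) 0 := by
    apply ContinuousAt.sub
    · apply ContinuousAt.div
      · fun_prop
      · fun_prop
      · exact hd
    · exact continuousAt_id
  have h2 : ContinuousAt (fun ε : ℝ =>
      ((1 - 4 * ε - μ) / (18 / 5 + ε - μ) - ε) * (1 - ε)) 0 := by
    apply h1.mul
    fun_prop
  have v1 : (1 - 4 * (0 : ℝ) - μ) / (18 / 5 + 0 - μ) - 0 = (1 - μ) / (18 / 5 - μ) := by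
    norm_num
  have hpos : 0 < (1 - μ) / (18 / 5 - μ) := div_pos (by linarith) (by linarith)
  have e1 : ∀ᶠ ε : ℝ in 𝓝 0, 0 < (1 - 4 * ε - μ) / (18 / 5 + ε - μ) - ε := by
    have := (tendsto_order.1 h1).1 0 (by
      show 0 < (1 - 4 * (0 : ℝ) - μ) / (18 / 5 + 0 - μ) - 0
      rw [v1]; exact hpos)
    exact this
  have e2 : ∀ᶠ ε : ℝ in 𝓝 0, ρ < ((1 - 4 * ε - μ) / (18 / 5 + ε - μ) - ε) * (1 - ε) := by
    have := (tendsto_order.1 h2).1 ρ (by
      show ρ < ((1 - 4 * (0 : ℝ) - μ) / (18 / 5 + 0 - μ) - 0) * (1 - 0)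
      rw [v1, sub_zero, mul_one]; exact hρ)
    exact this
  obtain ⟨r, hr, h⟩ := Metric.eventually_nhds_iff.1 (e1.and e2)
  refine ⟨min (r / 2) (1 / 100), lt_min (by positivity) (by norm_num), min_le_right _ _, ?_⟩
  have h3 := @h (min (r / 2) (1 / 100)) (by
    rw [Real.dist_eq, sub_zero, abs_of_pos (lt_min (by positivity) (by norm_num))]
    exact lt_of_le_of_lt (min_le_left _ _) (by linarith))
  exact ⟨h3.1, h3.2.le⟩

theorem locdens_aux {c μ' μ ρ : ℝ} (hc : 0 < c) (hc1 : c ≤ 1 / 10) (hbig : BigD c) (hU : St_U)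
    (hμ0 : 0 < μ') (hμ : μ' < μ) (hμ1 : μ < 1) (hρ : ρ < (1 - μ) / (18 / 5 - μ)) :
    ∃ K Z0 : ℝ, 0 ≤ K ∧ ∀ Z : ℕ, Z0 ≤ Z → ∀ η : ℝ, Real.exp (-(c / 2 * Z)) ≤ η →
      η ≤ Real.exp (-(c / 2 * Z / 8)) →
      volume ({y | 1 / η * (∫ t in y..(y + η), (SG μ' c).indicator (fun _ => (1 : ℝ)) t) < ρ} ∩
        Icc (Z : ℝ) (Z + 1)) ≤ ENNReal.ofReal (K / Z) := by
  obtain ⟨ε, hε, hε1, hB, hρε⟩ := eps_choice hμ1 hρ
  obtain ⟨K1, Z1, hK1, h1⟩ := hbig ε hε
  obtain ⟨K2, Z2, hK2, h2⟩ := cntB_thin hU ε hε (ε / 4) (by positivity)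
  obtain ⟨Z3, h3⟩ := thresholds hc hc1 hε hμ
  refine ⟨K1 + K2, max Z1 (max Z2 Z3), by positivity, fun Z hZ η hη0 hη1 => ?_⟩
  have hZ1 : Z1 ≤ Z := (le_max_left _ _).trans hZ
  have hZ2 : Z2 ≤ Z := (le_max_left _ _).trans ((le_max_right _ _).trans hZ)
  have hZ3 : Z3 ≤ Z := (le_max_right _ _).trans ((le_max_right _ _).trans hZ)
  obtain ⟨hZ10, hA1, hA2, hη1', hη2', hA4⟩ := h3 Z hZ3
  have hη1a : η ≤ ε / 16 := hη1.trans hη1'
  have hη2a : η ≤ 1 / 16 := hη1.trans hη2'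
  have hηp : 0 < η := lt_of_lt_of_le (Real.exp_pos _) hη0
  have hZp : (0 : ℝ) < Z := by linarith
  have hsub : {y | 1 / η * (∫ t in y..(y + η), (SG μ' c).indicator (fun _ => (1 : ℝ)) t) < ρ} ∩
        Icc (Z : ℝ) (Z + 1) ⊆
      ({y : ℝ | ∃ H : ℝ, Real.exp ((1 - c) * y) ≤ H ∧ H ≤ Real.exp y ∧
          ε < |dens (Real.exp y) H - 1|} ∩ Icc (Z : ℝ) (Z + 1)) ∪
      ({y | ε / 4 * (η * Real.exp Z) / Z < (cntB ε Z η y : ℝ)} ∩ Icc (Z : ℝ) (Z + 1)) := by
    rintro y ⟨hy, hyI⟩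
    by_contra hcon
    rw [mem_union, not_or] at hcon
    have hn1 : ¬ (∃ H : ℝ, Real.exp ((1 - c) * y) ≤ H ∧ H ≤ Real.exp y ∧
          ε < |dens (Real.exp y) H - 1|) := fun hh => hcon.1 ⟨hh, hyI⟩
    have hn2 : ¬ (ε / 4 * (η * Real.exp Z) / Z < (cntB ε Z η y : ℝ)) :=
      fun hh => hcon.2 ⟨hh, hyI⟩
    rw [not_lt] at hn2
    have hE1 : |dens (Real.exp y) (Real.exp y * (Real.exp η - 1)) - 1| ≤ ε := by
      by_contra hc3
      push Not at hc3
      apply hn1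
      refine ⟨Real.exp y * (Real.exp η - 1), ?_, ?_, hc3⟩
      · have h4 : η ≤ Real.exp η - 1 := by have := Real.add_one_le_exp η; linarith
        calc Real.exp ((1 - c) * y) ≤ Real.exp (y + -(c / 2 * Z)) := by
              apply Real.exp_le_exp.2
              have h5 : c * (Z : ℝ) ≤ c * y := mul_le_mul_of_nonneg_left hyI.1 hc.le
              have h6 : 0 ≤ c * (Z : ℝ) := by positivity
              linarith
          _ = Real.exp y * Real.exp (-(c / 2 * Z)) := Real.exp_add _ _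
          _ ≤ Real.exp y * (Real.exp η - 1) :=
              mul_le_mul_of_nonneg_left (hη0.trans h4) (Real.exp_pos _).le
      · have h4 : Real.exp η - 1 ≤ 1 := by
          refine (exp_sub_le' hηp hη2a).trans ?_
          have : η * (1 + η) ≤ 1 / 16 * 2 := mul_le_mul hη2a (by linarith) (by linarith) (by norm_num)
          linarith
        calc Real.exp y * (Real.exp η - 1) ≤ Real.exp y * 1 :=
              mul_le_mul_of_nonneg_left h4 (Real.exp_pos _).le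
          _ = Real.exp y := mul_one _
    have hcw := core_win hc1 hε hε1 hμ0 hμ hμ1 hB hZ10 hA1 hA2 hA4 hyI.1 hyI.2 hη0 hη1a hη2a hE1 hn2
    have hy' : 1 / η * (∫ t in y..(y + η), (SG μ' c).indicator (fun _ => (1 : ℝ)) t) < ρ := hy
    linarith
  refine (measure_mono hsub).trans ((measure_union_le _ _).trans ?_)
  have hηZ : Real.exp (-((Z : ℝ) / 2)) ≤ η := by
    refine le_trans (Real.exp_le_exp.2 ?_) hη0
    have : c / 2 * Z ≤ 1 / 2 * Z := mul_le_mul_of_nonneg_right (by linarith) hZp.le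
    linarith
  calc _ ≤ ENNReal.ofReal (K1 / Z) + ENNReal.ofReal (K2 / Z) :=
        add_le_add (h1 Z hZ1) (h2 Z hZ2 η hηZ)
    _ = ENNReal.ofReal ((K1 + K2) / Z) := by
        rw [← ENNReal.ofReal_add (by positivity) (by positivity), add_div]

/-- the density function is continuous -/
lemma mu_choice {μ' ρ : ℝ} (hμ1 : μ' < 1) (hρ : ρ < (1 - μ') / (18 / 5 - μ')) :
    ∃ μ : ℝ, μ' < μ ∧ μ < 1 ∧ ρ < (1 - μ) / (18 / 5 - μ) := by
  have h1 : ContinuousAt (fun μ : ℝ => (1 - μ) / (18 / 5 - μ)) μ' := by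
    apply ContinuousAt.div
    · fun_prop
    · fun_prop
    · have : 0 < 18 / 5 - μ' := by linarith
      exact this.ne'
  have e1 := (tendsto_order.1 h1).1 ρ hρ
  have e2 : ∀ᶠ μ : ℝ in 𝓝 μ', μ < 1 := eventually_lt_nhds hμ1
  obtain ⟨r, hr, h⟩ := Metric.eventually_nhds_iff.1 (e1.and e2)
  have h3 := @h (μ' + r / 2) (by
    rw [Real.dist_eq, show μ' + r / 2 - μ' = r / 2 by ring, abs_of_pos (by positivity)]
    linarith)
  exact ⟨μ' + r / 2, by linarith, h3.2, h3.1⟩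

theorem locdens {c μ ρ : ℝ} (hc : 0 < c) (hc1 : c ≤ 1 / 10) (hbig : BigD c) (hU : St_U)
    (hμ0 : 0 < μ) (hμ1 : μ < 1) (hρ : ρ < (1 - μ) / (18 / 5 - μ)) :
    ∃ K Z0 : ℝ, 0 ≤ K ∧ ∀ Z : ℕ, Z0 ≤ Z → ∀ η : ℝ, Real.exp (-(c / 2 * Z)) ≤ η →
      η ≤ Real.exp (-(c / 2 * Z / 8)) →
      volume ({y | 1 / η * (∫ t in y..(y + η), (SG μ c).indicator (fun _ => (1 : ℝ)) t) < ρ} ∩
        Icc (Z : ℝ) (Z + 1)) ≤ ENNReal.ofReal (K / Z) := by
  obtain ⟨μ1, h1, h2, h3⟩ := mu_choice hμ1 hρ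
  exact locdens_aux hc hc1 hbig hU hμ0 h1 h2 h3

/-- the variation of the indicator -/
theorem ind_bv (S : Set ℕ) (c d σ : ℝ) (hcd : c ≤ d) (hσ : 0 ≤ σ) :
    ∫ y in c..d, |({t : ℝ | ⌊Real.exp t⌋₊ ∈ S}).indicator (fun _ => (1 : ℝ)) y -
      ({t : ℝ | ⌊Real.exp t⌋₊ ∈ S}).indicator (fun _ => (1 : ℝ)) (y - σ)| ≤
      σ * Real.exp (1 * (d + 1)) := by
  classical
  set F : ℝ → ℝ := fun y => (⌊Real.exp y⌋₊ : ℝ) with hF
  have hFm : Monotone F := by
    intro a b hab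
    exact Nat.cast_le.2 (Nat.floor_mono (Real.exp_le_exp.2 hab))
  have hF0 : ∀ y, 0 ≤ F y := fun y => Nat.cast_nonneg _
  have hms : MeasurableSet {t : ℝ | ⌊Real.exp t⌋₊ ∈ S} :=
    (Nat.measurable_floor.comp Real.measurable_exp) (MeasurableSet.of_discrete (s := S))
  set φ : ℝ → ℝ := ({t : ℝ | ⌊Real.exp t⌋₊ ∈ S}).indicator (fun _ => (1 : ℝ)) with hφ
  have hφm : Measurable φ := measurable_const.indicator hms
  have hpt : ∀ y, |φ y - φ (y - σ)| ≤ F y - F (y - σ) := by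
    intro y
    have hmono : F (y - σ) ≤ F y := hFm (by linarith)
    by_cases h : ⌊Real.exp y⌋₊ = ⌊Real.exp (y - σ)⌋₊
    · have : φ y = φ (y - σ) := by
        simp only [hφ, indicator, mem_setOf_eq, h]
      rw [this, sub_self, abs_zero]
      linarith
    · have h1 : ⌊Real.exp (y - σ)⌋₊ + 1 ≤ ⌊Real.exp y⌋₊ := by
        have h2 : ⌊Real.exp (y - σ)⌋₊ ≤ ⌊Real.exp y⌋₊ :=
          Nat.floor_mono (Real.exp_le_exp.2 (by linarith))
        omega
      have h2 : F (y - σ) + 1 ≤ F y := by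
        simp only [hF]
        exact_mod_cast h1
      have h3 : |φ y - φ (y - σ)| ≤ 1 := by
        have b1 : 0 ≤ φ y ∧ φ y ≤ 1 := by
          simp only [hφ, indicator]; split_ifs <;> norm_num
        have b2 : 0 ≤ φ (y - σ) ∧ φ (y - σ) ≤ 1 := by
          simp only [hφ, indicator]; split_ifs <;> norm_num
        rw [abs_le]
        constructor <;> linarith [b1.1, b1.2, b2.1, b2.2]
      linarith
  have hFi : ∀ a b, IntervalIntegrable F volume a b := fun a b => hFm.intervalIntegrable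
  have hFσ : Monotone (fun y => F (y - σ)) := fun a b hab => hFm (by linarith)
  have hFi2 : ∀ a b, IntervalIntegrable (fun y => F (y - σ)) volume a b :=
    fun a b => hFσ.intervalIntegrable
  have hφi : IntervalIntegrable (fun y => |φ y - φ (y - σ)|) volume c d := by
    apply ii_of_bdd (M := 1)
    · exact (hφm.sub (hφm.comp (measurable_id.sub_const σ))).abs
    · intro y
      rw [abs_abs]
      have b1 : 0 ≤ φ y ∧ φ y ≤ 1 := by
        simp only [hφ, indicator]; split_ifs <;> norm_num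
      have b2 : 0 ≤ φ (y - σ) ∧ φ (y - σ) ≤ 1 := by
        simp only [hφ, indicator]; split_ifs <;> norm_num
      rw [abs_le]
      constructor <;> linarith [b1.1, b1.2, b2.1, b2.2]
  have e1 : ∫ y in c..d, |φ y - φ (y - σ)| ≤ ∫ y in c..d, (F y - F (y - σ)) :=
    intervalIntegral.integral_mono_on hcd hφi ((hFi c d).sub (hFi2 c d)) (fun y _ => hpt y)
  have e2 : ∫ y in c..d, (F y - F (y - σ)) = (∫ y in (d - σ)..d, F y) - ∫ y in (c - σ)..c, F y := by
    rw [intervalIntegral.integral_sub (hFi c d) (hFi2 c d),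
      intervalIntegral.integral_comp_sub_right,
      intervalIntegral.integral_interval_sub_interval_comm (hFi _ _) (hFi _ _) (hFi _ _),
      intervalIntegral.integral_symm (c - σ) c, intervalIntegral.integral_symm (d - σ) d]
    ring
  have e3 : 0 ≤ ∫ y in (c - σ)..c, F y :=
    intervalIntegral.integral_nonneg (by linarith) (fun y _ => hF0 y)
  have e4 : ∫ y in (d - σ)..d, F y ≤ ∫ _y in (d - σ)..d, F d :=
    intervalIntegral.integral_mono_on (by linarith) (hFi _ _) intervalIntegrable_const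
      (fun y hy => hFm hy.2)
  rw [intervalIntegral.integral_const, smul_eq_mul, sub_sub_cancel] at e4
  have e5 : F d ≤ Real.exp (1 * (d + 1)) := by
    have h1 : F d ≤ Real.exp d := Nat.floor_le (Real.exp_pos d).le
    have h2 : Real.exp d ≤ Real.exp (1 * (d + 1)) := Real.exp_le_exp.2 (by linarith)
    linarith
  have e6 : σ * F d ≤ σ * Real.exp (1 * (d + 1)) := mul_le_mul_of_nonneg_left e5 hσ
  linarith

end Pool.Agent.U762.GP
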