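import Pool.Agent.U762.GP.Low

/-! The rising sun lemma for windows, with a general bound for the local densities. -/

set_option autoImplicit false

namespace Pool.Agent.U762.GP

open Finset Filter Topology
open Pool.Agent.R516 (pcn avg_win sun_fw Fw wp wp_nonneg wp_sum)

open Classical in
/-- the good points for the lower bound -/
theorem low_gen2 (f : ℕ → ℝ) (hf0 : ∀ n, 0 ≤ f n) (hf1 : ∀ n, f n ≤ 1)
    (N W : ℕ) (hW : 1 ≤ W) (hWN : 2 * W ≤ N) (c μ L E : ℝ) (hL : 0 < L) (hμ : 0 ≤ μ)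
    (hE : ∀ S : Finset ℕ, S ⊆ range (N - W) →
      ∑ k ∈ S, L * (∑ m ∈ Ioc k (k + W), f m) / W ≤ c * S.card + E) :
    ∃ G : Finset ℕ, G ⊆ range (N - W) ∧
      (L * (∑ m ∈ Ioc 0 N, f m - 2 * W) - E - μ * N ≤ (c - μ) * G.card) ∧
      ∀ n ∈ G, ∀ b, n ≤ b → b ≤ N → μ * ((b : ℝ) - n - W) / L ≤ ∑ m ∈ Ioc n b, f m := by
  have hW0 : (0 : ℝ) < W := by exact_mod_cast hW
  obtain ⟨N', hN'⟩ : ∃ N', N' = N - W := ⟨_, rfl⟩
  set D : ℕ → ℝ := fun n => L * (∑ m ∈ Ioc n (n + W), f m) / W with hD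
  have hDsum : ∀ n, D n = L / W * ∑ h ∈ Icc 1 W, f (n + h) := by
    intro n
    have e : ∑ h ∈ Icc 1 W, f (n + h) = ∑ m ∈ Ioc n (n + W), f m := by
      have e1 : Ioc n (n + W) = (Icc 1 W).image (fun h => n + h) := by
        ext m
        rw [Finset.mem_image, Finset.mem_Ioc]
        constructor
        · intro hm
          exact ⟨m - n, by rw [Finset.mem_Icc]; omega, by omega⟩
        · rintro ⟨h, hh, rfl⟩
          rw [Finset.mem_Icc] at hh
          omega
      rw [e1, Finset.sum_image (fun x _ y _ hxy => Nat.add_left_cancel hxy)]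
    rw [e]
    simp only [hD]
    ring
  -- rising sun
  have hsun := sun_fw (fun k => μ - D (k - 1)) N'
  set F := (range N').filter (fun k => k ∈ Fw (fun k => μ - D (k - 1)) N') with hF
  refine ⟨range N' \ F, ?_, ?_, ?_⟩
  · rw [hN']
    exact Finset.sdiff_subset
  · have h1 : ∑ k ∈ F, D k ≤ μ * F.card := by
      have e : ∑ k ∈ F, (μ - D (k + 1 - 1)) = μ * F.card - ∑ k ∈ F, D k := by
        rw [Finset.sum_sub_distrib, Finset.sum_const, nsmul_eq_mul, mul_comm]
        rfl
      linarith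
    have h2 : ∑ k ∈ range N' \ F, D k ≤ c * (range N' \ F).card + E :=
      hE _ (by rw [hN']; exact Finset.sdiff_subset)
    have h3 : L * (∑ m ∈ Ioc 0 N, f m - 2 * W) ≤ ∑ k ∈ range N', D k := by
      have h4 : W * ∑ m ∈ Ioc W N', f m ≤ ∑ n ∈ Ico 0 N', ∑ h ∈ Icc 1 W, f (n + h) := by
        have := avg_win f hf0 W W N' hW le_rfl
        rwa [Nat.sub_self] at this
      rw [← Finset.range_eq_Ico] at h4
      have h5 : ∑ k ∈ range N', D k = L / W * ∑ n ∈ range N', ∑ h ∈ Icc 1 W, f (n + h) := by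
        rw [Finset.mul_sum]
        exact Finset.sum_congr rfl fun k _ => hDsum k
      rw [h5]
      have h6 : ∑ m ∈ Ioc 0 N, f m - 2 * W ≤ ∑ m ∈ Ioc W N', f m := by
        have g1 := S_split f (Nat.zero_le W) (by omega : W ≤ N')
        have g2 := S_split f (Nat.zero_le N') (by omega : N' ≤ N)
        have g3 := S_le f hf1 0 W (Nat.zero_le _)
        have g4 := S_le f hf1 N' N (by omega)
        have g6 : (N' : ℝ) = N - W := by rw [hN', Nat.cast_sub (by omega)]
        rw [Nat.cast_zero, sub_zero] at g3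
        linarith
      calc L * (∑ m ∈ Ioc 0 N, f m - 2 * W) ≤ L * ∑ m ∈ Ioc W N', f m :=
            mul_le_mul_of_nonneg_left h6 hL.le
        _ = L / W * (W * ∑ m ∈ Ioc W N', f m) := by field_simp
        _ ≤ _ := mul_le_mul_of_nonneg_left h4 (by positivity)
    have hFs : F ⊆ range N' := Finset.filter_subset _ _
    have h7 : ∑ k ∈ range N', D k = ∑ k ∈ range N' \ F, D k + ∑ k ∈ F, D k :=
      (Finset.sum_sdiff hFs).symm
    have h8 : ((range N' \ F).card : ℝ) + F.card = N' := by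
      have := Finset.card_sdiff_add_card_eq_card hFs
      rw [Finset.card_range] at this
      exact_mod_cast this
    have h9 : (N' : ℝ) ≤ N := by exact_mod_cast (by omega : N' ≤ N)
    have h10 : μ * (((range N' \ F).card : ℝ) + F.card) ≤ μ * N := by
      rw [h8]
      exact mul_le_mul_of_nonneg_left h9 hμ
    linarith
  · intro n hn b hnb hbN
    rw [Finset.mem_sdiff, Finset.mem_range] at hn
    rcases Nat.lt_or_ge b (n + W + 1) with hb | hb
    · have h1 : (b : ℝ) - n - W ≤ 0 := by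
        have : (b : ℝ) ≤ n + W := by exact_mod_cast (by omega : b ≤ n + W)
        linarith
      have h2 : μ * ((b : ℝ) - n - W) / L ≤ 0 := by
        apply div_nonpos_of_nonpos_of_nonneg _ hL.le
        exact mul_nonpos_of_nonneg_of_nonpos hμ h1
      exact h2.trans (Finset.sum_nonneg (fun m _ => hf0 m))
    · obtain ⟨b', hb'⟩ : ∃ b', b' = b - W := ⟨_, rfl⟩
      have hnF : n ∉ Fw (fun k => μ - D (k - 1)) N' := by
        intro hh
        apply hn.2
        rw [hF, Finset.mem_filter, Finset.mem_range]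
        exact ⟨hn.1, hh⟩
      have h1 : ∑ m ∈ Ioc n b', (μ - D (m - 1)) ≤ 0 := by
        by_contra hc
        push Not at hc
        exact hnF ⟨b', by omega, by omega, hc⟩
      rw [Finset.sum_sub_distrib, Finset.sum_const, Nat.card_Ioc, nsmul_eq_mul] at h1
      have h2 : ∑ m ∈ Ioc n b', D (m - 1) = ∑ k ∈ Ico n b', D k := by
        have e : Ioc n b' = (Ico n b').image (fun n => n + 1) := by
          ext k
          rw [Finset.mem_image, Finset.mem_Ioc]
          constructor
          · intro h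
            exact ⟨k - 1, by rw [Finset.mem_Ico]; omega, by omega⟩
          · rintro ⟨n, hn, rfl⟩
            rw [Finset.mem_Ico] at hn
            omega
        rw [e, Finset.sum_image (fun x _ y _ hxy => Nat.add_right_cancel hxy)]
        rfl
      have h3 : ∑ k ∈ Ico n b', D k ≤ L * (∑ m ∈ Ioc n b, f m) := by
        have h4 : ∑ k ∈ Ico n b', D k = L / W * ∑ h ∈ Icc 1 W, ∑ k ∈ Ico n b', f (k + h) := by
          rw [Finset.sum_comm, Finset.mul_sum]
          exact Finset.sum_congr rfl fun k _ => hDsum k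
        rw [h4]
        have h5 : ∀ h ∈ Icc 1 W, ∑ k ∈ Ico n b', f (k + h) ≤ ∑ m ∈ Ioc n b, f m := by
          intro h hh
          rw [Finset.mem_Icc] at hh
          rw [← Finset.sum_image (f := f) (g := fun k => k + h)
            (fun x _ y _ hxy => Nat.add_right_cancel hxy)]
          apply Finset.sum_le_sum_of_subset_of_nonneg
          · intro m hm
            rw [Finset.mem_image] at hm
            obtain ⟨k, hk, rfl⟩ := hm
            rw [Finset.mem_Ico] at hk
            rw [Finset.mem_Ioc]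
            omega
          · intro m _ _
            exact hf0 m
        have h6 := Finset.sum_le_sum h5
        rw [Finset.sum_const (∑ m ∈ Ioc n b, f m), Nat.card_Icc, nsmul_eq_mul,
          Nat.add_sub_cancel] at h6
        calc L / W * ∑ h ∈ Icc 1 W, ∑ k ∈ Ico n b', f (k + h) ≤
              L / W * (W * (∑ m ∈ Ioc n b, f m)) :=
              mul_le_mul_of_nonneg_left h6 (by positivity)
          _ = _ := by field_simp
      rw [h2] at h1
      have h7 : ((b' - n : ℕ) : ℝ) = (b : ℝ) - n - W := by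
        rw [Nat.cast_sub (by omega), hb', Nat.cast_sub (by omega)]
        ring
      rw [h7] at h1
      rw [div_le_iff₀ hL]
      linarith

open Classical in
/-- the maximal inequality for the upper bound -/
theorem up_gen (f : ℕ → ℝ) (hf0 : ∀ n, 0 ≤ f n) (N : ℕ) (lam L : ℝ) (hL : 0 < L) :
    ∃ F : Finset ℕ, F ⊆ range N ∧ (lam * F.card ≤ L * ∑ m ∈ Ioc 0 N, f m) ∧
      ∀ n, n < N → n ∉ F → ∀ b, n < b → b ≤ N →
        L * ∑ m ∈ Ioc n b, f m ≤ lam * ((b : ℝ) - n) := by
  have hsun := sun_fw (fun m => f m - lam / L) N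
  set F := (range N).filter (fun k => k ∈ Fw (fun m => f m - lam / L) N) with hF
  refine ⟨F, Finset.filter_subset _ _, ?_, ?_⟩
  · rw [Finset.sum_sub_distrib, Finset.sum_const, nsmul_eq_mul] at hsun
    have h1 : ∑ k ∈ F, f (k + 1) ≤ ∑ m ∈ Ioc 0 N, f m := by
      rw [← Finset.sum_image (f := f) (g := fun k => k + 1)
        (fun x _ y _ hxy => Nat.add_right_cancel hxy)]
      apply Finset.sum_le_sum_of_subset_of_nonneg
      · intro m hm
        rw [Finset.mem_image] at hm
        obtain ⟨k, hk, rfl⟩ := hm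
        have := Finset.mem_range.1 (Finset.filter_subset _ _ hk)
        rw [Finset.mem_Ioc]
        omega
      · intro m _ _
        exact hf0 m
    have h2 : (F.card : ℝ) * (lam / L) ≤ ∑ m ∈ Ioc 0 N, f m := by linarith
    have h3 := mul_le_mul_of_nonneg_left h2 hL.le
    calc lam * F.card = L * ((F.card : ℝ) * (lam / L)) := by field_simp
      _ ≤ _ := h3
  · intro n hn hnF b hb1 hb2
    have h1 : ∑ m ∈ Ioc n b, (f m - lam / L) ≤ 0 := by
      by_contra hc
      push Not at hc
      apply hnF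
      rw [hF, Finset.mem_filter, Finset.mem_range]
      exact ⟨hn, ⟨b, hb1, hb2, hc⟩⟩
    rw [Finset.sum_sub_distrib, Finset.sum_const, Nat.card_Ioc, nsmul_eq_mul,
      Nat.cast_sub hb1.le] at h1
    have h2 : ∑ m ∈ Ioc n b, f m ≤ ((b : ℝ) - n) * (lam / L) := by linarith
    have h3 := mul_le_mul_of_nonneg_left h2 hL.le
    calc L * ∑ m ∈ Ioc n b, f m ≤ L * (((b : ℝ) - n) * (lam / L)) := h3
      _ = lam * ((b : ℝ) - n) := by field_simp

open Classical in
/-- both bounds in a window `(u, u + N]` -/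
theorem two_win (u N W : ℕ) (hW : 1 ≤ W) (hWN : 2 * W ≤ N) (c μ L E lam : ℝ) (hL : 0 < L)
    (hμ : 0 ≤ μ)
    (hE : ∀ S : Finset ℕ, S ⊆ range (N - W) →
      ∑ k ∈ S, L * (pcn (u + k) (u + k + W) : ℝ) / W ≤ c * S.card + E) :
    ∃ G F : Finset ℕ, G ⊆ range (N - W) ∧
      (L * ((pcn u (u + N) : ℝ) - 2 * W) - E - μ * N ≤ (c - μ) * G.card) ∧
      (lam * F.card ≤ L * (pcn u (u + N) : ℝ)) ∧
      (∀ n ∈ G, ∀ b, n ≤ b → b ≤ N → μ * ((b : ℝ) - n - W) / L ≤ (pcn (u + n) (u + b) : ℝ)) ∧
      ∀ n, n < N → n ∉ F → ∀ b, n < b → b ≤ N →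
        L * (pcn (u + n) (u + b) : ℝ) ≤ lam * ((b : ℝ) - n) := by
  obtain ⟨G, h1, h2, h3⟩ := low_gen2 (fun m => wp (u + m)) (fun n => wp_nonneg _)
    (fun n => wp_le_one _) N W hW hWN c μ L E hL hμ (fun S hS => by
      refine le_trans (le_of_eq ?_) (hE S hS)
      apply Finset.sum_congr rfl
      intro k _
      rw [wp_shift, ← add_assoc])
  obtain ⟨F, h4, h5, h6⟩ := up_gen (fun m => wp (u + m)) (fun n => wp_nonneg _) N lam L hL
  refine ⟨G, F, h1, ?_, ?_, ?_, ?_⟩
  · rw [wp_shift, add_zero] at h2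
    exact h2
  · rw [wp_shift, add_zero] at h5
    exact h5
  · intro n hn b g1 g2
    have := h3 n hn b g1 g2
    rwa [wp_shift] at this
  · intro n hn hnF b g1 g2
    have := h6 n hn hnF b g1 g2
    rwa [wp_shift] at this

/-- truncation by the second moment -/
lemma trunc_sum {S T : Finset ℕ} (hST : S ⊆ T) (D : ℕ → ℝ) {c Q : ℝ} (hc : 0 < c)
    (hQ : ∑ k ∈ T, D k ^ 2 ≤ Q) : ∑ k ∈ S, D k ≤ c * S.card + Q / c := by
  have h1 : ∀ k ∈ S, D k ≤ c + D k ^ 2 / c := by
    intro k _
    rcases le_or_gt (D k) c with h | h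
    · have : 0 ≤ D k ^ 2 / c := by positivity
      linarith
    · have : D k ≤ D k ^ 2 / c := by
        rw [le_div_iff₀ hc, sq]
        exact mul_le_mul_of_nonneg_left h.le (by linarith)
      linarith
  refine (Finset.sum_le_sum h1).trans ?_
  rw [Finset.sum_add_distrib, Finset.sum_const, nsmul_eq_mul, mul_comm, ← Finset.sum_div]
  have h2 : ∑ k ∈ S, D k ^ 2 ≤ Q :=
    (Finset.sum_le_sum_of_subset_of_nonneg hST (fun k _ _ => sq_nonneg (D k))).trans hQ
  have h3 : (∑ k ∈ S, D k ^ 2) / c ≤ Q / c := div_le_div_of_nonneg_right h2 hc.le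
  linarith

end Pool.Agent.U762.GP
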