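import Pool.Agent.U762.GP.LocE
import Pool.Agent.U762.GP.LowK

/-! Integers with the right number of primes to their right, from the length `κ log n` on. -/

set_option autoImplicit false

namespace Pool.Agent.U762.GP

open MeasureTheory Filter Topology Set
open Pool.Agent.R516 (pcn)

/-- integers with the right number of primes in all windows of length at least `K log n` to their
right -/
def GK (μ lam K c : ℝ) : Set ℕ := {n | ∀ b : ℕ, n ≤ b → K * Real.log n ≤ (b : ℝ) - n →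
  (b : ℝ) - n ≤ 2 * Real.exp ((1 - c) * Real.log n) →
  μ * ((b : ℝ) - n) ≤ pcn n b * Real.log n ∧ pcn n b * Real.log n ≤ lam * ((b : ℝ) - n)}

/-- passing from the window bound to membership in `GK` -/
lemma mem_GK_of {c μ' μ K κ lam L : ℝ} (hc1 : c ≤ 1 / 10) (hμ0 : 0 < μ') (hμ : μ' < μ)
    (hK : 0 < K) (hκ : μ * κ ≤ K * ((μ - μ') / 2)) {Z m W W1 : ℕ}
    (hZ10 : (10 : ℝ) ≤ Z) (hL1 : (Z : ℝ) + 3 ≤ L) (hL2 : L ≤ (Z : ℝ) + 4)
    (hW : (W : ℝ) ≤ κ * Z)
    (hA4 : μ' * ((Z : ℝ) + 4) ≤ (μ + μ') / 2 * Z)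
    (hlogm1 : (Z : ℝ) ≤ Real.log m) (hlogm2 : Real.log m ≤ (Z : ℝ) + 2)
    (hW1a : 2 * Real.exp ((1 - c) * ((Z : ℝ) + 2)) ≤ W1)
    (hlow : ∀ b : ℕ, m ≤ b → b ≤ m + W1 →
      μ * ((b : ℝ) - m - W) / L ≤ (pcn m b : ℝ) ∧
        L * (pcn m b : ℝ) ≤ lam * ((b : ℝ) - m)) : m ∈ GK μ' lam K c := by
  intro b hb1 hb2 hb3
  have hZp : (0 : ℝ) < Z := by linarith
  have hLp : 0 < L := by linarith
  have hbm : (b : ℝ) - m ≤ W1 := by
    refine hb3.trans (le_trans ?_ hW1a)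
    apply mul_le_mul_of_nonneg_left _ (by norm_num)
    apply Real.exp_le_exp.2
    apply mul_le_mul_of_nonneg_left hlogm2 (by linarith)
  have hbm' : b ≤ m + W1 := by
    have : (b : ℝ) ≤ m + W1 := by linarith
    exact_mod_cast this
  obtain ⟨h1, h1u⟩ := hlow b hb1 hbm'
  set D : ℝ := (b : ℝ) - m with hD
  have hlong : K * Z ≤ D := by
    refine le_trans ?_ hb2
    exact mul_le_mul_of_nonneg_left hlogm1 hK.le
  have hD0 : 0 ≤ D := by
    refine le_trans ?_ hlong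
    positivity
  have hpc0 : (0 : ℝ) ≤ (pcn m b : ℝ) := Nat.cast_nonneg _
  have hμp : 0 < μ := hμ0.trans hμ
  have hWs : μ * W ≤ (μ - μ') / 2 * D := by
    calc μ * (W : ℝ) ≤ μ * (κ * Z) := mul_le_mul_of_nonneg_left hW hμp.le
      _ = μ * κ * Z := by ring
      _ ≤ K * ((μ - μ') / 2) * Z := mul_le_mul_of_nonneg_right hκ hZp.le
      _ = (μ - μ') / 2 * (K * Z) := by ring
      _ ≤ (μ - μ') / 2 * D := mul_le_mul_of_nonneg_left hlong (by linarith)
  constructor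
  · have h2 : μ * (D - W) ≤ (pcn m b : ℝ) * L := by
      rwa [div_le_iff₀ hLp] at h1
    have h3 : (μ + μ') / 2 * D ≤ (pcn m b : ℝ) * L := by
      have : (μ + μ') / 2 * D = μ * (D - W) + (μ * W - (μ - μ') / 2 * D) := by ring
      linarith
    have h4 : (μ + μ') / 2 * D * Z ≤ (pcn m b : ℝ) * L * Z :=
      mul_le_mul_of_nonneg_right h3 hZp.le
    have h5 : (pcn m b : ℝ) * (L * Z) ≤ (pcn m b : ℝ) * (Real.log m * (Z + 4)) := by
      apply mul_le_mul_of_nonneg_left _ hpc0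
      calc L * Z ≤ (Z + 4) * Real.log m := mul_le_mul hL2 hlogm1 hZp.le (by linarith)
        _ = Real.log m * (Z + 4) := by ring
    have h6 : D * (μ' * (Z + 4)) ≤ D * ((μ + μ') / 2 * Z) := mul_le_mul_of_nonneg_left hA4 hD0
    have h7 : μ' * D * (Z + 4) ≤ (pcn m b : ℝ) * Real.log m * (Z + 4) := by
      calc μ' * D * (Z + 4) = D * (μ' * (Z + 4)) := by ring
        _ ≤ D * ((μ + μ') / 2 * Z) := h6
        _ = (μ + μ') / 2 * D * Z := by ring
        _ ≤ (pcn m b : ℝ) * L * Z := h4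
        _ = (pcn m b : ℝ) * (L * Z) := by ring
        _ ≤ (pcn m b : ℝ) * (Real.log m * (Z + 4)) := h5
        _ = (pcn m b : ℝ) * Real.log m * (Z + 4) := by ring
    exact le_of_mul_le_mul_right h7 (by linarith)
  · calc (pcn m b : ℝ) * Real.log m ≤ (pcn m b : ℝ) * L :=
          mul_le_mul_of_nonneg_left (by linarith) hpc0
      _ = L * (pcn m b : ℝ) := mul_comm _ _
      _ ≤ lam * D := h1u

/-- counting the good integers of a window -/
lemma cntK {e μ L cc A0 : ℝ} (he : 0 < e) (he1 : e ≤ 1 / 100) (hμ0 : 0 ≤ μ) (hμ1 : μ < 1)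
    (hcc : 1 < cc) {Z u N W W1 : ℕ} (hZ10 : (10 : ℝ) ≤ Z)
    (hL1 : (Z : ℝ) + 3 ≤ L) (hW : 1 ≤ W) (hWN : 2 * (W : ℝ) * L ≤ e * N)
    (hA0 : 0 < A0) (hA : A0 * (cc - μ) ≤ 1 - 5 * e - μ)
    (hP : (1 - 2 * e) * N ≤ L * (pcn u (u + N) : ℝ)) (hP2 : L * (pcn u (u + N) : ℝ) ≤ 2 * N)
    (hW1c : (W1 : ℝ) + 1 ≤ A0 / 4 * N)
    (hM : ∑ k ∈ Finset.range N, (L * (pcn (u + k) (u + k + W) : ℝ) / W) ^ 2 ≤ cc * (e * N)) :
    ∃ T : Finset ℕ, A0 / 2 * N ≤ T.card ∧
      ∀ m ∈ T, u < m ∧ m + W1 ≤ u + N ∧ ∀ b : ℕ, m ≤ b → b ≤ m + W1 →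
        μ * ((b : ℝ) - m - W) / L ≤ (pcn m b : ℝ) ∧
        L * (pcn m b : ℝ) ≤ 8 / A0 * ((b : ℝ) - m) := by
  classical
  have hZp : (0 : ℝ) < Z := by linarith
  have hLp : 0 < L := by linarith
  have hN0 : (0 : ℝ) ≤ N := Nat.cast_nonneg _
  have hcc0 : 0 < cc := by linarith
  have hWN' : 2 * W ≤ N := by
    have h1 : 2 * (W : ℝ) ≤ N := by
      have h2 : 2 * (W : ℝ) * 1 ≤ 2 * (W : ℝ) * L :=
        mul_le_mul_of_nonneg_left (by linarith) (by positivity)
      have h3 : e * (N : ℝ) ≤ 1 * N := mul_le_mul_of_nonneg_right (by linarith) hN0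
      linarith
    exact_mod_cast h1
  obtain ⟨G, F, hG1, hG2, hF2, hG3, hF3⟩ := two_win u N W hW hWN' cc μ L (cc * (e * N) / cc)
    (8 / A0) hLp hμ0 (by
      intro S hS
      exact trunc_sum (hS.trans (Finset.range_subset_range.2 (Nat.sub_le _ _)))
        (fun k => L * (pcn (u + k) (u + k + W) : ℝ) / W) hcc0 hM)
  have hEe : cc * (e * (N : ℝ)) / cc = e * N := by field_simp
  rw [hEe] at hG2
  have hccμ : 0 < cc - μ := by linarith
  have hGc : A0 * N ≤ G.card := by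
    have h1 : L * ((pcn u (u + N) : ℝ) - 2 * W) = L * (pcn u (u + N) : ℝ) - 2 * (W : ℝ) * L := by
      ring
    rw [h1] at hG2
    have h2 : (1 - 5 * e - μ) * N ≤ (cc - μ) * G.card := by
      have : 0 ≤ e * (N : ℝ) := by positivity
      linarith
    have h3 : A0 * (cc - μ) * N ≤ (1 - 5 * e - μ) * N := mul_le_mul_of_nonneg_right hA hN0
    have h4 : (cc - μ) * (A0 * N) ≤ (cc - μ) * G.card := by linarith
    exact le_of_mul_le_mul_left h4 hccμ
  have hFc : (F.card : ℝ) ≤ A0 / 4 * N := by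
    have h1 : 8 / A0 * F.card ≤ 2 * N := hF2.trans hP2
    rw [div_mul_eq_mul_div, div_le_iff₀ hA0] at h1
    linarith
  set T : Finset ℕ := (G.filter (fun n => (1 ≤ n ∧ n + W1 ≤ N) ∧ n ∉ F)).image
    (fun n => u + n) with hT
  have hTc : (G.card : ℝ) - F.card - W1 - 1 ≤ T.card := by
    have h1 : T.card = (G.filter (fun n => (1 ≤ n ∧ n + W1 ≤ N) ∧ n ∉ F)).card := by
      rw [hT]
      apply Finset.card_image_of_injective
      intro a b hab
      exact Nat.add_left_cancel hab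
    have h2 : G.card ≤ (G.filter (fun n => (1 ≤ n ∧ n + W1 ≤ N) ∧ n ∉ F)).card +
        (W1 + 1 + F.card) := by
      rw [← Finset.card_filter_add_card_filter_not (s := G)
        (fun n => (1 ≤ n ∧ n + W1 ≤ N) ∧ n ∉ F)]
      apply Nat.add_le_add_left
      have h3 : G.filter (fun n => ¬ ((1 ≤ n ∧ n + W1 ≤ N) ∧ n ∉ F)) ⊆
          insert 0 (Finset.Ioc (N - W1) N) ∪ F := by
        intro n hn
        rw [Finset.mem_filter] at hn
        have h4 := Finset.mem_range.1 (hG1 hn.1)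
        rw [Finset.mem_union, Finset.mem_insert, Finset.mem_Ioc]
        by_cases h7 : n ∈ F
        · right; exact h7
        left
        by_cases h5 : n = 0
        · left; exact h5
        · right
          have h6 : ¬ (n + W1 ≤ N) := fun hh => hn.2 ⟨⟨by omega, hh⟩, h7⟩
          omega
      refine (Finset.card_le_card h3).trans ((Finset.card_union_le _ _).trans ?_)
      apply Nat.add_le_add_right
      refine (Finset.card_insert_le _ _).trans ?_
      rw [Nat.card_Ioc]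
      omega
    rw [h1]
    have h3 : (G.card : ℝ) ≤ (G.filter (fun n => (1 ≤ n ∧ n + W1 ≤ N) ∧ n ∉ F)).card +
        (W1 + 1 + F.card) := by
      exact_mod_cast h2
    linarith
  refine ⟨T, by linarith, ?_⟩
  intro m hm
  rw [hT, Finset.mem_image] at hm
  obtain ⟨n, hn, rfl⟩ := hm
  rw [Finset.mem_filter] at hn
  refine ⟨by omega, by omega, ?_⟩
  intro b hb1 hb2
  obtain ⟨b', rfl⟩ : ∃ b', b = u + b' := ⟨b - u, by omega⟩
  have hbm2 : ((u + b' : ℕ) : ℝ) - ((u + n : ℕ) : ℝ) = (b' : ℝ) - n := by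
    push_cast; ring
  rw [hbm2]
  refine ⟨hG3 n hn.1 b' (by omega) (by omega), ?_⟩
  rcases Nat.eq_or_lt_of_le (by omega : n ≤ b') with h | h
  · subst h
    have : pcn (u + n) (u + n) = 0 := by
      unfold pcn
      rw [Finset.Ioc_self]
      rfl
    rw [this]
    simp
  · have hnN : n < N := by
      have := Finset.mem_range.1 (hG1 hn.1)
      omega
    exact hF3 n hnN hn.2.2 b' h (by omega)

end Pool.Agent.U762.GP
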