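import Pool.Agent.U762.GP.Big
import Pool.Agent.R516.Stm
import Pool.Agent.H357R2.SI.Common

/-! Primes in long windows. -/

set_option autoImplicit false

namespace Pool.Agent.U762.GP

open MeasureTheory Filter Topology Set
open Pool.Agent.R516 (pcn)

/-- the local density of primes in `(x, x + H]` -/
noncomputable def dens (x H : ℝ) : ℝ := (pcn ⌊x⌋₊ ⌊x + H⌋₊ : ℝ) * Real.log x / H

lemma pcn_sub {a b : ℕ} (hab : a ≤ b) :
    (pcn a b : ℝ) = Nat.primeCounting b - Nat.primeCounting a :=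
  Pool.Agent.H357R2.SI.pc_eq_sub hab

/-- windows of length `≍ x`: the prime number theorem -/
theorem prm_long (δ δ1 : ℝ) (hδ : 0 < δ) (hδ1 : 0 < δ1) : ∃ y0 : ℝ, ∀ y : ℝ, y0 ≤ y → ∀ H : ℝ,
    δ1 * Real.exp y ≤ H → H ≤ Real.exp y → |dens (Real.exp y) H - 1| ≤ δ := by
  set e : ℝ := min (δ * δ1 / 20) (1 / 10) with he
  have he0 : 0 < e := lt_min (by positivity) (by norm_num)
  have he1 : e ≤ 1 / 10 := min_le_right _ _
  have he2 : e ≤ δ * δ1 / 20 := min_le_left _ _
  have hp := Pool.Agent.Helper923.PNT.pi_tendsto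
  obtain ⟨X, hX⟩ := (Metric.tendsto_atTop.1 hp) e he0
  refine ⟨max (Real.log (max X 1)) (1 / e), fun y hy H h1 h2 => ?_⟩
  set x : ℝ := Real.exp y with hx
  have hx0 : 0 < x := Real.exp_pos y
  have hy0 : 1 / e ≤ y := (le_max_right _ _).trans hy
  have hyp : 0 < y := lt_of_lt_of_le (by positivity) hy0
  have hXx : X ≤ x := by
    have h3 : Real.log (max X 1) ≤ y := (le_max_left _ _).trans hy
    rw [Real.log_le_iff_le_exp (lt_of_lt_of_le one_pos (le_max_right _ _))] at h3
    exact (le_max_left _ _).trans h3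
  have hH0 : 0 < H := lt_of_lt_of_le (by positivity) h1
  have hxl : Real.log x = y := Real.log_exp y
  have hxl2 : y ≤ Real.log (x + H) := by
    rw [← hxl]; exact Real.log_le_log hx0 (by linarith)
  have hxl3 : Real.log (x + H) ≤ (1 + e) * y := by
    have h3 : Real.log (x + H) ≤ Real.log (2 * x) := Real.log_le_log (by linarith) (by linarith)
    rw [Real.log_mul (by norm_num) hx0.ne', hxl] at h3
    have h4 : 1 ≤ e * y := by
      rw [div_le_iff₀ he0] at hy0; linarith
    have h5 := Real.log_two_lt_d9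
    linarith
  have hA := hX x hXx
  have hB := hX (x + H) (by linarith)
  rw [Real.dist_eq, abs_lt] at hA hB
  rw [hxl] at hA
  set pA : ℝ := (Nat.primeCounting ⌊x⌋₊ : ℝ) with hpA
  set pB : ℝ := (Nat.primeCounting ⌊x + H⌋₊ : ℝ) with hpB
  have hA1 : (1 - e) * x ≤ pA * y := by
    have : 1 - e ≤ pA * y / x := by linarith [hA.1]
    rwa [le_div_iff₀ hx0] at this
  have hA2 : pA * y ≤ (1 + e) * x := by
    have : pA * y / x ≤ 1 + e := by linarith [hA.2]
    rwa [div_le_iff₀ hx0] at this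
  have hxH : 0 < x + H := by linarith
  have hB1 : (1 - e) * (x + H) ≤ pB * Real.log (x + H) := by
    have : 1 - e ≤ pB * Real.log (x + H) / (x + H) := by linarith [hB.1]
    rwa [le_div_iff₀ hxH] at this
  have hB2 : pB * Real.log (x + H) ≤ (1 + e) * (x + H) := by
    have : pB * Real.log (x + H) / (x + H) ≤ 1 + e := by linarith [hB.2]
    rwa [div_le_iff₀ hxH] at this
  have hpB0 : 0 ≤ pB := Nat.cast_nonneg _
  have hB3 : pB * y ≤ (1 + e) * (x + H) := (mul_le_mul_of_nonneg_left hxl2 hpB0).trans hB2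
  have hB4 : (1 - e) * (x + H) ≤ (1 + e) * (pB * y) := by
    refine hB1.trans ((mul_le_mul_of_nonneg_left hxl3 hpB0).trans (le_of_eq ?_))
    ring
  have hB5 : (1 - 3 * e) * (x + H) ≤ pB * y := by
    have h3 : (1 - 3 * e) * ((1 + e) * (x + H)) ≤ (1 - e) * (x + H) := by
      have : 0 ≤ (3 * e ^ 2 + e) * (x + H) := by positivity
      nlinarith
    have h4 : (1 + e) * ((1 - 3 * e) * (x + H)) ≤ (1 + e) * (pB * y) := by linarith
    exact le_of_mul_le_mul_left h4 (by linarith)
  unfold dens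
  rw [pcn_sub (Nat.floor_le_floor (by linarith)), hxl]
  have h6 : |(pB - pA) * y - H| ≤ 10 * e * x := by
    rw [abs_le]
    constructor
    · nlinarith
    · nlinarith
  have h7 : (pB - pA) * y / H - 1 = ((pB - pA) * y - H) / H := by field_simp
  rw [h7, abs_div, abs_of_pos hH0, div_le_iff₀ hH0]
  refine h6.trans ?_
  calc 10 * e * x ≤ 10 * (δ * δ1 / 20) * x := by
        apply mul_le_mul_of_nonneg_right _ hx0.le
        linarith
    _ = δ / 2 * (δ1 * x) := by ring
    _ ≤ δ * (δ1 * x) := by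
        apply mul_le_mul_of_nonneg_right _ (by positivity)
        linarith
    _ ≤ δ * H := mul_le_mul_of_nonneg_left h1 hδ.le

/-- prime powers are negligible -/
lemma pp_small (x H : ℝ) (hx : 1 ≤ x) (hH : 0 ≤ H) (hHx : H ≤ x) :
    ∑ n ∈ (Finset.Ioc ⌊x⌋₊ ⌊x + H⌋₊).filter (fun n => ¬ n.Prime),
      ArithmeticFunction.vonMangoldt n ≤ 4 * Real.sqrt x * Real.log (2 * x) := by
  have h1 : ∑ n ∈ (Finset.Ioc ⌊x⌋₊ ⌊x + H⌋₊).filter (fun n => ¬ n.Prime),
      ArithmeticFunction.vonMangoldt n ≤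
      ∑ n ∈ (Finset.Ioc 0 ⌊2 * x⌋₊).filter (fun n => ¬ n.Prime),
        ArithmeticFunction.vonMangoldt n := by
    apply Finset.sum_le_sum_of_subset_of_nonneg
    · apply Finset.filter_subset_filter
      apply Finset.Ioc_subset_Ioc (Nat.zero_le _)
      exact Nat.floor_le_floor (by linarith)
    · intro n _ _
      exact ArithmeticFunction.vonMangoldt_nonneg
  refine h1.trans ?_
  have h2 : ∑ n ∈ (Finset.Ioc 0 ⌊2 * x⌋₊).filter (fun n => ¬ n.Prime),
        ArithmeticFunction.vonMangoldt n = Chebyshev.psi (2 * x) - Chebyshev.theta (2 * x) := by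
    unfold Chebyshev.psi Chebyshev.theta
    rw [← Finset.sum_filter_add_sum_filter_not (Finset.Ioc 0 ⌊2 * x⌋₊) (fun n => n.Prime)]
    have : ∑ n ∈ (Finset.Ioc 0 ⌊2 * x⌋₊).filter (fun n => n.Prime),
        ArithmeticFunction.vonMangoldt n =
        ∑ n ∈ (Finset.Ioc 0 ⌊2 * x⌋₊).filter (fun n => n.Prime), Real.log n := by
      apply Finset.sum_congr rfl
      intro n hn
      rw [Finset.mem_filter] at hn
      exact ArithmeticFunction.vonMangoldt_apply_prime hn.2
    rw [this]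
    ring
  rw [h2]
  have h3 := Chebyshev.abs_psi_sub_theta_le_sqrt_mul_log (x := 2 * x) (by linarith)
  have h4 : Real.sqrt (2 * x) ≤ 2 * Real.sqrt x := by
    rw [Real.sqrt_mul (by norm_num)]
    apply mul_le_mul_of_nonneg_right _ (Real.sqrt_nonneg _)
    rw [Real.sqrt_le_left (by norm_num)]
    norm_num
  have h5 : 0 ≤ Real.log (2 * x) := Real.log_nonneg (by linarith)
  refine (le_abs_self _).trans (h3.trans ?_)
  nlinarith [mul_le_mul_of_nonneg_right h4 h5]

end Pool.Agent.U762.GP
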