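import Pool.Agent.U762.GP.Prm

/-! Primes in all windows longer than `x ^ (1 - c)`. -/

set_option autoImplicit false

namespace Pool.Agent.U762.GP

open MeasureTheory Filter Topology Set
open Pool.Agent.R516 (pcn)

open Classical in
/-- from the weighted count to the number of primes -/
theorem prm_short {y H d : ℝ} (hd : 0 < d) (hd1 : d ≤ 1 / 10) (hy : 1 / d ≤ y) (hH : 0 < H)
    (h1 : H ≤ d * Real.exp y)
    (hpp : 4 * Real.sqrt (Real.exp y) * Real.log (2 * Real.exp y) ≤ d * H)
    (hTh : |Th y (Real.log (1 + H / Real.exp y)) - Real.log (1 + H / Real.exp y)| ≤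
      d * Real.log (1 + H / Real.exp y)) :
    |dens (Real.exp y) H - 1| ≤ 5 * d := by
  set x : ℝ := Real.exp y with hx
  have hx0 : 0 < x := Real.exp_pos y
  have hyp : 0 < y := lt_of_lt_of_le (by positivity) hy
  have hx1 : 1 ≤ x := Real.one_le_exp hyp.le
  have hxl : Real.log x = y := Real.log_exp y
  set η : ℝ := Real.log (1 + H / x) with hη
  have hu0 : 0 < H / x := by positivity
  have hud : H / x ≤ d := by rwa [div_le_iff₀ hx0]
  have hη1 : η ≤ H / x := by
    rw [hη, Real.log_le_iff_le_exp (by linarith)]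
    have := Real.add_one_le_exp (H / x)
    linarith
  have hη2 : (1 - d) * (H / x) ≤ η := by
    have h2 := Real.one_sub_inv_le_log_of_pos (by linarith : 0 < 1 + H / x)
    refine le_trans ?_ h2
    have h3 : 1 - (1 + H / x)⁻¹ = (H / x) / (1 + H / x) := by
      field_simp
      ring
    rw [h3, le_div_iff₀ (by linarith)]
    have h4 : (1 - d) * (1 + H / x) ≤ 1 := by nlinarith
    have h5 := mul_le_mul_of_nonneg_left h4 hu0.le
    linarith
  have hη0 : 0 < η := lt_of_lt_of_le (mul_pos (by linarith) hu0) hη2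
  have hxe : Real.exp (y + η) = x + H := by
    rw [Real.exp_add, ← hx, hη, Real.exp_log (by linarith)]
    field_simp
  have hThe : Th y η = ∑ n ∈ Finset.Ioc ⌊x⌋₊ ⌊x + H⌋₊,
      ArithmeticFunction.vonMangoldt n / (n : ℝ) := by
    unfold Th
    rw [hxe]
  set S := Finset.Ioc ⌊x⌋₊ ⌊x + H⌋₊ with hS
  set P : ℝ := (pcn ⌊x⌋₊ ⌊x + H⌋₊ : ℝ) with hP
  have hPc : P = ((S.filter Nat.Prime).card : ℝ) := rfl
  have hmem : ∀ n ∈ S, 0 < (n : ℝ) ∧ x < n ∧ (n : ℝ) ≤ x + H := by
    intro n hn
    rw [hS, Finset.mem_Ioc] at hn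
    have h2 : x < n := (Nat.floor_lt hx0.le).1 hn.1
    have h3 : (n : ℝ) ≤ x + H := (Nat.le_floor_iff (by linarith)).1 hn.2
    exact ⟨by linarith, h2, h3⟩
  -- upper bound
  have hup : P * y / (x + H) ≤ Th y η := by
    rw [hThe, hPc]
    calc ((S.filter Nat.Prime).card : ℝ) * y / (x + H) =
        ∑ n ∈ S.filter Nat.Prime, y / (x + H) := by
          rw [Finset.sum_const, nsmul_eq_mul]; ring
      _ ≤ ∑ n ∈ S.filter Nat.Prime, ArithmeticFunction.vonMangoldt n / (n : ℝ) := by
          apply Finset.sum_le_sum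
          intro n hn
          rw [Finset.mem_filter] at hn
          obtain ⟨g0, g1, g2⟩ := hmem n hn.1
          rw [ArithmeticFunction.vonMangoldt_apply_prime hn.2]
          have g3 : y ≤ Real.log n := by rw [← hxl]; exact Real.log_le_log hx0 g1.le
          exact div_le_div₀ (by linarith) g3 g0 g2
      _ ≤ ∑ n ∈ S, ArithmeticFunction.vonMangoldt n / (n : ℝ) := by
          apply Finset.sum_le_sum_of_subset_of_nonneg (Finset.filter_subset _ _)
          intro n _ _
          exact vm_nonneg n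
  -- lower bound
  have hlow : Th y η ≤ P * (y + η) / x + d * H / x := by
    rw [hThe, ← Finset.sum_filter_add_sum_filter_not S Nat.Prime]
    apply add_le_add
    · rw [hPc]
      calc ∑ n ∈ S.filter Nat.Prime, ArithmeticFunction.vonMangoldt n / (n : ℝ) ≤
          ∑ n ∈ S.filter Nat.Prime, (y + η) / x := by
            apply Finset.sum_le_sum
            intro n hn
            rw [Finset.mem_filter] at hn
            obtain ⟨g0, g1, g2⟩ := hmem n hn.1
            rw [ArithmeticFunction.vonMangoldt_apply_prime hn.2]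
            have g3 : Real.log n ≤ y + η := by
              rw [Real.log_le_iff_le_exp g0, hxe]; exact g2
            exact div_le_div₀ (by linarith) g3 hx0 g1.le
        _ = _ := by rw [Finset.sum_const, nsmul_eq_mul]; ring
    · calc ∑ n ∈ S.filter (fun n => ¬ n.Prime), ArithmeticFunction.vonMangoldt n / (n : ℝ) ≤
          ∑ n ∈ S.filter (fun n => ¬ n.Prime), ArithmeticFunction.vonMangoldt n / x := by
            apply Finset.sum_le_sum
            intro n hn
            rw [Finset.mem_filter] at hn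
            obtain ⟨g0, g1, g2⟩ := hmem n hn.1
            exact div_le_div_of_nonneg_left ArithmeticFunction.vonMangoldt_nonneg hx0 g1.le
        _ = (∑ n ∈ S.filter (fun n => ¬ n.Prime), ArithmeticFunction.vonMangoldt n) / x := by
            rw [Finset.sum_div]
        _ ≤ d * H / x := by
            apply div_le_div_of_nonneg_right _ hx0.le
            refine (pp_small x H hx1 hH.le (by nlinarith)).trans hpp
  rw [abs_le] at hTh
  have hd2 : dens x H = P * y / H := by unfold dens; rw [hxl]
  rw [hd2, abs_le]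
  have hP0 : 0 ≤ P := Nat.cast_nonneg _
  -- multiply out
  have hup2 : P * y ≤ (1 + d) * (H / x) * (x + H) := by
    have h2 : P * y / (x + H) ≤ (1 + d) * (H / x) := by
      refine hup.trans ?_
      have h3 : Th y η ≤ (1 + d) * η := by linarith [hTh.2]
      exact h3.trans (mul_le_mul_of_nonneg_left hη1 (by linarith))
    rwa [div_le_iff₀ (by linarith)] at h2
  have hup3 : (1 + d) * (H / x) * (x + H) = (1 + d) * (1 + H / x) * H := by field_simp
  have hlow2 : ((1 - d) * (1 - d) - d) * H ≤ P * (y + η) := by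
    have h2 : (1 - d) * ((1 - d) * (H / x)) ≤ P * (y + η) / x + d * H / x := by
      refine le_trans ?_ hlow
      have h3 : (1 - d) * η ≤ Th y η := by linarith [hTh.1]
      exact (mul_le_mul_of_nonneg_left hη2 (by linarith)).trans h3
    have h3 : x * ((1 - d) * ((1 - d) * (H / x))) ≤ x * (P * (y + η) / x + d * H / x) :=
      mul_le_mul_of_nonneg_left h2 hx0.le
    have h4 : x * ((1 - d) * ((1 - d) * (H / x))) = (1 - d) * (1 - d) * H := by field_simp
    have h5 : x * (P * (y + η) / x + d * H / x) = P * (y + η) + d * H := by field_simp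
    linarith
  have hyη : y + η ≤ (1 + d) * y := by
    have h2 : 1 ≤ d * y := by rw [div_le_iff₀ hd] at hy; linarith
    have h3 : η ≤ 1 := by linarith
    linarith
  have hlow3 : ((1 - d) * (1 - d) - d) * H ≤ (1 + d) * (P * y) := by
    refine hlow2.trans ((mul_le_mul_of_nonneg_left hyη hP0).trans (le_of_eq ?_))
    ring
  constructor
  · have h2 : (1 - 5 * d) * H ≤ P * y := by
      have h3 : (1 + d) * ((1 - 5 * d) * H) ≤ ((1 - d) * (1 - d) - d) * H := by
        have : 0 ≤ (d + 6 * d ^ 2) * H := by positivity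
        nlinarith
      have h4 : (1 + d) * ((1 - 5 * d) * H) ≤ (1 + d) * (P * y) := h3.trans hlow3
      exact le_of_mul_le_mul_left h4 (by linarith)
    have h3 : 1 - 5 * d ≤ P * y / H := by rwa [le_div_iff₀ hH]
    linarith
  · have h2 : P * y ≤ (1 + 5 * d) * H := by
      rw [hup3] at hup2
      refine hup2.trans (mul_le_mul_of_nonneg_right ?_ hH.le)
      nlinarith
    have h3 : P * y / H ≤ 1 + 5 * d := by rwa [div_le_iff₀ hH]
    linarith

/-- **all windows longer than `x ^ (1 - c)`, at almost all points** -/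
theorem bigD (hKT : KT4) : ∃ c : ℝ, 0 < c ∧ c ≤ 1 / 10 ∧ ∀ δ : ℝ, 0 < δ → ∃ K Z1 : ℝ, 0 ≤ K ∧
    ∀ Z : ℕ, Z1 ≤ Z →
      volume ({y : ℝ | ∃ H : ℝ, Real.exp ((1 - c) * y) ≤ H ∧ H ≤ Real.exp y ∧
          δ < |dens (Real.exp y) H - 1|} ∩ Icc (Z : ℝ) (Z + 1)) ≤ ENNReal.ofReal (K / Z) := by
  obtain ⟨c, hc0, hc1, hc⟩ := bigTh hKT
  refine ⟨c / 2, by positivity, by linarith, fun δ hδ => ?_⟩
  set d : ℝ := min (δ / 5) (1 / 10) with hd
  have hd0 : 0 < d := lt_min (by positivity) (by norm_num)
  have hd1 : d ≤ 1 / 10 := min_le_right _ _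
  have hd2 : 5 * d ≤ δ := by
    have : d ≤ δ / 5 := min_le_left _ _
    linarith
  obtain ⟨K, Z1, hK, hZ1⟩ := hc d hd0
  obtain ⟨y0, hy0⟩ := prm_long δ d hδ hd0
  obtain ⟨y1, hy1⟩ : ∃ y1 : ℝ, ∀ y : ℝ, y1 ≤ y →
      4 * Real.sqrt (Real.exp y) * Real.log (2 * Real.exp y) ≤
        d * Real.exp ((1 - c / 2) * y) ∧ Real.exp (-(c * y)) ≤ (1 - d) * Real.exp (-(c / 2 * y)) := by
    have t1 : ∀ᶠ y : ℝ in atTop, 4 * Real.sqrt (Real.exp y) * Real.log (2 * Real.exp y) ≤
        d * Real.exp ((1 - c / 2) * y) := by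
      have t2 : Tendsto (fun y : ℝ => y * Real.exp (-(1 / 4) * y)) atTop (𝓝 0) := by
        have := Real.tendsto_pow_mul_exp_neg_atTop_nhds_zero 1
        have h2 := this.comp ((tendsto_id (α := ℝ)).const_mul_atTop (by norm_num : (0:ℝ) < 1 / 4))
        have h3 := h2.const_mul 4
        rw [mul_zero] at h3
        refine h3.congr fun y => ?_
        simp only [Function.comp, id, pow_one]
        rw [show -(1 / 4 * y) = -(1 / 4) * y by ring]
        ring
      have t3 := (tendsto_order.1 t2).2 (d / 8) (by positivity)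
      filter_upwards [t3, eventually_ge_atTop (1 : ℝ)] with y h1 h2
      have e1 : Real.sqrt (Real.exp y) = Real.exp (y / 2) := by
        rw [Real.exp_half]
      have e2 : Real.log (2 * Real.exp y) = Real.log 2 + y := by
        rw [Real.log_mul (by norm_num) (Real.exp_pos _).ne', Real.log_exp]
      rw [e1, e2]
      have h3 : Real.log 2 ≤ 1 := by have := Real.log_two_lt_d9; linarith
      have h4 : y < d / 8 * Real.exp (1 / 4 * y) := by
        have h5 : y * Real.exp (-(1 / 4) * y) * Real.exp (1 / 4 * y) <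
            d / 8 * Real.exp (1 / 4 * y) := mul_lt_mul_of_pos_right h1 (Real.exp_pos _)
        rwa [mul_assoc, ← Real.exp_add, show -(1 / 4) * y + 1 / 4 * y = 0 by ring,
          Real.exp_zero, mul_one] at h5
      calc 4 * Real.exp (y / 2) * (Real.log 2 + y) ≤ 4 * Real.exp (y / 2) * (2 * y) := by
            apply mul_le_mul_of_nonneg_left _ (by positivity)
            linarith
        _ ≤ 4 * Real.exp (y / 2) * (2 * (d / 8 * Real.exp (1 / 4 * y))) := by
            apply mul_le_mul_of_nonneg_left _ (by positivity)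
            linarith
        _ = d * (Real.exp (y / 2) * Real.exp (1 / 4 * y)) := by ring
        _ ≤ d * Real.exp ((1 - c / 2) * y) := by
            apply mul_le_mul_of_nonneg_left _ hd0.le
            rw [← Real.exp_add]
            apply Real.exp_le_exp.2
            nlinarith
    have t2 : ∀ᶠ y : ℝ in atTop, Real.exp (-(c * y)) ≤ (1 - d) * Real.exp (-(c / 2 * y)) := by
      have t3 : Tendsto (fun y : ℝ => Real.exp (c / 2 * y)) atTop atTop :=
        Real.tendsto_exp_atTop.comp (tendsto_id.const_mul_atTop (by positivity))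
      filter_upwards [t3.eventually_ge_atTop (1 / (1 - d))] with y hy
      have h1 : Real.exp (-(c / 2 * y)) = Real.exp (c / 2 * y) * Real.exp (-(c * y)) := by
        rw [← Real.exp_add]; congr 1; ring
      rw [h1]
      have h2 : 1 ≤ (1 - d) * Real.exp (c / 2 * y) := by
        rw [div_le_iff₀ (by linarith)] at hy
        linarith
      nlinarith [Real.exp_pos (-(c * y))]
    obtain ⟨y1, hy1⟩ := eventually_atTop.1 (t1.and t2)
    exact ⟨y1, hy1⟩
  refine ⟨K, max (max Z1 y0) (max y1 (1 / d)), hK, fun Z hZ => ?_⟩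
  have g1 : Z1 ≤ Z := ((le_max_left _ _).trans (le_max_left _ _)).trans hZ
  have g2 : y0 ≤ Z := ((le_max_right _ _).trans (le_max_left _ _)).trans hZ
  have g3 : y1 ≤ Z := ((le_max_left _ _).trans (le_max_right _ _)).trans hZ
  have g4 : 1 / d ≤ Z := ((le_max_right _ _).trans (le_max_right _ _)).trans hZ
  refine (measure_mono ?_).trans (hZ1 Z g1)
  rintro y ⟨⟨H, h1, h2, h3⟩, hy⟩
  refine ⟨?_, hy⟩
  have hyZ : (Z : ℝ) ≤ y := hy.1
  set x : ℝ := Real.exp y with hx
  have hx0 : 0 < x := Real.exp_pos y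
  have hH0 : 0 < H := lt_of_lt_of_le (Real.exp_pos _) h1
  obtain ⟨k1, k2⟩ := hy1 y (by linarith)
  have hHd : H < d * x := by
    by_contra hcon
    rw [not_lt] at hcon
    exact absurd (hy0 y (by linarith) H hcon h2) (not_le.2 h3)
  refine ⟨Real.log (1 + H / x), ?_, ?_, ?_⟩
  · have hud : H / x ≤ d := by rw [div_le_iff₀ hx0]; exact hHd.le
    have hu0 : 0 < H / x := by positivity
    have h4 := Real.one_sub_inv_le_log_of_pos (by linarith : 0 < 1 + H / x)
    have h5 : (1 - d) * (H / x) ≤ 1 - (1 + H / x)⁻¹ := by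
      have h6 : 1 - (1 + H / x)⁻¹ = (H / x) / (1 + H / x) := by
        field_simp
        ring
      rw [h6, le_div_iff₀ (by linarith)]
      have h7 : (1 - d) * (1 + H / x) ≤ 1 := by nlinarith
      have h8 := mul_le_mul_of_nonneg_left h7 hu0.le
      linarith
    refine k2.trans (le_trans ?_ (h5.trans h4))
    apply mul_le_mul_of_nonneg_left _ (by linarith)
    rw [le_div_iff₀ hx0, hx, ← Real.exp_add]
    refine le_trans (le_of_eq ?_) h1
    congr 1
    ring
  · rw [Real.log_le_iff_le_exp (by positivity)]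
    have h4 : H / x ≤ 1 := by rw [div_le_iff₀ hx0]; linarith
    have := Real.add_one_le_exp (1 : ℝ)
    linarith
  · by_contra hcon
    rw [not_lt] at hcon
    have h4 := prm_short hd0 hd1 (y := y) (H := H) (by linarith) hH0 hHd.le
      (k1.trans (mul_le_mul_of_nonneg_left h1 hd0.le)) hcon
    exact absurd (h4.trans hd2) (not_le.2 h3)

end Pool.Agent.U762.GP
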