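import Pool.Agent.U762.GP.Thin

/-! Transfer of local lower bounds to almost all sequences `s n * β`. -/

set_option autoImplicit false

namespace Pool.Agent.U762.GP

open MeasureTheory Filter Topology Set

variable {s w : ℕ → ℝ} {C : ℝ}

open Classical in
/-- **sampling principle** -/
theorem samp (hW : WS s w C) (hWi : Tendsto (fun N => ∑ n ∈ Finset.range N, w n) atTop atTop)
    {φ : ℝ → ℝ} (hφ : Measurable φ) {M : ℝ} (h0 : ∀ y, 0 ≤ φ y) (hM : ∀ y, φ y ≤ M)
    {lam : ℝ} (hlam : 0 ≤ lam)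
    (hBV : ∀ c d σ : ℝ, c ≤ d → 0 ≤ d → 0 ≤ σ →
      ∫ y in c..d, |φ y - φ (y - σ)| ≤ σ * Real.exp (lam * (d + 1)))
    {c1 K ρ Z0 : ℝ} (hc1 : 0 < c1) (hK : 0 ≤ K)
    (hLB : ∀ Z : ℕ, Z0 ≤ Z → ∀ η : ℝ, Real.exp (-(c1 * Z)) ≤ η → η ≤ Real.exp (-(c1 * Z / 8)) →
      volume ({y | 1 / η * (∫ t in y..(y + η), φ t) < ρ} ∩ Icc (Z : ℝ) (Z + 1)) ≤
        ENNReal.ofReal (K / Z))
    {a b : ℝ} (ha : 0 < a) (hab : a ≤ b) (hb : b ≤ 2 * a) :
    ∀ᵐ β ∂(volume.restrict (Ioc a b)), ∀ ε : ℝ, 0 < ε → ∀ᶠ N : ℕ in atTop,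
      (ρ - ε) * ∑ n ∈ Finset.range N, w n ≤ ∑ n ∈ Finset.range N, w n * φ (s n * β) := by
  have hM0 : 0 ≤ M := (h0 0).trans (hM 0)
  have hb0 : 0 < b := by linarith
  have hsp : ∀ n, 0 < s n := fun n => by linarith [hW.s1 n]
  set κ : ℝ := c1 * a / 2 with hκ
  have hκ0 : 0 < κ := by positivity
  set f : ℕ → ℝ → ℝ := fun n β => φ (s n * β) with hf
  have hfm : ∀ n, Measurable (f n) := fun n => hφ.comp (measurable_id.const_mul (s n))
  have hfM : ∀ n x, |f n x| ≤ M := fun n x => by
    rw [abs_of_nonneg (h0 _)]; exact hM _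
  have hBV' : ∀ n, ∀ τ : ℝ, 0 ≤ τ → τ ≤ 1 →
      ∫ β in a..b, |f n β - f n (β - τ)| ≤ τ * Real.exp (lam * (b + 1) * s n) := by
    intro n τ hτ _
    have hs := hsp n
    have e : ∫ β in a..b, |f n β - f n (β - τ)| =
        (s n)⁻¹ * ∫ y in (s n * a)..(s n * b), |φ y - φ (y - s n * τ)| := by
      rw [← smul_eq_mul, ← intervalIntegral.integral_comp_mul_left
        (fun y => |φ y - φ (y - s n * τ)|) hs.ne']
      apply intervalIntegral.integral_congr
      intro β _
      simp only [hf]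
      rw [mul_sub]
    rw [e]
    have h1 := hBV (s n * a) (s n * b) (s n * τ) (mul_le_mul_of_nonneg_left hab hs.le)
      (by positivity) (by positivity)
    calc (s n)⁻¹ * ∫ y in (s n * a)..(s n * b), |φ y - φ (y - s n * τ)|
        ≤ (s n)⁻¹ * (s n * τ * Real.exp (lam * (s n * b + 1))) :=
          mul_le_mul_of_nonneg_left h1 (by positivity)
      _ = τ * Real.exp (lam * (s n * b + 1)) := by field_simp
      _ ≤ τ * Real.exp (lam * (b + 1) * s n) := by
          apply mul_le_mul_of_nonneg_left _ hτ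
          apply Real.exp_le_exp.2
          rw [mul_assoc]
          apply mul_le_mul_of_nonneg_left _ hlam
          nlinarith [hW.s1 n]
  have hlln := lln hW hWi hab hM0 hκ0 hfm hfM hBV'
  -- rare windows
  set ηn : ℕ → ℝ := fun n => s n * Real.exp (-(κ * s n)) with hη
  set E : ℕ → Set ℝ := fun n => {y | 1 / ηn n * (∫ t in y..(y + ηn n), φ t) < ρ} with hE
  have hav : ∀ n β, av (Real.exp (-(κ * s n))) (f n) β =
      1 / ηn n * ∫ t in (s n * β)..(s n * β + ηn n), φ t := by
    intro n β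
    have hs := hsp n
    unfold av
    have e : ∫ t in β..(β + Real.exp (-(κ * s n))), f n t =
        (s n)⁻¹ * ∫ y in (s n * β)..(s n * (β + Real.exp (-(κ * s n)))), φ y := by
      have h5 := intervalIntegral.integral_comp_mul_left (a := β)
        (b := β + Real.exp (-(κ * s n))) φ hs.ne'
      rw [smul_eq_mul] at h5
      exact h5
    rw [e, mul_add]
    simp only [hη]
    rw [← mul_assoc]
    congr 1
    rw [one_div, one_div, mul_inv]
    ring
  obtain ⟨K', hK'⟩ := rare_thin hW ha hab hK E (max (max (8 / κ ^ 2) (2 / a)) ((Z0 + 1) / a)) (by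
    intro n hn Z hZ1 hZ2
    have h1 : 8 / κ ^ 2 ≤ s n := ((le_max_left _ _).trans (le_max_left _ _)).trans hn
    have h2 : 2 / a ≤ s n := ((le_max_right _ _).trans (le_max_left _ _)).trans hn
    have h3 : (Z0 + 1) / a ≤ s n := (le_max_right _ _).trans hn
    rw [div_le_iff₀ ha] at h2 h3
    rw [div_le_iff₀ (by positivity)] at h1
    have hs := hsp n
    apply hLB Z (by linarith) (ηn n)
    · simp only [hη]
      calc Real.exp (-(c1 * Z)) ≤ Real.exp (-(κ * s n)) := by
            apply Real.exp_le_exp.2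
            rw [neg_le_neg_iff, hκ]
            nlinarith
        _ = 1 * Real.exp (-(κ * s n)) := (one_mul _).symm
        _ ≤ s n * Real.exp (-(κ * s n)) :=
            mul_le_mul_of_nonneg_right (hW.s1 n) (Real.exp_pos _).le
    · simp only [hη]
      have h4 : s n ≤ Real.exp (κ * s n / 2) := by
        have h5 : (κ * s n / 2) ^ 2 / 2 ≤ Real.exp (κ * s n / 2) := by
          have := Real.quadratic_le_exp_of_nonneg (by positivity : 0 ≤ κ * s n / 2)
          have h6 : 0 ≤ κ * s n / 2 := by positivity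
          linarith
        refine le_trans ?_ h5
        nlinarith
      calc s n * Real.exp (-(κ * s n)) ≤ Real.exp (κ * s n / 2) * Real.exp (-(κ * s n)) :=
            mul_le_mul_of_nonneg_right h4 (Real.exp_pos _).le
        _ = Real.exp (-(κ * s n / 2)) := by rw [← Real.exp_add]; congr 1; ring
        _ ≤ Real.exp (-(c1 * Z / 8)) := by
            apply Real.exp_le_exp.2
            rw [neg_le_neg_iff, hκ]
            have h7 : s n * b ≤ s n * (2 * a) := mul_le_mul_of_nonneg_left hb hs.le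
            nlinarith)
  have hrare := rare hW (fun n => {β | s n * β ∈ E n}) hK'
  filter_upwards [hlln, hrare] with β h1 h2
  intro ε hε
  obtain ⟨B, hB⟩ := h2
  have h3 := (Metric.tendsto_atTop.1 h1) (ε / 2) (by positivity)
  obtain ⟨N1, hN1⟩ := h3
  filter_upwards [eventually_ge_atTop N1, hWi.eventually_gt_atTop 0,
    hWi.eventually_ge_atTop (2 * (|ρ| * B) / ε)] with N hN hpos hbig
  have h4 := hN1 N hN
  rw [Real.dist_eq, sub_zero, abs_div, abs_of_pos hpos, div_lt_iff₀ hpos] at h4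
  have h5 : ∑ n ∈ Finset.range N, w n * φ (s n * β) =
      ∑ n ∈ Finset.range N, w n * dv κ s f n β +
        ∑ n ∈ Finset.range N, w n * av (Real.exp (-(κ * s n))) (f n) β := by
    rw [← Finset.sum_add_distrib]
    apply Finset.sum_congr rfl
    intro n _
    unfold dv
    simp only [hf]
    ring
  have h6 : ρ * ∑ n ∈ Finset.range N, w n - |ρ| * B ≤
      ∑ n ∈ Finset.range N, w n * av (Real.exp (-(κ * s n))) (f n) β := by
    have h7 : ∀ n ∈ Finset.range N, w n * ρ - |ρ| * (w n * (if s n * β ∈ E n then 1 else 0)) ≤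
        w n * av (Real.exp (-(κ * s n))) (f n) β := by
      intro n _
      have hw := hW.w0 n
      split_ifs with hc
      · have h8 : 0 ≤ av (Real.exp (-(κ * s n))) (f n) β := by
          unfold av
          apply mul_nonneg (by positivity)
          apply intervalIntegral.integral_nonneg
          · linarith [Real.exp_pos (-(κ * s n))]
          · intro t _
            exact h0 _
        have h9 : ρ ≤ |ρ| := le_abs_self ρ
        have h10 : 0 ≤ w n * av (Real.exp (-(κ * s n))) (f n) β := mul_nonneg hw h8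
        nlinarith
      · have h8 : ρ ≤ av (Real.exp (-(κ * s n))) (f n) β := by
          rw [hav n β]
          simp only [hE, mem_ofPred_eq, not_lt] at hc
          exact hc
        have := mul_le_mul_of_nonneg_left h8 hw
        linarith
    have h11 := Finset.sum_le_sum h7
    rw [Finset.sum_sub_distrib, ← Finset.sum_mul, ← Finset.mul_sum] at h11
    have h12 := hB N
    have h13 : |ρ| * ∑ n ∈ Finset.range N, w n * (if s n * β ∈ E n then 1 else 0) ≤ |ρ| * B :=
      mul_le_mul_of_nonneg_left h12 (abs_nonneg _)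
    linarith
  rw [div_le_iff₀ hε] at hbig
  have h14 := (abs_lt.1 h4).1
  rw [h5]
  nlinarith

open Classical in
/-- the upper version -/
theorem samp' (hW : WS s w C) (hWi : Tendsto (fun N => ∑ n ∈ Finset.range N, w n) atTop atTop)
    {φ : ℝ → ℝ} (hφ : Measurable φ) {M : ℝ} (h0 : ∀ y, 0 ≤ φ y) (hM : ∀ y, φ y ≤ M)
    {lam : ℝ} (hlam : 0 ≤ lam)
    (hBV : ∀ c d σ : ℝ, c ≤ d → 0 ≤ d → 0 ≤ σ →
      ∫ y in c..d, |φ y - φ (y - σ)| ≤ σ * Real.exp (lam * (d + 1)))
    {c1 K ρ Z0 : ℝ} (hc1 : 0 < c1) (hK : 0 ≤ K)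
    (hUB : ∀ Z : ℕ, Z0 ≤ Z → ∀ η : ℝ, Real.exp (-(c1 * Z)) ≤ η → η ≤ Real.exp (-(c1 * Z / 8)) →
      volume ({y | ρ < 1 / η * (∫ t in y..(y + η), φ t)} ∩ Icc (Z : ℝ) (Z + 1)) ≤
        ENNReal.ofReal (K / Z))
    {a b : ℝ} (ha : 0 < a) (hab : a ≤ b) (hb : b ≤ 2 * a) :
    ∀ᵐ β ∂(volume.restrict (Ioc a b)), ∀ ε : ℝ, 0 < ε → ∀ᶠ N : ℕ in atTop,
      ∑ n ∈ Finset.range N, w n * φ (s n * β) ≤ (ρ + ε) * ∑ n ∈ Finset.range N, w n := by
  have hii : ∀ c d, IntervalIntegrable φ volume c d := fun c d =>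
    ii_of_bdd hφ (M := M) (fun x => by rw [abs_of_nonneg (h0 x)]; exact hM x) c d
  have h := samp hW hWi (φ := fun y => M - φ y) (hφ.const_sub M) (M := M)
    (fun y => by linarith [hM y]) (fun y => by linarith [h0 y]) hlam (by
      intro c d σ h1 h2 h3
      have e : ∀ y, |M - φ y - (M - φ (y - σ))| = |φ y - φ (y - σ)| := by
        intro y
        rw [← abs_neg]
        congr 1
        ring
      simp_rw [e]
      exact hBV c d σ h1 h2 h3) (ρ := M - ρ) hc1 hK (by
      intro Z hZ η h1 h2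
      refine (measure_mono ?_).trans (hUB Z hZ η h1 h2)
      apply inter_subset_inter_left
      intro y hy
      have hη : 0 < η := lt_of_lt_of_le (Real.exp_pos _) h1
      rw [mem_ofPred_eq] at hy ⊢
      rw [intervalIntegral.integral_sub intervalIntegrable_const (hii _ _),
        intervalIntegral.integral_const, smul_eq_mul, add_sub_cancel_left] at hy
      have e : 1 / η * (η * M - ∫ t in y..(y + η), φ t) =
          M - 1 / η * ∫ t in y..(y + η), φ t := by field_simp
      rw [e] at hy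
      linarith) ha hab hb
  filter_upwards [h] with β hβ ε hε
  filter_upwards [hβ ε hε] with N hN
  have e : ∑ n ∈ Finset.range N, w n * (M - φ (s n * β)) =
      M * ∑ n ∈ Finset.range N, w n - ∑ n ∈ Finset.range N, w n * φ (s n * β) := by
    rw [Finset.mul_sum, ← Finset.sum_sub_distrib]
    exact Finset.sum_congr rfl fun n _ => by ring
  rw [e] at hN
  linarith

end Pool.Agent.U762.GP
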