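import Pool.Agent.U762.GP.Fin
import Pool.Agent.U762.GP.Samp

/-! Almost all geometric progressions. -/

set_option autoImplicit false

namespace Pool.Agent.U762.GP

open MeasureTheory Filter Topology Set
open Pool.Agent.R516 (pcn Hi St_U)

variable {s w : ℕ → ℝ} {C : ℝ}

open Classical in
/-- the sum of the weights of the good indices, for one choice of the parameters -/
theorem seq_ae (hW : WS s w C) (hsi : Tendsto s atTop atTop)
    (hWi : Tendsto (fun N => ∑ n ∈ Finset.range N, w n) atTop atTop)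
    {c : ℝ} (hc : 0 < c) (hc1 : c ≤ 1 / 10) (hbig : BigD c) (hU : St_U)
    {μ δ ρ : ℝ} (hμ0 : 0 < μ) (hμ1 : μ < 1) (hδ : 0 < δ) (hρ : ρ < (1 - μ) / (18 / 5 - μ))
    {a : ℝ} (ha : 0 < a) :
    ∀ᵐ β ∂(volume.restrict (Ioc a (2 * a))), ∀ᶠ N : ℕ in atTop,
      ρ * ∑ n ∈ Finset.range N, w n ≤
        ∑ n ∈ Finset.range N, w n * (if Good μ δ (Real.exp (s n * β)) then 1 else 0) := by
  obtain ⟨μ', hμμ, hμ'1, hρ1⟩ := mu_choice hμ1 hρ
  obtain ⟨ρ', hρρ, hρ'⟩ := exists_between hρ1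
  obtain ⟨K, Z0, hK, hLB⟩ := locdens hc hc1 hbig hU (hμ0.trans hμμ) hμ'1 hρ'
  have hφm : Measurable ((SG μ' c).indicator (fun _ => (1 : ℝ))) :=
    measurable_const.indicator (SG_meas μ' c)
  have hφ0 : ∀ y, 0 ≤ (SG μ' c).indicator (fun _ => (1 : ℝ)) y := by
    intro y; simp only [indicator]; split_ifs <;> norm_num
  have hφ1 : ∀ y, (SG μ' c).indicator (fun _ => (1 : ℝ)) y ≤ 1 := by
    intro y; simp only [indicator]; split_ifs <;> norm_num
  have hBV : ∀ c' d σ : ℝ, c' ≤ d → 0 ≤ d → 0 ≤ σ →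
      ∫ y in c'..d, |(SG μ' c).indicator (fun _ => (1 : ℝ)) y -
        (SG μ' c).indicator (fun _ => (1 : ℝ)) (y - σ)| ≤ σ * Real.exp (1 * (d + 1)) :=
    fun c' d σ h1 _ h3 => ind_bv (GG μ' c) c' d σ h1 h3
  have hS := samp hW hWi hφm hφ0 hφ1 (lam := 1) (by norm_num) hBV (c1 := c / 2) (by positivity) hK
    hLB ha (by linarith : a ≤ 2 * a) le_rfl
  -- the two rare events
  obtain ⟨K2, Z2, hK2, hT⟩ := tooMany_thin hU δ hδ
  obtain ⟨K3, Z3, hK3, hL⟩ := hbig (1 - μ) (by linarith)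
  obtain ⟨K2', hT'⟩ := rare_thin hW ha (by linarith : a ≤ 2 * a) hK2 (fun _ => TooMany δ)
    ((max Z2 1 + 1) / a) (by
      intro n hn Z hZ1 _
      have h1 : max Z2 1 + 1 ≤ s n * a := by rwa [div_le_iff₀ ha] at hn
      have h2 : max Z2 1 ≤ Z := by linarith
      have h3 : (1 : ℝ) ≤ Z := (le_max_right _ _).trans h2
      refine (hT Z ((le_max_left _ _).trans h2)).trans (ENNReal.ofReal_le_ofReal ?_)
      apply div_le_div_of_nonneg_left hK2 (by linarith)
      calc (Z : ℝ) = Z * 1 := (mul_one _).symm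
        _ ≤ Z * Z := mul_le_mul_of_nonneg_left h3 (by linarith)
        _ = (Z : ℝ) ^ 2 := by ring)
  obtain ⟨K3', hL'⟩ := rare_thin hW ha (by linarith : a ≤ 2 * a) hK3 (fun _ => LongEx c (1 - μ))
    ((Z3 + 1) / a) (by
      intro n hn Z hZ1 _
      have h1 : Z3 + 1 ≤ s n * a := by rwa [div_le_iff₀ ha] at hn
      exact hL Z (by linarith))
  have r2 := rare hW _ hT'
  have r3 := rare hW _ hL'
  obtain ⟨Y0, hY0⟩ := good_of (δ := δ) hc hc1 hμ0 hμμ hμ'1
  filter_upwards [hS, r2, r3, ae_restrict_mem measurableSet_Ioc] with β b1 b2 b3 b4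
  obtain ⟨B2, hB2⟩ := b2
  obtain ⟨B3, hB3⟩ := b3
  have hβ : 0 < β := ha.trans b4.1
  have hsβ : Tendsto (fun n => s n * β) atTop atTop := hsi.atTop_mul_const hβ
  obtain ⟨n0, hn0⟩ := eventually_atTop.1 (hsβ.eventually_ge_atTop Y0)
  set B4 : ℝ := ∑ n ∈ Finset.range n0, w n with hB4
  have e1 := b1 ((ρ' - ρ) / 2) (by linarith)
  have e2 : ∀ᶠ N : ℕ in atTop, (B2 + B3 + B4) / ((ρ' - ρ) / 2) ≤ ∑ n ∈ Finset.range N, w n :=
    hWi.eventually_ge_atTop _
  filter_upwards [e1, e2] with N h1 h2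
  rw [div_le_iff₀ (by linarith)] at h2
  have hpt : ∀ n, w n * (SG μ' c).indicator (fun _ => (1 : ℝ)) (s n * β) ≤
      w n * (if Good μ δ (Real.exp (s n * β)) then 1 else 0) +
      w n * (if s n * β ∈ TooMany δ then 1 else 0) +
      w n * (if s n * β ∈ LongEx c (1 - μ) then 1 else 0) +
      (if n < n0 then w n else 0) := by
    intro n
    have hw := hW.w0 n
    by_cases hn : n < n0
    · rw [if_pos hn]
      have a1 : w n * (SG μ' c).indicator (fun _ => (1 : ℝ)) (s n * β) ≤ w n * 1 :=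
        mul_le_mul_of_nonneg_left (hφ1 _) hw
      have a2 : 0 ≤ w n * (if Good μ δ (Real.exp (s n * β)) then 1 else 0) := by
        apply mul_nonneg hw; split_ifs <;> norm_num
      have a3 : 0 ≤ w n * (if s n * β ∈ TooMany δ then 1 else 0) := by
        apply mul_nonneg hw; split_ifs <;> norm_num
      have a4 : 0 ≤ w n * (if s n * β ∈ LongEx c (1 - μ) then 1 else 0) := by
        apply mul_nonneg hw; split_ifs <;> norm_num
      linarith
    · rw [if_neg hn]
      push Not at hn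
      have hy := hn0 n hn
      rw [add_zero, ← mul_add, ← mul_add]
      apply mul_le_mul_of_nonneg_left _ hw
      by_cases c1 : s n * β ∈ SG μ' c
      · by_cases c2 : s n * β ∈ TooMany δ
        · rw [if_pos c2]
          have a2 : (0 : ℝ) ≤ (if Good μ δ (Real.exp (s n * β)) then 1 else 0) := by
            split_ifs <;> norm_num
          have a4 : (0 : ℝ) ≤ (if s n * β ∈ LongEx c (1 - μ) then 1 else 0) := by
            split_ifs <;> norm_num
          have := hφ1 (s n * β)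
          linarith
        · by_cases c3 : s n * β ∈ LongEx c (1 - μ)
          · rw [if_pos c3]
            have a2 : (0 : ℝ) ≤ (if Good μ δ (Real.exp (s n * β)) then 1 else 0) := by
              split_ifs <;> norm_num
            have a4 : (0 : ℝ) ≤ (if s n * β ∈ TooMany δ then 1 else 0) := by
              split_ifs <;> norm_num
            have := hφ1 (s n * β)
            linarith
          · rw [if_pos (hY0 _ hy c1 c2 c3)]
            have a3 : (0 : ℝ) ≤ (if s n * β ∈ TooMany δ then 1 else 0) := by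
              split_ifs <;> norm_num
            have a4 : (0 : ℝ) ≤ (if s n * β ∈ LongEx c (1 - μ) then 1 else 0) := by
              split_ifs <;> norm_num
            have := hφ1 (s n * β)
            linarith
      · rw [indicator_of_notMem c1]
        have a2 : (0 : ℝ) ≤ (if Good μ δ (Real.exp (s n * β)) then 1 else 0) := by
          split_ifs <;> norm_num
        have a3 : (0 : ℝ) ≤ (if s n * β ∈ TooMany δ then 1 else 0) := by
          split_ifs <;> norm_num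
        have a4 : (0 : ℝ) ≤ (if s n * β ∈ LongEx c (1 - μ) then 1 else 0) := by
          split_ifs <;> norm_num
        linarith
  have hsum := Finset.sum_le_sum (fun n (_ : n ∈ Finset.range N) => hpt n)
  rw [Finset.sum_add_distrib, Finset.sum_add_distrib, Finset.sum_add_distrib] at hsum
  have hlast : ∑ n ∈ Finset.range N, (if n < n0 then w n else 0) ≤ B4 := by
    rw [← Finset.sum_filter, hB4]
    apply Finset.sum_le_sum_of_subset_of_nonneg
    · intro n hn
      rw [Finset.mem_filter] at hn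
      exact Finset.mem_range.2 hn.2
    · intro n _ _
      exact hW.w0 n
  have hB2' : ∑ n ∈ Finset.range N, w n * (if s n * β ∈ TooMany δ then 1 else 0) ≤
      B2 := by
    convert hB2 N
  have hB3' : ∑ n ∈ Finset.range N, w n * (if s n * β ∈ LongEx c (1 - μ) then 1 else 0) ≤
      B3 := by
    convert hB3 N
  linarith

/-- from almost every `β` in dyadic blocks to almost every `α > 1` -/
theorem ae_exp {P : ℝ → Prop}
    (h : ∀ a : ℝ, 0 < a → ∀ᵐ β ∂(volume.restrict (Ioc a (2 * a))), P (Real.exp β)) :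
    ∀ᵐ α ∂(volume.restrict (Ioi (1 : ℝ))), P α := by
  rw [ae_restrict_iff' measurableSet_Ioi]
  have h1 : ∀ᵐ β : ℝ, ∀ k : ℤ, β ∈ Ioc ((2 : ℝ) ^ k) (2 * 2 ^ k) → P (Real.exp β) := by
    rw [ae_all_iff]
    intro k
    exact (ae_restrict_iff' measurableSet_Ioc).1 (h ((2 : ℝ) ^ k) (by positivity))
  have h2 : ∀ᵐ β : ℝ, 0 < β → P (Real.exp β) := by
    filter_upwards [h1] with β hβ h0
    obtain ⟨k, hk⟩ := exists_mem_Ioc_zpow h0 (by norm_num : (1 : ℝ) < 2)
    apply hβ k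
    rw [zpow_add_one₀ (by norm_num)] at hk
    rwa [mul_comm 2]
  rw [ae_iff] at h2 ⊢
  have h3 := MeasureTheory.addHaar_image_eq_zero_of_differentiableOn_of_addHaar_eq_zero volume
    (f := Real.exp) Real.differentiable_exp.differentiableOn h2
  refine measure_mono_null ?_ h3
  intro α hα
  have hα' : ¬ (α ∈ Ioi (1 : ℝ) → P α) := hα
  rw [Classical.not_imp] at hα'
  refine ⟨Real.log α, ?_, Real.exp_log (by linarith [mem_Ioi.1 hα'.1])⟩
  show ¬ (0 < Real.log α → P (Real.exp (Real.log α)))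
  rw [Classical.not_imp, Real.exp_log (by linarith [mem_Ioi.1 hα'.1])]
  exact ⟨Real.log_pos hα'.1, hα'.2⟩

open Classical in
/-- all parameters at once -/
theorem seq_all (hW : WS s w C) (hsi : Tendsto s atTop atTop)
    (hWi : Tendsto (fun N => ∑ n ∈ Finset.range N, w n) atTop atTop)
    {c : ℝ} (hc : 0 < c) (hc1 : c ≤ 1 / 10) (hbig : BigD c) (hU : St_U) :
    ∀ᵐ α ∂(volume.restrict (Ioi (1 : ℝ))), ∀ μ δ ε : ℝ, 0 < μ → μ < 1 → 0 < δ → 0 < ε →
      ∀ᶠ N : ℕ in atTop,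
      ((1 - μ) / (18 / 5 - μ) - ε) * ∑ n ∈ Finset.range N, w n ≤
        ∑ n ∈ Finset.range N, if Good μ δ (α ^ s n) then w n else 0 := by
  have h1 : ∀ᵐ α ∂(volume.restrict (Ioi (1 : ℝ))), ∀ q : ℚ × ℚ × ℚ,
      0 < (q.1 : ℝ) → (q.1 : ℝ) < 1 → 0 < (q.2.1 : ℝ) →
      (q.2.2 : ℝ) < (1 - (q.1 : ℝ)) / (18 / 5 - (q.1 : ℝ)) → ∀ᶠ N : ℕ in atTop,
      (q.2.2 : ℝ) * ∑ n ∈ Finset.range N, w n ≤
        ∑ n ∈ Finset.range N, w n * (if Good q.1 q.2.1 (α ^ s n) then 1 else 0) := by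
    rw [ae_all_iff]
    intro q
    by_cases hq : 0 < (q.1 : ℝ) ∧ (q.1 : ℝ) < 1 ∧ 0 < (q.2.1 : ℝ) ∧
      (q.2.2 : ℝ) < (1 - (q.1 : ℝ)) / (18 / 5 - (q.1 : ℝ))
    · have h2 := ae_exp (P := fun α => ∀ᶠ N : ℕ in atTop,
        (q.2.2 : ℝ) * ∑ n ∈ Finset.range N, w n ≤
          ∑ n ∈ Finset.range N, w n * (if Good q.1 q.2.1 (α ^ s n) then 1 else 0)) (by
        intro a ha
        filter_upwards [seq_ae hW hsi hWi hc hc1 hbig hU hq.1 hq.2.1 hq.2.2.1 hq.2.2.2 ha] with
          β hβ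
        filter_upwards [hβ] with N hN
        refine hN.trans (le_of_eq ?_)
        apply Finset.sum_congr rfl
        intro n _
        rw [← Real.exp_mul, mul_comm β (s n)])
      filter_upwards [h2] with α hα _ _ _ _
      exact hα
    · refine Filter.Eventually.of_forall fun α a1 a2 a3 a4 => ?_
      exact absurd ⟨a1, a2, a3, a4⟩ hq
  filter_upwards [h1, ae_restrict_mem measurableSet_Ioi] with α hα hα1 μ δ ε hμ0 hμ1 hδ hε
  obtain ⟨δ1, hδ1, hδ2⟩ := exists_rat_btwn hδ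
  obtain ⟨μ1, hμa, hμb, hμc⟩ := mu_choice (ρ := (1 - μ) / (18 / 5 - μ) - ε / 2) hμ1 (by linarith)
  obtain ⟨μ2, hμ2, hμ3⟩ := exists_rat_btwn hμa
  have hanti : (1 - μ1) / (18 / 5 - μ1) ≤ (1 - (μ2 : ℝ)) / (18 / 5 - (μ2 : ℝ)) := by
    rw [div_le_div_iff₀ (by linarith) (by linarith)]
    have : (1 - μ1) * (18 / 5 - (μ2 : ℝ)) = (1 - (μ2 : ℝ)) * (18 / 5 - μ1) -
      13 / 5 * (μ1 - μ2) := by ring
    rw [this]
    linarith
  obtain ⟨ρ, hρ1, hρ2⟩ := exists_rat_btwn (show (1 - μ) / (18 / 5 - μ) - ε <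
    (1 - (μ2 : ℝ)) / (18 / 5 - (μ2 : ℝ)) by linarith)
  have hq := hα (μ2, δ1, ρ) (hμ0.trans hμ2) (hμ3.trans hμb) hδ1 hρ2
  filter_upwards [hq] with N hN
  have hw0 : 0 ≤ ∑ n ∈ Finset.range N, w n := Finset.sum_nonneg fun n _ => hW.w0 n
  refine (mul_le_mul_of_nonneg_right hρ1.le hw0).trans (hN.trans ?_)
  apply Finset.sum_le_sum
  intro n _
  have hxn : 1 ≤ α ^ s n := Real.one_le_rpow (le_of_lt hα1) (by linarith [hW.s1 n])
  by_cases hg : Good μ2 δ1 (α ^ s n)
  · rw [if_pos hg, if_pos (hg.mono hμ2.le hδ2.le hxn), mul_one]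
  · rw [if_neg hg, mul_zero]
    split_ifs
    · exact hW.w0 n
    · exact le_rfl

end Pool.Agent.U762.GP
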