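import Pool.Agent.U762.GP.CoreK
import Pool.Agent.U762.GP.Seq

/-! Almost all geometric progressions, all lengths from `κ log x` on. -/

set_option autoImplicit false

namespace Pool.Agent.U762.GP

open MeasureTheory Filter Topology Set
open Pool.Agent.R516 (pcn)

theorem locdensK {c C μ' K : ℝ} {u0 : ℕ} (hc : 0 < c) (hc1 : c ≤ 1 / 10) (hbig : BigD c)
    (hC : 0 ≤ C) (hSM : SM C u0) (hμ0 : 0 < μ') (hμ1 : μ' < 1) (hK : 0 < K) :
    ∃ lam ρ K0 Z0 : ℝ, 0 < lam ∧ 0 < ρ ∧ 0 ≤ K0 ∧ ∀ Z : ℕ, Z0 ≤ Z → ∀ η : ℝ,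
      Real.exp (-(c / 2 * Z)) ≤ η → η ≤ Real.exp (-(c / 2 * Z / 8)) →
      volume ({y | 1 / η * (∫ t in y..(y + η),
        ({t : ℝ | ⌊Real.exp t⌋₊ ∈ GK μ' lam K c}).indicator (fun _ => (1 : ℝ)) t) < ρ} ∩
        Icc (Z : ℝ) (Z + 1)) ≤ ENNReal.ofReal (K0 / Z) := by
  obtain ⟨μ, hμd⟩ : ∃ μ : ℝ, μ = (1 + μ') / 2 := ⟨_, rfl⟩
  have hμ : μ' < μ := by rw [hμd]; linarith
  have hμ1' : μ < 1 := by rw [hμd]; linarith
  have hμp : 0 < μ := hμ0.trans hμ
  obtain ⟨κ, hκd⟩ : ∃ κ : ℝ, κ = min (1 / 2) (K * ((μ - μ') / 2) / μ) := ⟨_, rfl⟩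
  have hκ0 : 0 < κ := by
    rw [hκd]
    apply lt_min (by norm_num)
    have : 0 < μ - μ' := by linarith
    positivity
  have hκ1 : κ ≤ 1 / 2 := by rw [hκd]; exact min_le_left _ _
  have hκ : μ * κ ≤ K * ((μ - μ') / 2) := by
    have : κ ≤ K * ((μ - μ') / 2) / μ := by rw [hκd]; exact min_le_right _ _
    rw [le_div_iff₀ hμp] at this
    linarith
  obtain ⟨e, hed⟩ : ∃ e : ℝ, e = min (1 / 100) ((1 - μ) / 10) := ⟨_, rfl⟩
  have he0 : 0 < e := by rw [hed]; exact lt_min (by norm_num) (by linarith)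
  have he : e ≤ 1 / 100 := by rw [hed]; exact min_le_left _ _
  have he2 : e ≤ (1 - μ) / 10 := by rw [hed]; exact min_le_right _ _
  obtain ⟨cc, hccd⟩ : ∃ cc : ℝ, cc = 16 * C / κ ^ 2 / e + 2 := ⟨_, rfl⟩
  have hq : 0 ≤ 16 * C / κ ^ 2 / e := by positivity
  have hcc1 : 1 < cc := by rw [hccd]; linarith
  have hcc : 16 * C / κ ^ 2 ≤ cc * e := by
    rw [hccd, add_mul, div_mul_cancel₀ _ he0.ne']
    linarith
  obtain ⟨A0, hA0d⟩ : ∃ A0 : ℝ, A0 = ((1 - μ) / 2) / cc := ⟨_, rfl⟩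
  have hA0 : 0 < A0 := by
    rw [hA0d]
    exact div_pos (by linarith) (by linarith)
  have hA : A0 * (cc - μ) ≤ 1 - 5 * e - μ := by
    have h1 : A0 * cc = (1 - μ) / 2 := by
      rw [hA0d]; exact div_mul_cancel₀ _ (by linarith)
    have h2 : A0 * (cc - μ) ≤ A0 * cc := mul_le_mul_of_nonneg_left (by linarith) hA0.le
    linarith
  obtain ⟨e1, he1d⟩ : ∃ e1 : ℝ, e1 = min e (A0 / 4) := ⟨_, rfl⟩
  have he1 : 0 < e1 := by rw [he1d]; exact lt_min he0 (by linarith)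
  have he1e : e1 ≤ e := by rw [he1d]; exact min_le_left _ _
  have heA : e1 ≤ A0 / 4 := by rw [he1d]; exact min_le_right _ _
  obtain ⟨K1, Z1, hK1, h1⟩ := hbig e1 he1
  obtain ⟨Z3, h3⟩ := thresholds (μ' := μ') (μ := (μ + μ') / 2) hc hc1 he1 (by linarith)
  obtain ⟨Z4, h4⟩ := eventually_atTop.1 (pow_exp_ev 0 (by norm_num : (0 : ℝ) < 1 / 2)
    (by positivity : (0 : ℝ) < 1 / ((u0 : ℝ) + 1)))
  refine ⟨8 / A0, A0 / 2 * (1 - e1), K1, max (max Z1 (2 / κ)) (max Z4 Z3), by positivity,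
    mul_pos (by positivity) (by linarith), hK1, fun Z hZ η hη0 hη1 => ?_⟩
  have hZ1 : Z1 ≤ Z := (le_max_left _ _).trans ((le_max_left _ _).trans hZ)
  have hZ2 : 2 / κ ≤ Z := (le_max_right _ _).trans ((le_max_left _ _).trans hZ)
  have hZ4 : Z4 ≤ Z := (le_max_left _ _).trans ((le_max_right _ _).trans hZ)
  have hZ3 : Z3 ≤ Z := (le_max_right _ _).trans ((le_max_right _ _).trans hZ)
  obtain ⟨hZ10, hA1, hA2, hη1', hη2', hA4⟩ := h3 Z hZ3
  have hκZ : 2 ≤ κ * Z := by rwa [div_le_iff₀' hκ0] at hZ2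
  have hu0 : (u0 : ℝ) ≤ Real.exp ((1 / 2) * Z) := by
    have h5 := h4 Z hZ4
    rw [pow_zero, one_div_mul_eq_div, le_div_iff₀ (by positivity)] at h5
    linarith
  have hA4' : μ' * ((Z : ℝ) + 4) ≤ (μ + μ') / 2 * Z := by
    have : (μ + μ') / 2 * ((Z : ℝ) - 2) ≤ (μ + μ') / 2 * Z :=
      mul_le_mul_of_nonneg_left (by linarith) (by linarith)
    linarith
  have hη1a : η ≤ e1 / 16 := hη1.trans hη1'
  have hη2a : η ≤ 1 / 16 := hη1.trans hη2'
  have hηp : 0 < η := lt_of_lt_of_le (Real.exp_pos _) hη0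
  have hZp : (0 : ℝ) < Z := by linarith
  refine (measure_mono ?_).trans (h1 Z hZ1)
  rintro y ⟨hy, hyI⟩
  refine ⟨?_, hyI⟩
  by_contra hn1
  have hE1 : |dens (Real.exp y) (Real.exp y * (Real.exp η - 1)) - 1| ≤ e1 := by
    by_contra hc3
    push Not at hc3
    apply hn1
    refine ⟨Real.exp y * (Real.exp η - 1), ?_, ?_, hc3⟩
    · have h4 : η ≤ Real.exp η - 1 := by have := Real.add_one_le_exp η; linarith
      calc Real.exp ((1 - c) * y) ≤ Real.exp (y + -(c / 2 * Z)) := by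
            apply Real.exp_le_exp.2
            have h5 : c * (Z : ℝ) ≤ c * y := mul_le_mul_of_nonneg_left hyI.1 hc.le
            have h6 : 0 ≤ c * (Z : ℝ) := by positivity
            linarith
        _ = Real.exp y * Real.exp (-(c / 2 * Z)) := Real.exp_add _ _
        _ ≤ Real.exp y * (Real.exp η - 1) :=
            mul_le_mul_of_nonneg_left (hη0.trans h4) (Real.exp_pos _).le
    · have h4 : Real.exp η - 1 ≤ 1 := by
        refine (exp_sub_le' hηp hη2a).trans ?_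
        have : η * (1 + η) ≤ 1 / 16 * 2 := mul_le_mul hη2a (by linarith) (by linarith) (by norm_num)
        linarith
      calc Real.exp y * (Real.exp η - 1) ≤ Real.exp y * 1 :=
            mul_le_mul_of_nonneg_left h4 (Real.exp_pos _).le
        _ = Real.exp y := mul_one _
  have hcw := core_winK hc1 he1 he1e he hμ0 hμ hμ1' hK hκ0 hκ1 hκ hC hcc hcc1 hA0 hA heA hSM
    hZ10 hκZ hu0 hA1 hA2 hA4' hyI.1 hyI.2 hη0 hη1a hη2a hE1
  have hy' : 1 / η * (∫ t in y..(y + η),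
    ({t : ℝ | ⌊Real.exp t⌋₊ ∈ GK μ' (8 / A0) K c}).indicator (fun _ => (1 : ℝ)) t) <
      A0 / 2 * (1 - e1) := hy
  linarith

/-- the good points: the primes in `(x, x + H]` for all `H ≥ K log x` at once -/
def GoodK (μ lam K x : ℝ) : Prop := ∀ H : ℝ, K * Real.log x ≤ H → H ≤ x →
  μ * (H / Real.log x) ≤ (Nat.primeCounting ⌊x + H⌋₊ : ℝ) - Nat.primeCounting ⌊x⌋₊ ∧
  (Nat.primeCounting ⌊x + H⌋₊ : ℝ) - Nat.primeCounting ⌊x⌋₊ ≤ lam * (H / Real.log x)

theorem goodK_of {c μ μ' lam K : ℝ} (hc : 0 < c) (hc1 : c ≤ 1 / 10) (hμ0 : 0 < μ) (hμ : μ < μ')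
    (hμ1 : μ' < 1) (hlam : 0 < lam) (hK : 0 < K) : ∃ Y0 : ℝ, ∀ y : ℝ, Y0 ≤ y →
      ⌊Real.exp y⌋₊ ∈ GK μ' lam (K / 2) c →
      y ∉ LongEx c (1 - μ) → GoodK μ (4 * lam + 2) K (Real.exp y) := by
  have ev1 : ∀ᶠ y : ℝ in atTop, 1 / (μ' - μ) / K + 2 / K + 100 ≤ y := eventually_ge_atTop _
  have ev2 : ∀ᶠ y : ℝ in atTop, y ^ 0 ≤ (1 / 2) * Real.exp ((1 - c) * y) :=
    pow_exp_ev 0 (by linarith) (by norm_num)
  have ev3 : ∀ᶠ y : ℝ in atTop, y ^ 0 ≤ (1 / 8) * Real.exp (1 * y) :=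
    pow_exp_ev 0 (by norm_num) (by norm_num)
  obtain ⟨Y0, hY0⟩ := eventually_atTop.1 (ev1.and (ev2.and ev3))
  refine ⟨Y0, fun y hy hS hL => ?_⟩
  obtain ⟨h1, h2, h3⟩ := hY0 y hy
  rw [pow_zero] at h2 h3
  rw [one_mul] at h3
  have hμd : 0 < μ' - μ := by linarith
  have h1' : 0 < 1 / (μ' - μ) / K := by positivity
  have h1'' : 0 < 2 / K := by positivity
  have hy100 : 100 ≤ y := by linarith
  have hyp : 0 < y := by linarith
  have hKy2 : 2 ≤ K * y := by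
    have : 2 / K ≤ y := by linarith
    rwa [div_le_iff₀' hK] at this
  have hKy1 : 1 / (μ' - μ) ≤ K * y := by
    have : 1 / (μ' - μ) / K ≤ y := by linarith
    rwa [div_le_iff₀' hK] at this
  intro H hH1 hH2
  set x : ℝ := Real.exp y with hx
  have hx0 : 0 < x := Real.exp_pos y
  have hlog : Real.log x = y := Real.log_exp y
  rw [hlog] at hH1 ⊢
  have hH0 : 0 < H := by linarith
  have hab : ⌊x⌋₊ ≤ ⌊x + H⌋₊ := Nat.floor_mono (by linarith)
  rw [← pcn_sub hab]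
  have hdens : dens x H = (pcn ⌊x⌋₊ ⌊x + H⌋₊ : ℝ) * y / H := by
    unfold dens; rw [hlog]
  have hHy : 0 ≤ H / y := by positivity
  by_cases hlong : Real.exp ((1 - c) * y) ≤ H
  · have hd : |dens x H - 1| ≤ 1 - μ := by
      by_contra hcon
      push Not at hcon
      exact hL ⟨H, hlong, hH2, hcon⟩
    rw [abs_le] at hd
    constructor
    · have ht : μ ≤ dens x H := by linarith [hd.1]
      rw [hdens, le_div_iff₀ hH0] at ht
      rw [← mul_div_assoc, div_le_iff₀ hyp]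
      exact ht
    · have ht : dens x H ≤ 4 * lam + 2 := by linarith [hd.2]
      rw [hdens, div_le_iff₀ hH0] at ht
      rw [← mul_div_assoc, le_div_iff₀ hyp]
      exact ht
  · push Not at hlong
    set n : ℕ := ⌊x⌋₊ with hn
    set b : ℕ := ⌊x + H⌋₊ with hb
    have hn1 : (n : ℝ) ≤ x := Nat.floor_le hx0.le
    have hn2 : x < n + 1 := Nat.lt_floor_add_one x
    have hb1 : (b : ℝ) ≤ x + H := Nat.floor_le (by positivity)
    have hb2 : x + H < b + 1 := Nat.lt_floor_add_one _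
    have hx8 : 8 ≤ x := by linarith
    have hnp : (0 : ℝ) < n := by linarith
    have hln1 : Real.log n ≤ y := by
      rw [← hlog]; exact Real.log_le_log hnp hn1
    have hln2 : y - 1 / 4 ≤ Real.log n := by
      rw [Real.le_log_iff_exp_le hnp, Real.exp_sub, ← hx, div_le_iff₀ (Real.exp_pos _)]
      have h4 : (1 : ℝ) / 4 + 1 ≤ Real.exp (1 / 4) := Real.add_one_le_exp _
      have h5 : (n : ℝ) * (1 / 4 + 1) ≤ n * Real.exp (1 / 4) :=
        mul_le_mul_of_nonneg_left h4 hnp.le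
      linarith
    have hln0 : 0 ≤ Real.log n := by linarith
    have hc1' : K / 2 * Real.log n ≤ (b : ℝ) - n := by
      have h4 : K / 2 * Real.log n ≤ K / 2 * y := mul_le_mul_of_nonneg_left hln1 (by positivity)
      linarith
    have hc2' : (b : ℝ) - n ≤ 2 * Real.exp ((1 - c) * Real.log n) := by
      have h4 : Real.exp ((1 - c) * y - 1 / 4) ≤ Real.exp ((1 - c) * Real.log n) := by
        apply Real.exp_le_exp.2
        have h5 : (1 - c) * (y - 1 / 4) ≤ (1 - c) * Real.log n :=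
          mul_le_mul_of_nonneg_left hln2 (by linarith)
        linarith
      have h6 : (3 / 4 : ℝ) ≤ Real.exp (-(1 / 4)) := by
        have := Real.add_one_le_exp (-(1 / 4) : ℝ)
        linarith
      have h7 : Real.exp ((1 - c) * y - 1 / 4) = Real.exp ((1 - c) * y) * Real.exp (-(1 / 4)) := by
        rw [← Real.exp_add]; congr 1
      have h8 : Real.exp ((1 - c) * y) * (3 / 4) ≤ Real.exp ((1 - c) * y) * Real.exp (-(1 / 4)) :=
        mul_le_mul_of_nonneg_left h6 (Real.exp_pos _).le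
      linarith
    obtain ⟨hg1, hg2⟩ := hS b hab hc1' hc2'
    have hpc0 : (0 : ℝ) ≤ (pcn n b : ℝ) := Nat.cast_nonneg _
    have hbn : H - 1 ≤ (b : ℝ) - n := by linarith
    have hbn2 : (b : ℝ) - n ≤ H + 1 := by linarith
    constructor
    · have hpc : (pcn n b : ℝ) * Real.log n ≤ (pcn n b : ℝ) * y :=
        mul_le_mul_of_nonneg_left hln1 hpc0
      have h4 : μ' * (H - 1) ≤ μ' * ((b : ℝ) - n) := mul_le_mul_of_nonneg_left hbn (by linarith)
      have h5 : 1 ≤ (μ' - μ) * H := by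
        have h6 : 1 / (μ' - μ) ≤ H := by linarith
        rwa [div_le_iff₀' hμd] at h6
      rw [← mul_div_assoc, div_le_iff₀ hyp]
      linarith
    · rw [← mul_div_assoc, le_div_iff₀ hyp]
      have h4 : (pcn n b : ℝ) * y ≤ 2 * ((pcn n b : ℝ) * Real.log n) := by
        have : (pcn n b : ℝ) * y ≤ (pcn n b : ℝ) * (2 * Real.log n) :=
          mul_le_mul_of_nonneg_left (by linarith) hpc0
        linarith
      have h5 : lam * ((b : ℝ) - n) ≤ lam * (2 * H) :=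
        mul_le_mul_of_nonneg_left (by linarith) hlam.le
      linarith

variable {s w : ℕ → ℝ} {C' : ℝ}

open Classical in
/-- the sum of the weights of the good indices, for one choice of the parameters -/
theorem seqK_ae {c μ μ' lam K ρ K0 Z0 : ℝ} (hc : 0 < c) (hc1 : c ≤ 1 / 10)
    (hbig : BigD c) (hμ0 : 0 < μ) (hμμ : μ < μ') (hμ'1 : μ' < 1) (hlam : 0 < lam) (hK : 0 < K)
    (hρ : 0 < ρ) (hK0 : 0 ≤ K0)
    (hLB : ∀ Z : ℕ, Z0 ≤ Z → ∀ η : ℝ, Real.exp (-(c / 2 * Z)) ≤ η →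
      η ≤ Real.exp (-(c / 2 * Z / 8)) →
      volume ({y | 1 / η * (∫ t in y..(y + η),
        ({t : ℝ | ⌊Real.exp t⌋₊ ∈ GK μ' lam (K / 2) c}).indicator (fun _ => (1 : ℝ)) t) < ρ} ∩
        Icc (Z : ℝ) (Z + 1)) ≤ ENNReal.ofReal (K0 / Z))
    (hW : WS s w C') (hsi : Tendsto s atTop atTop)
    (hWi : Tendsto (fun N => ∑ n ∈ Finset.range N, w n) atTop atTop)
    {a : ℝ} (ha : 0 < a) :
    ∀ᵐ β ∂(volume.restrict (Ioc a (2 * a))), ∀ᶠ N : ℕ in atTop,
      ρ / 2 * ∑ n ∈ Finset.range N, w n ≤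
        ∑ n ∈ Finset.range N,
          w n * (if GoodK μ (4 * lam + 2) K (Real.exp (s n * β)) then 1 else 0) := by
  set φ : ℝ → ℝ := ({t : ℝ | ⌊Real.exp t⌋₊ ∈ GK μ' lam (K / 2) c}).indicator
    (fun _ => (1 : ℝ)) with hφd
  have hms : MeasurableSet {t : ℝ | ⌊Real.exp t⌋₊ ∈ GK μ' lam (K / 2) c} :=
    (Nat.measurable_floor.comp Real.measurable_exp)
      (MeasurableSet.of_discrete (s := GK μ' lam (K / 2) c))
  have hφm : Measurable φ := measurable_const.indicator hms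
  have hφ0 : ∀ y, 0 ≤ φ y := by
    intro y; simp only [hφd, indicator]; split_ifs <;> norm_num
  have hφ1 : ∀ y, φ y ≤ 1 := by
    intro y; simp only [hφd, indicator]; split_ifs <;> norm_num
  have hBV : ∀ c' d σ : ℝ, c' ≤ d → 0 ≤ d → 0 ≤ σ →
      ∫ y in c'..d, |φ y - φ (y - σ)| ≤ σ * Real.exp (1 * (d + 1)) :=
    fun c' d σ h1 _ h3 => ind_bv (GK μ' lam (K / 2) c) c' d σ h1 h3
  have hS := samp hW hWi hφm hφ0 hφ1 (lam := 1) (by norm_num) hBV (c1 := c / 2) (by positivity)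
    hK0 hLB ha (by linarith : a ≤ 2 * a) le_rfl
  -- the rare event
  obtain ⟨K3, Z3, hK3, hL⟩ := hbig (1 - μ) (by linarith)
  obtain ⟨K3', hL'⟩ := rare_thin hW ha (by linarith : a ≤ 2 * a) hK3 (fun _ => LongEx c (1 - μ))
    ((Z3 + 1) / a) (by
      intro n hn Z hZ1 _
      have h1 : Z3 + 1 ≤ s n * a := by rwa [div_le_iff₀ ha] at hn
      exact hL Z (by linarith))
  have r3 := rare hW _ hL'
  obtain ⟨Y0, hY0⟩ := goodK_of hc hc1 hμ0 hμμ hμ'1 hlam hK
  filter_upwards [hS, r3, ae_restrict_mem measurableSet_Ioc] with β b1 b3 b4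
  obtain ⟨B3, hB3⟩ := b3
  have hβ : 0 < β := ha.trans b4.1
  have hsβ : Tendsto (fun n => s n * β) atTop atTop := hsi.atTop_mul_const hβ
  obtain ⟨n0, hn0⟩ := eventually_atTop.1 (hsβ.eventually_ge_atTop Y0)
  set B4 : ℝ := ∑ n ∈ Finset.range n0, w n with hB4
  have e1 := b1 (ρ / 4) (by linarith)
  have e2 : ∀ᶠ N : ℕ in atTop, (B3 + B4) / (ρ / 4) ≤ ∑ n ∈ Finset.range N, w n :=
    hWi.eventually_ge_atTop _
  filter_upwards [e1, e2] with N h1 h2
  rw [div_le_iff₀ (by linarith)] at h2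
  have hpt : ∀ n, w n * φ (s n * β) ≤
      w n * (if GoodK μ (4 * lam + 2) K (Real.exp (s n * β)) then 1 else 0) +
      w n * (if s n * β ∈ LongEx c (1 - μ) then 1 else 0) +
      (if n < n0 then w n else 0) := by
    intro n
    have hw := hW.w0 n
    have p2 : (0 : ℝ) ≤ (if GoodK μ (4 * lam + 2) K (Real.exp (s n * β)) then 1 else 0) := by
      split_ifs <;> norm_num
    have p4 : (0 : ℝ) ≤ (if s n * β ∈ LongEx c (1 - μ) then 1 else 0) := by
      split_ifs <;> norm_num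
    by_cases hn : n < n0
    · rw [if_pos hn]
      have a1 : w n * φ (s n * β) ≤ w n * 1 := mul_le_mul_of_nonneg_left (hφ1 _) hw
      have a2 := mul_nonneg hw p2
      have a4 := mul_nonneg hw p4
      linarith
    · rw [if_neg hn]
      push Not at hn
      have hy := hn0 n hn
      rw [add_zero, ← mul_add]
      apply mul_le_mul_of_nonneg_left _ hw
      by_cases c1 : ⌊Real.exp (s n * β)⌋₊ ∈ GK μ' lam (K / 2) c
      · by_cases c3 : s n * β ∈ LongEx c (1 - μ)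
        · rw [if_pos c3]
          have := hφ1 (s n * β)
          linarith
        · rw [if_pos (hY0 _ hy c1 c3)]
          have := hφ1 (s n * β)
          linarith
      · have : φ (s n * β) = 0 := by
          have c2 : (s n * β) ∉ {t : ℝ | ⌊Real.exp t⌋₊ ∈ GK μ' lam (K / 2) c} := c1
          rw [hφd]
          exact indicator_of_notMem c2 _
        rw [this]
        linarith
  have hsum := Finset.sum_le_sum (fun n (_ : n ∈ Finset.range N) => hpt n)
  rw [Finset.sum_add_distrib, Finset.sum_add_distrib] at hsum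
  have hlast : ∑ n ∈ Finset.range N, (if n < n0 then w n else 0) ≤ B4 := by
    rw [← Finset.sum_filter, hB4]
    apply Finset.sum_le_sum_of_subset_of_nonneg
    · intro n hn
      rw [Finset.mem_filter] at hn
      exact Finset.mem_range.2 hn.2
    · intro n _ _
      exact hW.w0 n
  have hB3' : ∑ n ∈ Finset.range N, w n * (if s n * β ∈ LongEx c (1 - μ) then 1 else 0) ≤
      B3 := by
    convert hB3 N
  linarith

open Classical in
/-- the theorem for all lengths from `K log x` on -/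
theorem geoK {c C : ℝ} {u0 : ℕ} (hc : 0 < c) (hc1 : c ≤ 1 / 10) (hbig : BigD c)
    (hC : 0 ≤ C) (hSM : SM C u0) {μ K : ℝ} (hμ0 : 0 < μ) (hμ1 : μ < 1) (hK : 0 < K) :
    ∃ lam ρ : ℝ, 0 < lam ∧ 0 < ρ ∧ ∀ (s w : ℕ → ℝ) (C' : ℝ), WS s w C' →
      Tendsto s atTop atTop → Tendsto (fun N => ∑ n ∈ Finset.range N, w n) atTop atTop →
      ∀ᵐ α ∂(volume.restrict (Ioi (1 : ℝ))), ∀ᶠ N : ℕ in atTop,
        ρ * ∑ n ∈ Finset.range N, w n ≤
          ∑ n ∈ Finset.range N, if GoodK μ lam K (α ^ s n) then w n else 0 := by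
  obtain ⟨μ', hμμ, hμ'1⟩ := exists_between hμ1
  obtain ⟨lam, ρ, K0, Z0, hlam, hρ, hK0, hLB⟩ := locdensK hc hc1 hbig hC hSM (hμ0.trans hμμ) hμ'1
    (half_pos hK)
  refine ⟨4 * lam + 2, ρ / 2, by linarith, by linarith, fun s w C' hW hsi hWi => ?_⟩
  apply ae_exp (P := fun α => ∀ᶠ N : ℕ in atTop, ρ / 2 * ∑ n ∈ Finset.range N, w n ≤
    ∑ n ∈ Finset.range N, if GoodK μ (4 * lam + 2) K (α ^ s n) then w n else 0)
  intro a ha
  filter_upwards [seqK_ae hc hc1 hbig hμ0 hμμ hμ'1 hlam hK hρ hK0 hLB hW hsi hWi ha] with β hβ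
  filter_upwards [hβ] with N hN
  refine hN.trans (le_of_eq ?_)
  apply Finset.sum_congr rfl
  intro n _
  rw [← Real.exp_mul, mul_comm β (s n)]
  split_ifs <;> simp

end Pool.Agent.U762.GP
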