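import Pool.Agent.U762.GP.Lln

/-! Rare events along `s n * β`, and the transfer of local means. -/

set_option autoImplicit false

namespace Pool.Agent.U762.GP

open MeasureTheory Filter Topology Set

variable {s w : ℕ → ℝ} {C : ℝ}

open Classical in
/-- rare events have bounded total weight almost surely -/
theorem rare (hW : WS s w C) {a b K : ℝ} (S : ℕ → Set ℝ)
    (hS : ∀ n, (volume.restrict (Ioc a b)) (S n) ≤ ENNReal.ofReal (K / s n)) :
    ∀ᵐ β ∂(volume.restrict (Ioc a b)), ∃ B : ℝ, ∀ N : ℕ,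
      ∑ n ∈ Finset.range N, w n * (if β ∈ S n then 1 else 0) ≤ B := by
  set μ := volume.restrict (Ioc a b) with hμ
  set S' : ℕ → Set ℝ := fun n => toMeasurable μ (S n) with hS'
  have hsum : Summable (fun n => w n / s n) := by
    apply summable_of_sum_le (c := 2 * C)
    · intro n
      have h1 := hW.w0 n
      have h2 := hW.s1 n
      positivity
    · exact hW.sum_inv
  have h1 : ∫⁻ β, ∑' n, (S' n).indicator (fun _ => ENNReal.ofReal (w n)) β ∂μ ≠ ⊤ := by
    rw [lintegral_tsum (fun n => (measurable_const.indicator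
      (measurableSet_toMeasurable μ (S n))).aemeasurable)]
    have h2 : ∀ n, ∫⁻ β, (S' n).indicator (fun _ => ENNReal.ofReal (w n)) β ∂μ ≤
        ENNReal.ofReal (max K 0 * (w n / s n)) := by
      intro n
      rw [lintegral_indicator_const (measurableSet_toMeasurable μ (S n)), measure_toMeasurable]
      have hs := hW.s1 n
      calc ENNReal.ofReal (w n) * μ (S n) ≤ ENNReal.ofReal (w n) * ENNReal.ofReal (K / s n) :=
            mul_le_mul_right (hS n) _
        _ = ENNReal.ofReal (w n * (K / s n)) := (ENNReal.ofReal_mul (hW.w0 n)).symm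
        _ ≤ _ := by
            apply ENNReal.ofReal_le_ofReal
            have h3 : K ≤ max K 0 := le_max_left _ _
            have h4 := hW.w0 n
            calc w n * (K / s n) = K * (w n / s n) := by ring
              _ ≤ max K 0 * (w n / s n) := mul_le_mul_of_nonneg_right h3 (by positivity)
    refine ne_top_of_le_ne_top ?_ (ENNReal.tsum_le_tsum h2)
    rw [← ENNReal.ofReal_tsum_of_nonneg _ (hsum.mul_left _)]
    · exact ENNReal.ofReal_ne_top
    · intro n
      have h1 := hW.w0 n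
      have h2 := hW.s1 n
      positivity
  have hae := ae_lt_top (Measurable.ennreal_tsum fun n => measurable_const.indicator
      (measurableSet_toMeasurable μ (S n))) h1
  filter_upwards [hae] with β hβ
  refine ⟨(∑' n, (S' n).indicator (fun _ => ENNReal.ofReal (w n)) β).toReal, fun N => ?_⟩
  have h5 : ∀ n, w n * (if β ∈ S n then 1 else 0) ≤
      ((S' n).indicator (fun _ => ENNReal.ofReal (w n)) β).toReal := by
    intro n
    split_ifs with h
    · rw [Set.indicator_of_mem (subset_toMeasurable μ (S n) h), mul_one,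
        ENNReal.toReal_ofReal (hW.w0 n)]
    · rw [mul_zero]; exact ENNReal.toReal_nonneg
  have hne : ∀ n ∈ Finset.range N, (S' n).indicator (fun _ => ENNReal.ofReal (w n)) β ≠ ⊤ := by
    intro n _
    exact ne_top_of_le_ne_top hβ.ne (ENNReal.le_tsum n)
  calc ∑ n ∈ Finset.range N, w n * (if β ∈ S n then 1 else 0)
      ≤ ∑ n ∈ Finset.range N, ((S' n).indicator (fun _ => ENNReal.ofReal (w n)) β).toReal :=
        Finset.sum_le_sum fun n _ => h5 n
    _ = (∑ n ∈ Finset.range N, (S' n).indicator (fun _ => ENNReal.ofReal (w n)) β).toReal :=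
        (ENNReal.toReal_sum hne).symm
    _ ≤ _ := ENNReal.toReal_mono hβ.ne (ENNReal.sum_le_tsum _)

/-- rescaling a thin set -/
theorem scale_thin {a b t q : ℝ} (ha : 0 < a) (hab : a ≤ b) (ht : 0 < t) (hq : 0 ≤ q) (E : Set ℝ)
    (hE : ∀ Z : ℕ, ⌊t * a⌋₊ ≤ Z → Z ≤ ⌊t * b⌋₊ →
      volume (E ∩ Icc (Z : ℝ) (Z + 1)) ≤ ENNReal.ofReal q) :
    (volume.restrict (Ioc a b)) {β | t * β ∈ E} ≤ ENNReal.ofReal ((t * (b - a) + 2) * q / t) := by
  have hsub : {β | t * β ∈ E} ∩ Ioc a b ⊆
      ⋃ Z ∈ Finset.Icc ⌊t * a⌋₊ ⌊t * b⌋₊, (t * ·) ⁻¹' (E ∩ Icc (Z : ℝ) (Z + 1)) := by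
    rintro β ⟨h1, h2⟩
    rw [mem_ofPred_eq] at h1
    have hp : 0 ≤ t * β := mul_nonneg ht.le (ha.le.trans h2.1.le)
    rw [mem_iUnion₂]
    refine ⟨⌊t * β⌋₊, ?_, h1, Nat.floor_le hp, (Nat.lt_floor_add_one _).le⟩
    rw [Finset.mem_Icc]
    exact ⟨Nat.floor_le_floor (mul_le_mul_of_nonneg_left h2.1.le ht.le),
      Nat.floor_le_floor (mul_le_mul_of_nonneg_left h2.2 ht.le)⟩
  have h3 : (volume.restrict (Ioc a b)) {β | t * β ∈ E} = volume ({β | t * β ∈ E} ∩ Ioc a b) :=
    Measure.restrict_apply' measurableSet_Ioc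
  rw [h3]
  refine (measure_mono hsub).trans ((measure_biUnion_finset_le _ _).trans ?_)
  have h4 : ∀ Z ∈ Finset.Icc ⌊t * a⌋₊ ⌊t * b⌋₊,
      volume ((t * ·) ⁻¹' (E ∩ Icc (Z : ℝ) (Z + 1))) ≤ ENNReal.ofReal (q / t) := by
    intro Z hZ
    rw [Finset.mem_Icc] at hZ
    rw [Real.volume_preimage_mul_left ht.ne']
    calc ENNReal.ofReal |t⁻¹| * volume (E ∩ Icc (Z : ℝ) (Z + 1))
        ≤ ENNReal.ofReal |t⁻¹| * ENNReal.ofReal q := mul_le_mul_right (hE Z hZ.1 hZ.2) _
      _ = ENNReal.ofReal (q / t) := by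
        rw [← ENNReal.ofReal_mul (abs_nonneg _), abs_of_pos (inv_pos.2 ht)]
        congr 1
        rw [div_eq_mul_inv, mul_comm]
  refine (Finset.sum_le_sum h4).trans ?_
  rw [Finset.sum_const, nsmul_eq_mul, Nat.card_Icc, ← ENNReal.ofReal_natCast,
    ← ENNReal.ofReal_mul (Nat.cast_nonneg _)]
  apply ENNReal.ofReal_le_ofReal
  have h5 : ((⌊t * b⌋₊ + 1 - ⌊t * a⌋₊ : ℕ) : ℝ) ≤ t * (b - a) + 2 := by
    have h6 : ⌊t * a⌋₊ ≤ ⌊t * b⌋₊ + 1 :=
      (Nat.floor_le_floor (mul_le_mul_of_nonneg_left hab ht.le)).trans (Nat.le_succ _)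
    rw [Nat.cast_sub h6]
    push_cast
    have h8 := Nat.lt_floor_add_one (t * a)
    have h7' : (⌊t * b⌋₊ : ℝ) ≤ t * b := by
      apply Nat.floor_le
      have : 0 < b := by linarith
      positivity
    linarith
  calc ((⌊t * b⌋₊ + 1 - ⌊t * a⌋₊ : ℕ) : ℝ) * (q / t) ≤ (t * (b - a) + 2) * (q / t) :=
        mul_le_mul_of_nonneg_right h5 (by positivity)
    _ = _ := by ring

/-- rare events from thin sets -/
theorem rare_thin (hW : WS s w C) {a b K : ℝ} (ha : 0 < a) (hab : a ≤ b) (hK : 0 ≤ K)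
    (E : ℕ → Set ℝ) (S0 : ℝ)
    (hE : ∀ n, S0 ≤ s n → ∀ Z : ℕ, s n * a - 1 ≤ Z → (Z : ℝ) ≤ s n * b →
      volume (E n ∩ Icc (Z : ℝ) (Z + 1)) ≤ ENNReal.ofReal (K / Z)) :
    ∃ K' : ℝ, ∀ n, (volume.restrict (Ioc a b)) {β | s n * β ∈ E n} ≤
      ENNReal.ofReal (K' / s n) := by
  set S1 : ℝ := max (max S0 (2 / a)) 1 with hS1
  have hS1p : 0 < S1 := lt_of_lt_of_le one_pos (le_max_right _ _)
  refine ⟨max ((b - a) * S1) (((b - a) + 2) * (2 * K / a)), fun n => ?_⟩
  have hs := hW.s1 n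
  have hsp : 0 < s n := by linarith
  by_cases hc : S1 ≤ s n
  · have h0 : S0 ≤ s n := ((le_max_left _ _).trans (le_max_left _ _)).trans hc
    have h1 : 2 / a ≤ s n := ((le_max_right _ _).trans (le_max_left _ _)).trans hc
    have h2 : 2 ≤ s n * a := by rwa [div_le_iff₀ ha] at h1
    have h3 := scale_thin ha hab hsp (q := 2 * K / (s n * a)) (by positivity) (E n) (by
      intro Z hZ1 hZ2
      have h4 : s n * a - 1 ≤ Z := by
        have := Nat.lt_floor_add_one (s n * a)
        have h5 : (⌊s n * a⌋₊ : ℝ) ≤ Z := by exact_mod_cast hZ1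
        linarith
      have h5 : (Z : ℝ) ≤ s n * b := by
        have h6 : (Z : ℝ) ≤ ⌊s n * b⌋₊ := by exact_mod_cast hZ2
        exact h6.trans (Nat.floor_le (by have : 0 < b := by linarith
                                         positivity))
      refine (hE n h0 Z h4 h5).trans (ENNReal.ofReal_le_ofReal ?_)
      have hZp : (0 : ℝ) < Z := by linarith
      rw [div_le_div_iff₀ hZp (by positivity)]
      nlinarith)
    refine h3.trans (ENNReal.ofReal_le_ofReal ?_)
    have h6 : (s n * (b - a) + 2) * (2 * K / (s n * a)) / s n ≤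
        (((b - a) + 2) * (2 * K / a)) / s n := by
      apply div_le_div_of_nonneg_right _ hsp.le
      have e : (s n * (b - a) + 2) * (2 * K / (s n * a)) =
          ((b - a) + 2 / s n) * (2 * K / a) := by field_simp
      rw [e]
      apply mul_le_mul_of_nonneg_right _ (by positivity)
      have : 2 / s n ≤ 2 := by rw [div_le_iff₀ hsp]; linarith
      linarith
    exact h6.trans (div_le_div_of_nonneg_right (le_max_right _ _) hsp.le)
  · rw [not_le] at hc
    have h1 : (volume.restrict (Ioc a b)) {β | s n * β ∈ E n} ≤ ENNReal.ofReal (b - a) := by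
      refine (measure_mono (subset_univ _)).trans ?_
      rw [Measure.restrict_apply_univ, Real.volume_Ioc]
    refine h1.trans (ENNReal.ofReal_le_ofReal ?_)
    rw [le_div_iff₀ hsp]
    refine le_trans ?_ (le_max_left _ _)
    exact mul_le_mul_of_nonneg_left hc.le (by linarith)

end Pool.Agent.U762.GP
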