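import Pool.Agent.U762.GP.Seq

/-! Sets of integers with a local density in every interval of length `X ^ θ`, along almost all
geometric progressions. -/

set_option autoImplicit false

namespace Pool.Agent.U762.GP

open MeasureTheory Filter Topology Set
open Pool.Agent.R516 (pcn)

open Classical in
/-- the local density of `S` in all windows -/
theorem locS {S : Set ℕ} {θ ρ c ε : ℝ} (hc : 0 < c) (hc1 : c ≤ 1 / 10) (hcθ : c ≤ 1 - θ)
    (hθ : 0 < θ) (hε : 0 < ε) (hε1 : ε ≤ 1 / 100) (hερ : ε ≤ ρ)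
    (hS : ∀ᶠ X : ℕ in atTop, ∀ Y : ℕ, (X : ℝ) ^ θ ≤ Y → Y ≤ X →
      ρ * Y ≤ (((Finset.Ioc X (X + Y)).filter (fun n => n ∈ S)).card : ℝ)) :
    ∃ Z0 : ℝ, ∀ Z : ℕ, Z0 ≤ Z → ∀ η : ℝ, Real.exp (-(c / 2 * Z)) ≤ η →
      η ≤ Real.exp (-(c / 2 * Z / 8)) →
      volume ({y | 1 / η * (∫ t in y..(y + η),
        ({t : ℝ | ⌊Real.exp t⌋₊ ∈ S}).indicator (fun _ => (1 : ℝ)) t) < (ρ - ε) * (1 - ε)} ∩
        Icc (Z : ℝ) (Z + 1)) ≤ ENNReal.ofReal (0 / Z) := by
  obtain ⟨X0, hX0⟩ := eventually_atTop.1 hS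
  obtain ⟨Z3, h3⟩ := thresholds (μ' := 1 / 4) (μ := 1 / 2) hc hc1 hε (by norm_num)
  refine ⟨max Z3 (max (2 / c) ((X0 : ℝ) + 2)), fun Z hZ η hη0 hη1' => ?_⟩
  have hZ3 : Z3 ≤ Z := (le_max_left _ _).trans hZ
  have hZ4 : 2 / c ≤ Z := (le_max_left _ _).trans ((le_max_right _ _).trans hZ)
  have hZ5 : (X0 : ℝ) + 2 ≤ Z := (le_max_right _ _).trans ((le_max_right _ _).trans hZ)
  obtain ⟨hZ10, -, hA2, hη1a, hη1b, -⟩ := h3 Z hZ3
  have hη1 : η ≤ ε / 16 := hη1'.trans hη1a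
  have hη2 : η ≤ 1 / 16 := hη1'.trans hη1b
  have hη : 0 < η := lt_of_lt_of_le (Real.exp_pos _) hη0
  have hZp : (0 : ℝ) < Z := by linarith
  have hempty : {y | 1 / η * (∫ t in y..(y + η),
        ({t : ℝ | ⌊Real.exp t⌋₊ ∈ S}).indicator (fun _ => (1 : ℝ)) t) < (ρ - ε) * (1 - ε)} ∩
        Icc (Z : ℝ) (Z + 1) = ∅ := by
    rw [Set.eq_empty_iff_forall_notMem]
    rintro y ⟨hy, hyI⟩
    have hy' : 1 / η * (∫ t in y..(y + η),
        ({t : ℝ | ⌊Real.exp t⌋₊ ∈ S}).indicator (fun _ => (1 : ℝ)) t) < (ρ - ε) * (1 - ε) := hy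
    have hy1 := hyI.1
    have hy2 := hyI.2
    refine absurd hy' (not_lt.2 ?_)
    set x : ℝ := Real.exp y with hx
    have hx0 : 0 < x := Real.exp_pos y
    set H0 : ℝ := x * (Real.exp η - 1) with hH0
    have hexp1 : η ≤ Real.exp η - 1 := by have := Real.add_one_le_exp η; linarith
    have hexp2 : Real.exp η - 1 ≤ η * (1 + η) := exp_sub_le' hη hη2
    have hxη : Real.exp ((1 - c / 2) * Z) ≤ x * η := by
      calc Real.exp ((1 - c / 2) * Z) = Real.exp Z * Real.exp (-(c / 2 * Z)) := by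
            rw [← Real.exp_add]; congr 1; ring
        _ ≤ x * η := mul_le_mul (Real.exp_le_exp.2 hy1) hη0 (Real.exp_pos _).le hx0.le
    have hH01 : x * η ≤ H0 := mul_le_mul_of_nonneg_left hexp1 hx0.le
    have hH02 : H0 ≤ x * (η * (1 + η)) := mul_le_mul_of_nonneg_left hexp2 hx0.le
    obtain ⟨u, hu⟩ : ∃ u : ℕ, u = ⌊x⌋₊ := ⟨_, rfl⟩
    obtain ⟨v, hv⟩ : ∃ v : ℕ, v = ⌊Real.exp (y + η)⌋₊ := ⟨_, rfl⟩
    have hxe : Real.exp (y + η) = x + H0 := by
      rw [Real.exp_add, hH0]; ring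
    have hu1 : (u : ℝ) ≤ x := by rw [hu]; exact Nat.floor_le hx0.le
    have hu2 : x < u + 1 := by rw [hu]; exact Nat.lt_floor_add_one x
    have hv1 : (v : ℝ) ≤ x + H0 := by rw [← hxe, hv]; exact Nat.floor_le (Real.exp_pos _).le
    have hv2 : x + H0 < v + 1 := by rw [← hxe, hv]; exact Nat.lt_floor_add_one _
    have hq2 : ε / 4 * Real.exp ((1 - c / 2) * Z) ≤ ε / 4 * (x * η) :=
      mul_le_mul_of_nonneg_left hxη (by positivity)
    have hbig : 10 ≤ ε / 4 * (x * η) := by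
      have h1 : 0 ≤ Real.exp ((1 - c) * ((Z : ℝ) + 2)) := (Real.exp_pos _).le
      linarith
    have hq4000 : 4000 ≤ x * η := by
      have h1 : ε / 4 * (x * η) ≤ 1 / 400 * (x * η) :=
        mul_le_mul_of_nonneg_right (by linarith) (by positivity)
      linarith
    have huv : u ≤ v := by
      have : (u : ℝ) < v := by linarith
      exact_mod_cast this.le
    obtain ⟨N, hN⟩ : ∃ N, v = u + N := ⟨v - u, by omega⟩
    have hNr : (N : ℝ) = v - u := by rw [hN]; push_cast; ring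
    have hN1 : H0 - 1 ≤ N := by rw [hNr]; linarith
    have hN2 : (N : ℝ) ≤ H0 + 1 := by rw [hNr]; linarith
    obtain ⟨-, hnum2, hnum3, hnum4⟩ := num_win hε hε1 hbig hH01 hN1 hN2
    have hηη : η * (1 + η) ≤ 1 / 8 := by
      calc η * (1 + η) ≤ 1 / 16 * 2 := mul_le_mul hη2 (by linarith) (by linarith) (by norm_num)
        _ = 1 / 8 := by norm_num
    have hH03 : H0 ≤ x * (1 / 8) := hH02.trans (mul_le_mul_of_nonneg_left hηη hx0.le)
    have hx4000 : 4000 ≤ x := by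
      have : x * η ≤ x * 1 := mul_le_mul_of_nonneg_left (by linarith) hx0.le
      linarith
    have hNu : N ≤ u := by
      have : (N : ℝ) ≤ u := by linarith
      exact_mod_cast this
    have hXu : X0 ≤ u := by
      have h1 : (Z : ℝ) + 1 ≤ Real.exp Z := Real.add_one_le_exp _
      have h2 : Real.exp (Z : ℝ) ≤ x := Real.exp_le_exp.2 hy1
      have : (X0 : ℝ) ≤ u := by linarith
      exact_mod_cast this
    have huN : (u : ℝ) ^ θ ≤ N := by
      have h1 : (u : ℝ) ^ θ ≤ x ^ θ := Real.rpow_le_rpow (Nat.cast_nonneg _) hu1 hθ.le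
      have h2 : x ^ θ = Real.exp (θ * y) := by rw [hx, ← Real.exp_mul, mul_comm]
      have h3 : Real.exp (θ * y) * 2 ≤ x * η := by
        have h4 : Real.exp (θ * y) * 2 ≤ Real.exp (θ * y) * Real.exp (c / 2 * y) := by
          apply mul_le_mul_of_nonneg_left _ (Real.exp_pos _).le
          have h5 := Real.add_one_le_exp (c / 2 * y)
          have h6 : 2 ≤ c * (Z : ℝ) := by rwa [div_le_iff₀' hc] at hZ4
          have h7 : c * (Z : ℝ) ≤ c * y := mul_le_mul_of_nonneg_left hy1 hc.le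
          linarith
        have h8 : Real.exp (θ * y) * Real.exp (c / 2 * y) ≤ x * Real.exp (-(c / 2 * Z)) := by
          rw [← Real.exp_add, hx, ← Real.exp_add]
          apply Real.exp_le_exp.2
          have h9 : c / 2 * (Z : ℝ) ≤ c / 2 * y := mul_le_mul_of_nonneg_left hy1 (by linarith)
          have h10 : c * y ≤ (1 - θ) * y := mul_le_mul_of_nonneg_right hcθ (by linarith)
          linarith
        have h11 : x * Real.exp (-(c / 2 * Z)) ≤ x * η := mul_le_mul_of_nonneg_left hη0 hx0.le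
        linarith
      have h12 : (1 - ε / 4) * (x * η) ≤ N := hnum4
      have h13 : (1 / 2) * (x * η) ≤ (1 - ε / 4) * (x * η) :=
        mul_le_mul_of_nonneg_right (by linarith) (by positivity)
      linarith
    have hcard := hX0 u hXu N huN hNu
    set T : Finset ℕ := ((Finset.Ioc u (u + N)).filter (fun n => n ∈ S)).erase v with hT
    have hTc : ρ * N - 1 ≤ T.card := by
      have h1 : ((Finset.Ioc u (u + N)).filter (fun n => n ∈ S)).card ≤ T.card + 1 := by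
        have h0 := Finset.pred_card_le_card_erase
          (s := (Finset.Ioc u (u + N)).filter (fun n => n ∈ S)) (a := v)
        rw [hT]
        omega
      have h2 : (((Finset.Ioc u (u + N)).filter (fun n => n ∈ S)).card : ℝ) ≤ T.card + 1 := by
        exact_mod_cast h1
      linarith
    have hTmem : ∀ m ∈ T, ⌊Real.exp y⌋₊ < m ∧ m < ⌊Real.exp (y + η)⌋₊ ∧ m ∈ S := by
      intro m hm
      rw [hT, Finset.mem_erase, Finset.mem_filter, Finset.mem_Ioc] at hm
      refine ⟨?_, ?_, hm.2.2⟩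
      · rw [← hx, ← hu]; exact hm.2.1.1
      · rw [← hv]
        have := hm.2.1.2
        have := hm.1
        omega
    have hmeas := meas_ge S hη T hTmem
    refine le_trans ?_ (mul_le_mul_of_nonneg_left hmeas (by positivity : 0 ≤ 1 / η))
    have hTR : (ρ - ε) * N ≤ T.card := by
      have h1 : 1 ≤ ε * (N : ℝ) := by linarith
      linarith
    apply fin_cmp hε hε1 (by linarith) hx0 hη (by positivity) _ hnum4 hTR
    have h1 : x * (η * (1 + η)) ≤ x * (ε / 8) := by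
      apply mul_le_mul_of_nonneg_left _ hx0.le
      calc η * (1 + η) ≤ ε / 16 * 2 := mul_le_mul hη1 (by linarith) (by linarith) (by positivity)
        _ = ε / 8 := by ring
    have h2 : 1 ≤ ε / 8 * x := by
      have h3 : x * η ≤ x * (1 / 16) := mul_le_mul_of_nonneg_left hη2 hx0.le
      have h4 : ε / 4 * (x * η) ≤ ε / 4 * (x * (1 / 16)) :=
        mul_le_mul_of_nonneg_left h3 (by positivity)
      linarith
    rw [hxe]
    linarith
  rw [hempty, measure_empty]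
  exact zero_le

variable {s w : ℕ → ℝ} {C' : ℝ}

open Classical in
/-- **transfer**: a set with local density at least `ρ` in all intervals of length `X ^ θ` has lower
weighted density at least `ρ` along almost every geometric progression -/
theorem transferS {S : Set ℕ} {θ ρ : ℝ} (hθ : 0 < θ) (hθ1 : θ < 1) (hρ : 0 < ρ) (hρ1 : ρ ≤ 1)
    (hS : ∀ᶠ X : ℕ in atTop, ∀ Y : ℕ, (X : ℝ) ^ θ ≤ Y → Y ≤ X →
      ρ * Y ≤ (((Finset.Ioc X (X + Y)).filter (fun n => n ∈ S)).card : ℝ))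
    (hW : WS s w C') (hWi : Tendsto (fun N => ∑ n ∈ Finset.range N, w n) atTop atTop) :
    ∀ᵐ α ∂(volume.restrict (Ioi (1 : ℝ))), ∀ ε : ℝ, 0 < ε → ∀ᶠ N : ℕ in atTop,
      (ρ - ε) * ∑ n ∈ Finset.range N, w n ≤
        ∑ n ∈ Finset.range N, if ⌊α ^ s n⌋₊ ∈ S then w n else 0 := by
  obtain ⟨c, hcd⟩ : ∃ c : ℝ, c = min (1 / 10) (1 - θ) := ⟨_, rfl⟩
  have hc : 0 < c := by rw [hcd]; exact lt_min (by norm_num) (by linarith)
  have hc1 : c ≤ 1 / 10 := by rw [hcd]; exact min_le_left _ _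
  have hcθ : c ≤ 1 - θ := by rw [hcd]; exact min_le_right _ _
  have key : ∀ k : ℕ, ∀ᵐ α ∂(volume.restrict (Ioi (1 : ℝ))), ∀ᶠ N : ℕ in atTop,
      (ρ - 1 / ((k : ℝ) + 1)) * ∑ n ∈ Finset.range N, w n ≤
        ∑ n ∈ Finset.range N, if ⌊α ^ s n⌋₊ ∈ S then w n else 0 := by
    intro k
    obtain ⟨δ, hδd⟩ : ∃ δ : ℝ, δ = 1 / ((k : ℝ) + 1) := ⟨_, rfl⟩
    have hδ : 0 < δ := by rw [hδd]; positivity
    rw [← hδd]
    obtain ⟨ε, hεd⟩ : ∃ ε : ℝ, ε = min (1 / 100) (min (δ / 4) ρ) := ⟨_, rfl⟩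
    have hε : 0 < ε := by rw [hεd]; exact lt_min (by norm_num) (lt_min (by linarith) hρ)
    have hε1 : ε ≤ 1 / 100 := by rw [hεd]; exact min_le_left _ _
    have hε2 : ε ≤ δ / 4 := by rw [hεd]; exact (min_le_right _ _).trans (min_le_left _ _)
    have hε3 : ε ≤ ρ := by rw [hεd]; exact (min_le_right _ _).trans (min_le_right _ _)
    obtain ⟨Z0, hLB⟩ := locS hc hc1 hcθ hθ hε hε1 hε3 hS
    apply ae_exp (P := fun α => ∀ᶠ N : ℕ in atTop,
      (ρ - δ) * ∑ n ∈ Finset.range N, w n ≤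
        ∑ n ∈ Finset.range N, if ⌊α ^ s n⌋₊ ∈ S then w n else 0)
    intro a ha
    set φ : ℝ → ℝ := ({t : ℝ | ⌊Real.exp t⌋₊ ∈ S}).indicator (fun _ => (1 : ℝ)) with hφd
    have hms : MeasurableSet {t : ℝ | ⌊Real.exp t⌋₊ ∈ S} :=
      (Nat.measurable_floor.comp Real.measurable_exp) (MeasurableSet.of_discrete (s := S))
    have hφm : Measurable φ := measurable_const.indicator hms
    have hφ0 : ∀ y, 0 ≤ φ y := by
      intro y; simp only [hφd, indicator]; split_ifs <;> norm_num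
    have hφ1 : ∀ y, φ y ≤ 1 := by
      intro y; simp only [hφd, indicator]; split_ifs <;> norm_num
    have hBV : ∀ c' d σ : ℝ, c' ≤ d → 0 ≤ d → 0 ≤ σ →
        ∫ y in c'..d, |φ y - φ (y - σ)| ≤ σ * Real.exp (1 * (d + 1)) :=
      fun c' d σ h1 _ h3 => ind_bv S c' d σ h1 h3
    have hSa := samp hW hWi hφm hφ0 hφ1 (lam := 1) (by norm_num) hBV (c1 := c / 2)
      (by positivity) (K := 0) le_rfl hLB ha (by linarith : a ≤ 2 * a) le_rfl
    filter_upwards [hSa] with β hβ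
    filter_upwards [hβ (δ / 4) (by linarith)] with N hN
    have hw0 : 0 ≤ ∑ n ∈ Finset.range N, w n := Finset.sum_nonneg fun n _ => hW.w0 n
    have e1 : ρ - δ ≤ (ρ - ε) * (1 - ε) - δ / 4 := by
      have h1 : (ρ - ε) * (1 - ε) = ρ - ε - ρ * ε + ε * ε := by ring
      have h2 : ρ * ε ≤ 1 * ε := mul_le_mul_of_nonneg_right hρ1 hε.le
      have h3 : 0 ≤ ε * ε := by positivity
      rw [h1]
      linarith
    refine (mul_le_mul_of_nonneg_right e1 hw0).trans (hN.trans (le_of_eq ?_))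
    apply Finset.sum_congr rfl
    intro n _
    rw [← Real.exp_mul, mul_comm β (s n)]
    by_cases h : ⌊Real.exp (s n * β)⌋₊ ∈ S
    · have h' : s n * β ∈ {t : ℝ | ⌊Real.exp t⌋₊ ∈ S} := h
      rw [if_pos h, hφd, indicator_of_mem h', mul_one]
    · have h' : s n * β ∉ {t : ℝ | ⌊Real.exp t⌋₊ ∈ S} := h
      rw [if_neg h, hφd, indicator_of_notMem h', mul_zero]
  rw [← ae_all_iff] at key
  filter_upwards [key] with α hα ε hε
  obtain ⟨k, hk⟩ := exists_nat_one_div_lt hε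
  filter_upwards [hα k] with N hN
  have hw0 : 0 ≤ ∑ n ∈ Finset.range N, w n := Finset.sum_nonneg fun n _ => hW.w0 n
  exact (mul_le_mul_of_nonneg_right (by linarith) hw0).trans hN

end Pool.Agent.U762.GP
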