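import Pool.Agent.W66.PG
import Pool.Agent.U762.GP.Cov

/-! Sharp windows from smooth ones. -/

set_option autoImplicit false

namespace Pool.Agent.U762.GP

open MeasureTheory Filter Topology Set
open Pool.Agent.W66 (TT tri hat tri_nonneg tri_continuous tri_zero_of)

lemma tri_ii (h c d : ℝ) : IntervalIntegrable (tri h) volume c d :=
  (tri_continuous h).intervalIntegrable _ _

lemma hat_int : ∫ x in (-1 : ℝ)..1, hat x = 1 := by
  have e1 : ∫ x in (-1 : ℝ)..0, hat x = ∫ x in (-1 : ℝ)..0, (1 + x) := by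
    apply intervalIntegral.integral_congr
    intro x hx
    rw [uIcc_of_le (by norm_num)] at hx
    unfold hat
    rw [abs_of_nonpos hx.2, max_eq_left (by linarith [hx.1])]
    ring
  have e2 : ∫ x in (0 : ℝ)..1, hat x = ∫ x in (0 : ℝ)..1, (1 - x) := by
    apply intervalIntegral.integral_congr
    intro x hx
    rw [uIcc_of_le (by norm_num)] at hx
    unfold hat
    rw [abs_of_nonneg hx.1, max_eq_left (by linarith [hx.2])]
  have hc : Continuous hat := Pool.Agent.W66.hat_continuous
  rw [← intervalIntegral.integral_add_adjacent_intervals (hc.intervalIntegrable (-1) 0)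
    (hc.intervalIntegrable 0 1), e1, e2,
    intervalIntegral.integral_add intervalIntegrable_const intervalIntegral.intervalIntegrable_id,
    intervalIntegral.integral_sub intervalIntegrable_const intervalIntegral.intervalIntegrable_id]
  simp
  norm_num

lemma tri_int1 {h : ℝ} (hh : 0 < h) : ∫ x in (-h)..h, tri h x = 1 := by
  unfold tri
  rw [intervalIntegral.integral_const_mul, intervalIntegral.integral_comp_div hat hh.ne',
    neg_div, div_self hh.ne', hat_int, smul_eq_mul, mul_one]
  field_simp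

lemma tri_int_zero {h : ℝ} (hh : 0 < h) {c d : ℝ} (hcd : c ≤ d) (H : d ≤ -h ∨ h ≤ c) :
    ∫ x in c..d, tri h x = 0 := by
  have e : ∫ x in c..d, tri h x = ∫ x in c..d, (0 : ℝ) := by
    apply intervalIntegral.integral_congr
    intro x hx
    rw [uIcc_of_le hcd] at hx
    apply tri_zero_of hh
    rcases H with H | H
    · rw [abs_of_nonpos (by linarith [hx.2])]; linarith [hx.2]
    · rw [abs_of_nonneg (by linarith [hx.1])]; linarith [hx.1]
  rw [e]; simp

lemma tri_int_mono {h : ℝ} (hh : 0 < h) {c d c' d' : ℝ} (h1 : c' ≤ c) (h2 : c ≤ d) (h3 : d ≤ d') :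
    ∫ x in c..d, tri h x ≤ ∫ x in c'..d', tri h x := by
  apply intervalIntegral.integral_mono_interval h1 h2 h3
  · exact Filter.Eventually.of_forall fun x => tri_nonneg hh x
  · exact tri_ii h c' d'

lemma tri_int_le {h : ℝ} (hh : 0 < h) {c d : ℝ} (hcd : c ≤ d) : ∫ x in c..d, tri h x ≤ 1 := by
  have h1 := tri_int_mono hh (min_le_left c (-h)) hcd (le_max_left d h)
  refine h1.trans (le_of_eq ?_)
  have e1 := intervalIntegral.integral_add_adjacent_intervals
    (tri_ii h (min c (-h)) (-h)) (tri_ii h (-h) h)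
  have e2 := intervalIntegral.integral_add_adjacent_intervals
    (tri_ii h (min c (-h)) h) (tri_ii h h (max d h))
  rw [tri_int_zero hh (min_le_right _ _) (Or.inl le_rfl), tri_int1 hh] at e1
  rw [tri_int_zero hh (le_max_right _ _) (Or.inr le_rfl)] at e2
  linarith

lemma TT_int (h : ℝ) (N : ℕ) (c d : ℝ) : ∫ z in c..d, TT h N z =
    ∑ n ∈ Finset.Ioc 0 N, ArithmeticFunction.vonMangoldt n / n *
      ∫ x in (c - Real.log n)..(d - Real.log n), tri h x := by
  unfold TT
  rw [intervalIntegral.integral_finset_sum]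
  · apply Finset.sum_congr rfl
    intro n _
    rw [intervalIntegral.integral_const_mul, intervalIntegral.integral_comp_sub_right (tri h)]
  · intro n _
    apply Continuous.intervalIntegrable
    exact continuous_const.mul ((tri_continuous h).comp (by fun_prop))

lemma TT_cont (h : ℝ) (N : ℕ) : Continuous (TT h N) := by
  unfold TT
  apply continuous_finset_sum
  intro n _
  exact continuous_const.mul ((tri_continuous h).comp (by fun_prop))

/-- `∑ Λ(n) / n` over `y < log n ≤ y + η` -/
noncomputable def Th (y η : ℝ) : ℝ :=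
  ∑ n ∈ Finset.Ioc ⌊Real.exp y⌋₊ ⌊Real.exp (y + η)⌋₊, ArithmeticFunction.vonMangoldt n / n

lemma vm_nonneg (n : ℕ) : 0 ≤ ArithmeticFunction.vonMangoldt n / (n : ℝ) := by
  have := ArithmeticFunction.vonMangoldt_nonneg (n := n)
  positivity

lemma mem_win {y η : ℝ} {n : ℕ} (h : n ∈ Finset.Ioc ⌊Real.exp y⌋₊ ⌊Real.exp (y + η)⌋₊) :
    0 < n ∧ y < Real.log n ∧ Real.log n ≤ y + η := by
  rw [Finset.mem_Ioc] at h
  have h1 : Real.exp y < n := (Nat.floor_lt (Real.exp_pos _).le).1 h.1
  have h2 : (n : ℝ) ≤ Real.exp (y + η) := (Nat.le_floor_iff (Real.exp_pos _).le).1 h.2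
  have h0 : (0 : ℝ) < n := lt_trans (Real.exp_pos _) h1
  refine ⟨by exact_mod_cast h0, ?_, ?_⟩
  · rwa [Real.lt_log_iff_exp_lt h0]
  · rwa [Real.log_le_iff_le_exp h0]

lemma Th_le {h : ℝ} (hh : 0 < h) {y η : ℝ} {N : ℕ} (hη : 0 ≤ η) (hN : Real.exp (y + η) ≤ N) :
    Th y η ≤ ∫ z in (y - h)..(y + η + h), TT h N z := by
  rw [TT_int]
  unfold Th
  have hsub : Finset.Ioc ⌊Real.exp y⌋₊ ⌊Real.exp (y + η)⌋₊ ⊆ Finset.Ioc 0 N := by
    intro n hn
    have h1 := mem_win hn
    rw [Finset.mem_Ioc] at hn ⊢
    refine ⟨h1.1, hn.2.trans ?_⟩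
    exact_mod_cast (Nat.floor_le (Real.exp_pos _).le).trans hN
  refine le_trans ?_ (Finset.sum_le_sum_of_subset_of_nonneg hsub ?_)
  · apply Finset.sum_le_sum
    intro n hn
    have h1 := mem_win hn
    have h2 : (1 : ℝ) ≤ ∫ x in (y - h - Real.log n)..(y + η + h - Real.log n), tri h x := by
      rw [← tri_int1 hh]
      apply tri_int_mono hh (by linarith) (by linarith) (by linarith)
    calc ArithmeticFunction.vonMangoldt n / (n : ℝ) =
        ArithmeticFunction.vonMangoldt n / (n : ℝ) * 1 := (mul_one _).symm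
      _ ≤ _ := mul_le_mul_of_nonneg_left h2 (vm_nonneg n)
  · intro n _ _
    apply mul_nonneg (vm_nonneg n)
    apply intervalIntegral.integral_nonneg (by linarith)
    intro x _
    exact tri_nonneg hh x

lemma le_Th {h : ℝ} (hh : 0 < h) {y η : ℝ} {N : ℕ} (hη : 2 * h ≤ η) :
    ∫ z in (y + h)..(y + η - h), TT h N z ≤ Th y η := by
  rw [TT_int]
  unfold Th
  have h1 : ∀ n ∈ Finset.Ioc 0 N, ArithmeticFunction.vonMangoldt n / (n : ℝ) *
      ∫ x in (y + h - Real.log n)..(y + η - h - Real.log n), tri h x ≤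
      if n ∈ Finset.Ioc ⌊Real.exp y⌋₊ ⌊Real.exp (y + η)⌋₊ then
        ArithmeticFunction.vonMangoldt n / (n : ℝ) else 0 := by
    intro n hn
    rw [Finset.mem_Ioc] at hn
    have hn0 : (0 : ℝ) < n := by exact_mod_cast hn.1
    split_ifs with hc
    · calc _ ≤ ArithmeticFunction.vonMangoldt n / (n : ℝ) * 1 :=
            mul_le_mul_of_nonneg_left (tri_int_le hh (by linarith)) (vm_nonneg n)
        _ = _ := mul_one _
    · apply le_of_eq
      rw [tri_int_zero hh (by linarith), mul_zero]
      rw [Finset.mem_Ioc, not_and_or, not_lt, not_le] at hc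
      rcases hc with hc | hc
      · right
        have h2 : (n : ℝ) ≤ Real.exp y := (Nat.le_floor_iff (Real.exp_pos _).le).1 hc
        have h3 : Real.log n ≤ y := by rwa [Real.log_le_iff_le_exp hn0]
        linarith
      · left
        have h2 : Real.exp (y + η) < n := (Nat.floor_lt (Real.exp_pos _).le).1 hc
        have h3 : y + η < Real.log n := by rwa [Real.lt_log_iff_exp_lt hn0]
        linarith
  refine (Finset.sum_le_sum h1).trans ?_
  rw [← Finset.sum_filter]
  apply Finset.sum_le_sum_of_subset_of_nonneg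
  · intro n hn
    rw [Finset.mem_filter] at hn
    exact hn.2
  · intro n _ _
    exact vm_nonneg n

/-- from smooth to sharp windows -/
lemma Th_close {h : ℝ} (hh : 0 < h) {y η : ℝ} {N : ℕ} (hη : 2 * h ≤ η)
    (hN : Real.exp (y + η) ≤ N) :
    |Th y η - η| ≤ 2 * h + ∫ z in (y - h)..(y + η + h), |TT h N z - 1| := by
  have hc := TT_cont h N
  have hi : ∀ c d, IntervalIntegrable (fun z => |TT h N z - 1|) volume c d := fun c d =>
    ((hc.sub continuous_const).abs).intervalIntegrable c d
  have hT : ∀ c d, IntervalIntegrable (TT h N) volume c d := fun c d => hc.intervalIntegrable c d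
  have hgen : ∀ c d : ℝ, c ≤ d → |(∫ z in c..d, TT h N z) - (d - c)| ≤
      ∫ z in c..d, |TT h N z - 1| := by
    intro c d hcd
    have e : (∫ z in c..d, TT h N z) - (d - c) = ∫ z in c..d, (TT h N z - 1) := by
      rw [intervalIntegral.integral_sub (hT c d) intervalIntegrable_const,
        intervalIntegral.integral_const]
      simp
    rw [e]
    exact intervalIntegral.abs_integral_le_integral_abs hcd
  have h1 := Th_le hh (by linarith : 0 ≤ η) hN
  have h2 := le_Th hh (N := N) (y := y) hη
  have h3 := hgen (y - h) (y + η + h) (by linarith)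
  have h4 := hgen (y + h) (y + η - h) (by linarith)
  have h5 : ∫ z in (y + h)..(y + η - h), |TT h N z - 1| ≤
      ∫ z in (y - h)..(y + η + h), |TT h N z - 1| := by
    apply intervalIntegral.integral_mono_interval (by linarith) (by linarith) (by linarith)
    · exact Filter.Eventually.of_forall fun x => abs_nonneg _
    · exact hi _ _
  rw [abs_le] at h3 h4 ⊢
  constructor
  · linarith [h4.1]
  · linarith [h3.2]

end Pool.Agent.U762.GP
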