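import Mathlib

/-! Weights with bounded sums over dyadic blocks. -/

set_option autoImplicit false

namespace Pool.Agent.U762.GP

open Finset

/-- weights `w n` at the points `s n ≥ 1`, with sums at most `C` over dyadic blocks -/
structure WS (s w : ℕ → ℝ) (C : ℝ) : Prop where
  s1 : ∀ n, 1 ≤ s n
  w0 : ∀ n, 0 ≤ w n
  dy : ∀ t : ℝ, 1 ≤ t → ∀ F : Finset ℕ, (∀ n ∈ F, t ≤ s n ∧ s n ≤ 2 * t) → ∑ n ∈ F, w n ≤ C

variable {s w : ℕ → ℝ} {C : ℝ}

lemma WS.C0 (h : WS s w C) : 0 ≤ C := by
  have := h.dy 1 le_rfl ∅ (by simp)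
  simpa using this

lemma WS.wC (h : WS s w C) (n : ℕ) : w n ≤ C := by
  have := h.dy (s n) (h.s1 n) {n} (by
    intro m hm
    rw [Finset.mem_singleton] at hm
    subst hm
    exact ⟨le_rfl, by linarith [h.s1 m]⟩)
  simpa using this

lemma WS.block (h : WS s w C) (k : ℕ) : ∀ t : ℝ, 1 ≤ t → ∀ F : Finset ℕ,
    (∀ n ∈ F, t ≤ s n ∧ s n ≤ 2 ^ (k + 1) * t) → ∑ n ∈ F, w n ≤ (k + 1) * C := by
  induction k with
  | zero =>
    intro t ht F hF
    have := h.dy t ht F (by simpa using hF)
    simpa using this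
  | succ k ih =>
    intro t ht F hF
    have h1 := h.dy t ht (F.filter (fun n => s n ≤ 2 * t)) (by
      intro n hn
      rw [Finset.mem_filter] at hn
      exact ⟨(hF n hn.1).1, hn.2⟩)
    have h2 := ih (2 * t) (by linarith) (F.filter (fun n => ¬ s n ≤ 2 * t)) (by
      intro n hn
      rw [Finset.mem_filter, not_le] at hn
      refine ⟨hn.2.le, ?_⟩
      have := (hF n hn.1).2
      rw [pow_succ] at this
      linarith)
    rw [← Finset.sum_filter_add_sum_filter_not F (fun n => s n ≤ 2 * t)]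
    push_cast
    linarith

lemma WS.sum_inv (h : WS s w C) (F : Finset ℕ) : ∑ n ∈ F, w n / s n ≤ 2 * C := by
  classical
  set j : ℕ → ℕ := fun n => Nat.log 2 ⌊s n⌋₊ with hj
  obtain ⟨J, hJ⟩ : ∃ J : ℕ, ∀ n ∈ F, j n ∈ Finset.range J :=
    ⟨F.sup j + 1, fun n hn => by
      rw [Finset.mem_range]
      exact Nat.lt_succ_of_le (Finset.le_sup (f := j) hn)⟩
  rw [← Finset.sum_fiberwise_of_maps_to hJ]
  have hlow : ∀ n, (2 : ℝ) ^ (j n) ≤ s n := by
    intro n
    have h1 : ⌊s n⌋₊ ≠ 0 := by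
      have : 1 ≤ ⌊s n⌋₊ := Nat.le_floor (by simpa using h.s1 n)
      omega
    have h2 := Nat.pow_log_le_self 2 h1
    calc (2 : ℝ) ^ (j n) = ((2 ^ Nat.log 2 ⌊s n⌋₊ : ℕ) : ℝ) := by push_cast; rfl
      _ ≤ (⌊s n⌋₊ : ℝ) := by exact_mod_cast h2
      _ ≤ s n := Nat.floor_le (by linarith [h.s1 n])
  have hup : ∀ n, s n ≤ 2 * (2 : ℝ) ^ (j n) := by
    intro n
    have h2 := Nat.lt_pow_succ_log_self (b := 2) (by norm_num) ⌊s n⌋₊
    have h3 : ⌊s n⌋₊ + 1 ≤ 2 ^ (j n + 1) := h2
    calc s n ≤ (⌊s n⌋₊ : ℝ) + 1 := (Nat.lt_floor_add_one _).le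
      _ ≤ ((2 ^ (j n + 1) : ℕ) : ℝ) := by exact_mod_cast h3
      _ = 2 * (2 : ℝ) ^ (j n) := by push_cast; rw [pow_succ]; ring
  have hj1 : ∀ i ∈ Finset.range J, ∑ n ∈ F.filter (fun n => j n = i), w n / s n ≤
      C * (1 / 2 : ℝ) ^ i := by
    intro i _
    have e1 : ∑ n ∈ F.filter (fun n => j n = i), w n / s n ≤
        ∑ n ∈ F.filter (fun n => j n = i), w n * (1 / 2 : ℝ) ^ i := by
      apply Finset.sum_le_sum
      intro n hn
      rw [Finset.mem_filter] at hn
      rw [div_eq_mul_inv]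
      apply mul_le_mul_of_nonneg_left _ (h.w0 n)
      rw [one_div, inv_pow]
      apply inv_anti₀ (by positivity)
      rw [← hn.2]
      exact hlow n
    have e2 := h.dy ((2 : ℝ) ^ i) (one_le_pow₀ (by norm_num)) (F.filter (fun n => j n = i)) (by
      intro n hn
      rw [Finset.mem_filter] at hn
      rw [← hn.2]
      exact ⟨hlow n, hup n⟩)
    rw [← Finset.sum_mul] at e1
    exact e1.trans (mul_le_mul_of_nonneg_right e2 (by positivity))
  refine (Finset.sum_le_sum hj1).trans ?_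
  rw [← Finset.mul_sum, mul_comm]
  apply mul_le_mul_of_nonneg_right _ h.C0
  have := sum_geometric_two_le J
  simpa using this

/-- weights off the diagonal: the main sum -/
lemma WS.pairs (h : WS s w C) (k : ℕ) {B1 B3 : ℝ} (hB1 : 0 ≤ B1) (hB3 : 0 ≤ B3)
    (I : ℕ → ℕ → ℝ) (hsym : ∀ n m, I n m = I m n)
    (hI : ∀ n m, s n ≤ s m → I n m ≤ (if s m ≤ 2 ^ (k + 1) * s n then B1 else 0) + B3 / s m)
    (N : ℕ) : ∑ n ∈ range N, ∑ m ∈ range N, w n * w m * I n m ≤
      2 * (B1 * ((k + 1) * C) + B3 * (2 * C)) * ∑ n ∈ range N, w n := by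
  classical
  set g : ℕ → ℕ → ℝ := fun n m => if s n ≤ s m then
    (if s m ≤ 2 ^ (k + 1) * s n then B1 else 0) + B3 / s m else 0 with hg
  have hsp : ∀ n, 0 < s n := fun n => by linarith [h.s1 n]
  have hg0 : ∀ n m, 0 ≤ g n m := by
    intro n m
    simp only [hg]
    split_ifs
    · have := hsp m; positivity
    · have := hsp m; positivity
    · exact le_rfl
  have hIg : ∀ n m, I n m ≤ g n m + g m n := by
    intro n m
    rcases le_total (s n) (s m) with hnm | hnm
    · have h1 := hI n m hnm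
      have h2 : g n m = (if s m ≤ 2 ^ (k + 1) * s n then B1 else 0) + B3 / s m := by
        simp only [hg]; rw [if_pos hnm]
      linarith [hg0 m n]
    · have h1 := hI m n hnm
      have h2 : g m n = (if s n ≤ 2 ^ (k + 1) * s m then B1 else 0) + B3 / s n := by
        simp only [hg]; rw [if_pos hnm]
      rw [hsym n m]
      linarith [hg0 n m]
  have hrow : ∀ n, ∑ m ∈ range N, w m * g n m ≤ B1 * ((k + 1) * C) + B3 * (2 * C) := by
    intro n
    have e1 : ∀ m ∈ range N, w m * g n m ≤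
        B1 * (if s n ≤ s m ∧ s m ≤ 2 ^ (k + 1) * s n then w m else 0) + B3 * (w m / s m) := by
      intro m _
      have hw := h.w0 m
      have hs := hsp m
      simp only [hg]
      by_cases c1 : s n ≤ s m
      · by_cases c2 : s m ≤ 2 ^ (k + 1) * s n
        · rw [if_pos c1, if_pos c2, if_pos ⟨c1, c2⟩]
          apply le_of_eq; ring
        · rw [if_pos c1, if_neg c2, if_neg (fun hh => c2 hh.2)]
          apply le_of_eq; ring
      · rw [if_neg c1, if_neg (fun hh => c1 hh.1)]
        have : 0 ≤ B3 * (w m / s m) := by positivity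
        linarith
    refine (Finset.sum_le_sum e1).trans ?_
    rw [Finset.sum_add_distrib, ← Finset.mul_sum, ← Finset.mul_sum]
    apply add_le_add
    · apply mul_le_mul_of_nonneg_left _ hB1
      rw [← Finset.sum_filter]
      apply h.block k (s n) (h.s1 n)
      intro m hm
      rw [Finset.mem_filter] at hm
      exact hm.2
    · exact mul_le_mul_of_nonneg_left (h.sum_inv _) hB3
  have hS : ∑ n ∈ range N, ∑ m ∈ range N, w n * w m * g n m ≤
      (B1 * ((k + 1) * C) + B3 * (2 * C)) * ∑ n ∈ range N, w n := by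
    rw [Finset.mul_sum]
    apply Finset.sum_le_sum
    intro n _
    have : ∑ m ∈ range N, w n * w m * g n m = w n * ∑ m ∈ range N, w m * g n m := by
      rw [Finset.mul_sum]
      exact Finset.sum_congr rfl fun m _ => by ring
    rw [this, mul_comm]
    exact mul_le_mul_of_nonneg_right (hrow n) (h.w0 n)
  have hS2 : ∑ n ∈ range N, ∑ m ∈ range N, w n * w m * g m n =
      ∑ n ∈ range N, ∑ m ∈ range N, w n * w m * g n m := by
    rw [Finset.sum_comm]
    exact Finset.sum_congr rfl fun n _ => Finset.sum_congr rfl fun m _ => by ring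
  calc ∑ n ∈ range N, ∑ m ∈ range N, w n * w m * I n m
      ≤ ∑ n ∈ range N, ∑ m ∈ range N, (w n * w m * g n m + w n * w m * g m n) := by
        apply Finset.sum_le_sum
        intro n _
        apply Finset.sum_le_sum
        intro m _
        rw [← mul_add]
        exact mul_le_mul_of_nonneg_left (hIg n m) (mul_nonneg (h.w0 n) (h.w0 m))
    _ = ∑ n ∈ range N, ∑ m ∈ range N, w n * w m * g n m +
        ∑ n ∈ range N, ∑ m ∈ range N, w n * w m * g m n := by
        rw [← Finset.sum_add_distrib]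
        exact Finset.sum_congr rfl fun n _ => Finset.sum_add_distrib
    _ ≤ _ := by
        rw [hS2]
        linarith

end Pool.Agent.U762.GP
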